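import Pool.Agent.Helper34.GF.N0
import Pool.Agent.Helper97.EN.Dens
import Pool.Agent.Helper97.EN.Fund
import Pool.Agent.Helper97.EN.Pos

/-!
EF.  The facts on the energy form, from block E (the definitions of EN unfold to those of GF).
-/

open MeasureTheory Filter Topology ProbabilityTheory

namespace GF

private theorem EF_dx_add {f g : Pl → ℝ} (hf : ContDiff ℝ (⊤ : ℕ∞) f) (hg : ContDiff ℝ (⊤ : ℕ∞) g) :
    dx (fun z => f z + g z) = fun z => dx f z + dx g z := by
  funext z
  have h1 : DifferentiableAt ℝ f z := (hf.differentiable (by simp)) z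
  have h2 : DifferentiableAt ℝ g z := (hg.differentiable (by simp)) z
  simp only [dx]
  rw [fderiv_fun_add h1 h2]
  rfl

private theorem EF_dy_add {f g : Pl → ℝ} (hf : ContDiff ℝ (⊤ : ℕ∞) f) (hg : ContDiff ℝ (⊤ : ℕ∞) g) :
    dy (fun z => f z + g z) = fun z => dy f z + dy g z := by
  funext z
  have h1 : DifferentiableAt ℝ f z := (hf.differentiable (by simp)) z
  have h2 : DifferentiableAt ℝ g z := (hg.differentiable (by simp)) z
  simp only [dy]
  rw [fderiv_fun_add h1 h2]
  rfl

private theorem EF_dx_smul (c : ℝ) {f : Pl → ℝ} (hf : ContDiff ℝ (⊤ : ℕ∞) f) :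
    dx (fun z => c * f z) = fun z => c * dx f z := by
  funext z
  have h1 : DifferentiableAt ℝ f z := (hf.differentiable (by simp)) z
  simp only [dx]
  rw [fderiv_const_mul h1]
  rfl

private theorem EF_dy_smul (c : ℝ) {f : Pl → ℝ} (hf : ContDiff ℝ (⊤ : ℕ∞) f) :
    dy (fun z => c * f z) = fun z => c * dy f z := by
  funext z
  have h1 : DifferentiableAt ℝ f z := (hf.differentiable (by simp)) z
  simp only [dy]
  rw [fderiv_const_mul h1]
  rfl

private theorem EF_dx_smooth {f : Pl → ℝ} (hf : ContDiff ℝ (⊤ : ℕ∞) f) :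
    ContDiff ℝ (⊤ : ℕ∞) (dx f) := EN.dx_smooth hf

private theorem EF_dy_smooth {f : Pl → ℝ} (hf : ContDiff ℝ (⊤ : ℕ∞) f) :
    ContDiff ℝ (⊤ : ℕ∞) (dy f) := EN.dy_smooth hf

private theorem EF_ne_lap {g : Pl → ℝ} (hg : Cc g) : Ne (lap g) :=
  ⟨⟨EN.lap_smooth hg.smooth, EN.lap_supp hg.supp⟩, EN.int_lap hg.smooth hg.supp⟩

/-- `EN.en_lap_left`, `EN.en_symm`, `EN.en_add_left`, `EN.en_smul_left`, `EN.int_lap`, `EN.lap_smooth`, `EN.lap_supp`, linearity of `fderiv` -/
theorem energyFacts : EnergyFacts := by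
  refine ⟨fun g F hg hF => ?_, fun f g hf hg => ?_, fun f g F hf hg hF => ?_, fun c f F _ _ => ?_,
    fun g hg => EF_ne_lap hg, fun f g hf hg => ?_, fun c f hf => ?_⟩
  · exact EN.en_lap_left hg.smooth hg.supp hF.smooth.continuous hF.supp
  · exact EN.en_symm hf.smooth.continuous hf.supp hg.smooth.continuous hg.supp
  · exact EN.en_add_left hf.smooth.continuous hf.supp hg.smooth.continuous hg.supp
      hF.smooth.continuous hF.supp
  · exact EN.en_smul_left c f F
  · funext z
    simp only [lap]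
    rw [EF_dx_add hf.smooth hg.smooth, EF_dy_add hf.smooth hg.smooth,
      EF_dx_add (EF_dx_smooth hf.smooth) (EF_dx_smooth hg.smooth),
      EF_dy_add (EF_dy_smooth hf.smooth) (EF_dy_smooth hg.smooth)]
    ring
  · funext z
    simp only [lap]
    rw [EF_dx_smul c hf.smooth, EF_dy_smul c hf.smooth, EF_dx_smul c (EF_dx_smooth hf.smooth),
      EF_dy_smul c (EF_dy_smooth hf.smooth)]
    ring

/-- `EN.en_nonneg` -/
theorem energy_nonneg (f : Pl → ℝ) (hf : Ne f) : 0 ≤ energy2 f f :=
  EN.en_nonneg (hf.smooth.of_le (by exact_mod_cast le_top)) hf.supp hf.zero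

/-- `EN.density` -/
theorem energy_density (F : Pl → ℝ) (hF : Ne F) (ε : ℝ) (hε : 0 < ε) :
    ∃ g, Cc g ∧ energy2 (fun z => F z - lap g z) (fun z => F z - lap g z) < ε := by
  obtain ⟨g, h1, h2, h3⟩ := EN.density hF.smooth hF.supp hF.zero hε
  exact ⟨g, ⟨h1, h2⟩, h3⟩

private theorem EF_tri {f g : Pl → ℝ} (hf : Ne f) (hg : Ne g) :
    √(energy2 (fun z => f z + g z) (fun z => f z + g z)) ≤ √(energy2 f f) + √(energy2 g g) :=
  EN.en_tri (hf.smooth.of_le (by exact_mod_cast le_top)) hf.supp hf.zero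
    (hg.smooth.of_le (by exact_mod_cast le_top)) hg.supp hg.zero

private theorem EF_ne_sub {f g : Pl → ℝ} (hf : Ne f) (hg : Ne g) : Ne (fun z => f z - g z) := by
  refine ⟨⟨hf.smooth.sub hg.smooth, hf.supp.sub hg.supp⟩, ?_⟩
  rw [integral_sub (hf.smooth.continuous.integrable_of_hasCompactSupport hf.supp)
    (hg.smooth.continuous.integrable_of_hasCompactSupport hg.supp), hf.zero, hg.zero, sub_zero]

private theorem EF_tri_sub {f g : Pl → ℝ} (hf : Ne f) (hg : Ne g) :
    √(energy2 f f) ≤ √(energy2 g g) + √(energy2 (fun z => f z - g z) (fun z => f z - g z)) := by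
  have h := EF_tri hg (EF_ne_sub hf hg)
  have e : (fun z => g z + (f z - g z)) = f := by
    funext z
    ring
  rwa [e] at h

private theorem EF_sub_comm (f g : Pl → ℝ) :
    energy2 (fun z => f z - g z) (fun z => f z - g z) =
      energy2 (fun z => g z - f z) (fun z => g z - f z) := by
  unfold energy2
  refine integral_congr_ae (Eventually.of_forall fun x => ?_)
  refine integral_congr_ae (Eventually.of_forall fun y => ?_)
  simp only
  ring

/-- `EN.en_tri` (twice) and the density: approximation with convergence of the energies -/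
theorem energy_density' (F : Pl → ℝ) (hF : Ne F) (ε : ℝ) (hε : 0 < ε) :
    ∃ g, Cc g ∧ energy2 (fun z => F z - lap g z) (fun z => F z - lap g z) < ε ∧
      |energy2 F F - energy2 (lap g) (lap g)| < ε := by
  set a := √(energy2 F F) with ha
  have ha0 : 0 ≤ a := Real.sqrt_nonneg _
  set δ := min 1 (ε / (2 * a + 1)) with hδ
  have hδ0 : 0 < δ := lt_min one_pos (div_pos hε (by linarith))
  have hδ1 : δ ≤ 1 := min_le_left _ _
  have hδ2 : δ * (2 * a + 1) ≤ ε := by
    have h1 : δ ≤ ε / (2 * a + 1) := min_le_right _ _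
    rwa [le_div_iff₀ (by linarith)] at h1
  obtain ⟨g, hg, hgε⟩ := energy_density F hF (δ ^ 2) (by positivity)
  have hL := EF_ne_lap hg
  set r := √(energy2 (fun z => F z - lap g z) (fun z => F z - lap g z)) with hr
  set b := √(energy2 (lap g) (lap g)) with hb
  have hb0 : 0 ≤ b := Real.sqrt_nonneg _
  have hr0 : 0 ≤ r := Real.sqrt_nonneg _
  have hrδ : r < δ := by
    rw [hr, Real.sqrt_lt' hδ0]
    exact hgε
  have h1 : a ≤ b + r := EF_tri_sub hF hL
  have h2 : b ≤ a + r := by
    have h := EF_tri_sub hL hF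
    rwa [EF_sub_comm (lap g) F] at h
  have ha2 : a ^ 2 = energy2 F F := Real.sq_sqrt (energy_nonneg F hF)
  have hb2 : b ^ 2 = energy2 (lap g) (lap g) := Real.sq_sqrt (energy_nonneg _ hL)
  refine ⟨g, hg, ?_, ?_⟩
  · nlinarith
  · rw [← ha2, ← hb2]
    have h3 : |a ^ 2 - b ^ 2| ≤ r * (2 * a + r) := by
      rw [abs_le]
      constructor <;> nlinarith
    have h4 : r * (2 * a + r) ≤ r * (2 * a + 1) := by
      apply mul_le_mul_of_nonneg_left _ hr0
      linarith
    have h5 : r * (2 * a + 1) < δ * (2 * a + 1) := by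
      apply mul_lt_mul_of_pos_right hrδ
      linarith
    linarith

end GF
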