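import Pool.Agent.Helper34.GF.N5
import Pool.Agent.Helper34.GF.EF

/-!
F2.  All neutral test functions.
-/

open MeasureTheory Filter Topology ProbabilityTheory

namespace GF

private theorem F2_okc {I : Type} (M : Fld I) (f : Pl → ℝ) :
    M.Ok (fun i => Real.cos (M.X f i)) :=
  M.ok_of_abs_le _ (fun _ => 1) (fun i => by
    rw [abs_one]
    exact Real.abs_cos_le_one _) (M.ok_const 1)

private theorem F2_const {I : Type} (M : Fld I) (c : ℝ) : M.L (fun _ => c) = c := by
  have h := M.L_smul c (fun _ => 1) (M.ok_const 1)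
  rw [M.L_one, mul_one] at h
  simpa using h

private theorem F2_half {I : Type} (M : Fld I) (f g : Pl → ℝ) (hf : Ne f) (hg : Ne g) (s : ℝ)
    (hs : 0 < s) :
    M.L (fun i => Real.cos (M.X f i)) ≤ M.L (fun i => Real.cos (M.X g i)) +
      (1 / (2 * s) * M.L (fun i => (M.X f i - M.X g i) ^ 2) + s / 2) := by
  have hd : M.Ok (fun i => M.X f i - M.X g i) := by
    have h1 := M.ok_add _ _ (M.ok_X f hf) (M.ok_mul _ _ (M.ok_const (-1)) (M.ok_X g hg))
    refine (by simpa [sub_eq_add_neg] using h1)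
  have hd2 : M.Ok (fun i => (M.X f i - M.X g i) ^ 2) := by
    have h1 := M.ok_mul _ _ hd hd
    simpa [pow_two] using h1
  have hd3 : M.Ok (fun i => 1 / (2 * s) * (M.X f i - M.X g i) ^ 2) :=
    M.ok_mul _ _ (M.ok_const _) hd2
  have h1 : M.L (fun i => Real.cos (M.X f i)) ≤
      M.L (fun i => Real.cos (M.X g i) + (1 / (2 * s) * (M.X f i - M.X g i) ^ 2 + s / 2)) := by
    refine M.L_mono _ _ (F2_okc M f)
      (M.ok_add _ _ (F2_okc M g) (M.ok_add _ _ hd3 (M.ok_const _))) fun i => ?_
    have h2 := (abs_le.1 (Real.abs_cos_sub_cos_le (M.X f i) (M.X g i))).2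
    have h3 : |M.X f i - M.X g i| ≤ 1 / (2 * s) * (M.X f i - M.X g i) ^ 2 + s / 2 := by
      obtain ⟨t, ht⟩ : ∃ t, t = |M.X f i - M.X g i| := ⟨_, rfl⟩
      rw [← sq_abs (M.X f i - M.X g i), ← ht]
      have h4 : 1 / (2 * s) * t ^ 2 + s / 2 - t = (t - s) ^ 2 / (2 * s) := by
        field_simp
        ring
      have h5 : 0 ≤ (t - s) ^ 2 / (2 * s) := by positivity
      linarith
    linarith
  rw [M.L_add _ _ (F2_okc M g) (M.ok_add _ _ hd3 (M.ok_const _)),
    M.L_add _ _ hd3 (M.ok_const _), M.L_smul _ _ hd2, F2_const] at h1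
  exact h1

private theorem F2_lip {I : Type} (M : Fld I) (f g : Pl → ℝ) (hf : Ne f) (hg : Ne g) (s : ℝ)
    (hs : 0 < s) :
    |M.L (fun i => Real.cos (M.X f i)) - M.L (fun i => Real.cos (M.X g i))| ≤
      1 / (2 * s) * M.L (fun i => (M.X f i - M.X g i) ^ 2) + s / 2 := by
  have h1 := F2_half M f g hf hg s hs
  have h2 := F2_half M g f hg hf s hs
  have h3 : (fun i => (M.X g i - M.X f i) ^ 2) = fun i => (M.X f i - M.X g i) ^ 2 := by
    funext i
    ring
  rw [h3] at h2
  rw [abs_le]
  constructor <;> linarith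

/-
For `g` from `energy_density'`: `|L cos (X F) - L cos (X (lap g))| ≤ L |X (F - lap g)| ≤ √(K energy2 (F - lap g) (F - lap g))`
(`|A| ≤ (A²/s + s)/2` for all `s > 0`, or Cauchy-Schwarz), `radial_gauss`, continuity of `exp`; `ε → 0`.
-/
theorem all_gauss {I : Type} (M : Fld I) (χ : ℝ → ℝ)
    (hχ : ∀ g, Cc g → M.L (fun i => Real.cos (M.X (lap g) i)) = χ (energy2 (lap g) (lap g)))
    (F : Pl → ℝ) (hF : Ne F) :
    M.L (fun i => Real.cos (M.X F i)) = Real.exp (-(M.K * energy2 F F / 2)) := by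
  have hex : ∀ n : ℕ, ∃ g, Cc g ∧
      energy2 (fun z => F z - lap g z) (fun z => F z - lap g z) < (1 / ((n : ℝ) + 1)) ^ 2 ∧
      |energy2 F F - energy2 (lap g) (lap g)| < (1 / ((n : ℝ) + 1)) ^ 2 := fun n =>
    energy_density' F hF _ (by positivity)
  choose g hg h1 h2 using hex
  have hne : ∀ n, Ne (lap (g n)) := fun n => energyFacts.ne_lap _ (hg n)
  have hs0 : Tendsto (fun n : ℕ => 1 / ((n : ℝ) + 1)) atTop (𝓝 0) :=
    tendsto_one_div_add_atTop_nhds_zero_nat
  have hK := M.K_nonneg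
  have ha : Tendsto (fun n => M.L (fun i => Real.cos (M.X (lap (g n)) i))) atTop
      (𝓝 (M.L (fun i => Real.cos (M.X F i)))) := by
    have hb : Tendsto (fun n : ℕ => (M.K + 1) / 2 * (1 / ((n : ℝ) + 1))) atTop (𝓝 0) := by
      have := hs0.const_mul ((M.K + 1) / 2)
      rwa [mul_zero] at this
    rw [tendsto_iff_dist_tendsto_zero]
    refine squeeze_zero (fun _ => dist_nonneg) (fun n => ?_) hb
    have hs : (0 : ℝ) < 1 / ((n : ℝ) + 1) := by positivity
    obtain ⟨s, hsd⟩ : ∃ s : ℝ, s = 1 / ((n : ℝ) + 1) := ⟨_, rfl⟩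
    have h1n := h1 n
    rw [← hsd] at hs h1n ⊢
    rw [dist_comm, Real.dist_eq]
    refine (F2_lip M F (lap (g n)) hF (hne n) s hs).trans ?_
    have hZ : (fun i => (M.X F i - M.X (lap (g n)) i) ^ 2) =
        fun i => M.X (fun z => F z - lap (g n) z) i * M.X (fun z => F z - lap (g n) z) i := by
      funext i
      have e1 := M.X_add F (fun z => (-1) * lap (g n) z) hF (N4a_ne_smul _ (hne n)) i
      have e2 := M.X_smul (-1) (lap (g n)) (hne n) i
      have e3 : (fun z => F z + (-1) * lap (g n) z) = fun z => F z - lap (g n) z := by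
        funext z
        ring
      rw [e3, e2] at e1
      rw [e1]
      ring
    have hN : Ne (fun z => F z - lap (g n) z) := by
      have := N4a_ne_add hF (N4a_ne_smul (-1) (hne n))
      have e3 : (fun z => F z + (-1) * lap (g n) z) = fun z => F z - lap (g n) z := by
        funext z
        ring
      rwa [e3] at this
    rw [hZ, M.two _ _ hN hN]
    have h3 : M.K * energy2 (fun z => F z - lap (g n) z) (fun z => F z - lap (g n) z) ≤
        M.K * s ^ 2 := mul_le_mul_of_nonneg_left h1n.le hK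
    calc 1 / (2 * s) * (M.K * energy2 (fun z => F z - lap (g n) z)
          (fun z => F z - lap (g n) z)) + s / 2
        ≤ 1 / (2 * s) * (M.K * s ^ 2) + s / 2 := by
          have h4 : (0 : ℝ) ≤ 1 / (2 * s) := by positivity
          have := mul_le_mul_of_nonneg_left h3 h4
          linarith
      _ = (M.K + 1) / 2 * s := by
          field_simp
          try ring
  have he : Tendsto (fun n => energy2 (lap (g n)) (lap (g n))) atTop (𝓝 (energy2 F F)) := by
    have hb : Tendsto (fun n : ℕ => (1 / ((n : ℝ) + 1)) ^ 2) atTop (𝓝 0) := by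
      have := hs0.pow 2
      rwa [zero_pow (by norm_num)] at this
    rw [tendsto_iff_dist_tendsto_zero]
    refine squeeze_zero (fun _ => dist_nonneg) (fun n => ?_) hb
    rw [dist_comm, Real.dist_eq]
    exact (h2 n).le
  have hr : ∀ n, M.L (fun i => Real.cos (M.X (lap (g n)) i)) =
      Real.exp (-(M.K * energy2 (lap (g n)) (lap (g n)) / 2)) := fun n =>
    radial_gauss M energyFacts χ hχ (g n) (hg n) (energy_nonneg _ (hne n))
  have hb : Tendsto (fun n => Real.exp (-(M.K * energy2 (lap (g n)) (lap (g n)) / 2))) atTop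
      (𝓝 (Real.exp (-(M.K * energy2 F F / 2)))) :=
    (Real.continuous_exp.tendsto _).comp (((he.const_mul M.K).div_const 2).neg)
  simp only [hr] at ha
  exact tendsto_nhds_unique ha hb

end GF
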