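import Pool.Agent.Helper34.GF.F5
import Pool.Agent.Helper58.KP.Fin

/-!
F6.  Delocalisation, and existence of the limits for a fixed mesh.
-/

open MeasureTheory Filter Topology ProbabilityTheory

namespace GF

open RP4 (V avg Om dom Deloc wt elen gfun Loc mu)
open GF.Lat

/-- the height function is delocalised -/
theorem deloc : Deloc := by
  by_contra hnd
  obtain ⟨K, a, hK, ha, hlog, -, -⟩ := KP.core_pos
  exact hK.ne' (K_zero hnd ha hlog)

/-- for a fixed mesh the law of the vector of pairings converges as `D ↑ ℤ²` -/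
theorem fixed_mesh {m : ℕ} (f : Fin m → Pl → ℝ) (hf : ∀ j, HasCompactSupport (f j)) {δ : ℝ} (hδ : 0 < δ)
    (φ : EuclideanSpace ℝ (Fin m) → ℝ) :
    ∃ c : ℝ, Tendsto (fun D => avg (Om D) (fun h => φ (YV f (δ, D) h))) dom (𝓝 c) := by
  classical
  choose s hs using fun j => supp_fin (hf j) hδ
  set t : Finset V := insert 0 (Finset.univ.biUnion s) with ht
  have hst : ∀ j, s j ⊆ t := fun j x hx =>
    Finset.mem_insert_of_mem (Finset.mem_biUnion.2 ⟨j, Finset.mem_univ j, hx⟩)
  have hloc : Loc t (fun h => φ (WithLp.toLp 2 fun j => ∑ x ∈ t, wt δ (f j) x * ((h x : ℝ) - h 0))) := by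
    intro h h' hh
    have e : (fun j => ∑ x ∈ t, wt δ (f j) x * ((h x : ℝ) - h 0)) =
        fun j => ∑ x ∈ t, wt δ (f j) x * ((h' x : ℝ) - h' 0) := by
      funext j
      refine Finset.sum_congr rfl fun x hx => ?_
      have h1 := hh x hx 0 (Finset.mem_insert_self _ _)
      have h2 : (h x : ℝ) - h 0 = (h' x : ℝ) - h' 0 := by exact_mod_cast h1
      rw [h2]
    simp only [e]
  refine ⟨_, (RP4.mu_tendsto deloc hloc).congr' ?_⟩
  rw [Filter.EventuallyEq, RP4.eventually_dom]
  refine ⟨t, fun D hD _ => ?_⟩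
  congr 1
  funext h
  unfold YV
  congr 2
  funext j
  rw [YY_eq_sum (fun x hx => hst j (hs j x hx)) hD]

end GF
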