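import Pool.Agent.Helper63.RP4.Fin
import Pool.Agent.Helper63.RP4.H4

/-!
Square ice: the two-point function of the height function on the whole lattice is
asymptotically a multiple of the logarithm of the Euclidean distance, and its scaling limit is
the covariance of the Gaussian free field of the plane.
-/

open Filter Topology MeasureTheory

namespace Pool.Agent.Helper34.GF.Cov0

/-- vertices of the square lattice -/
abbrev Vertex := ℤ × ℤ

/-- nearest-neighbour adjacency -/
def Adjacent (u v : Vertex) : Prop := |u.1 - v.1| + |u.2 - v.2| = 1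

/-- vertices of `D` having a neighbour outside `D` -/
def Boundary (D : Finset Vertex) : Set Vertex := {v | v ∈ D ∧ ∃ u, Adjacent u v ∧ u ∉ D}

/-- all boundary vertices are even -/
def EvenBoundary (D : Finset Vertex) : Prop := ∀ v ∈ Boundary D, Even (v.1 + v.2)

/-- `h` is a height function on `D` with zero boundary values, extended by zero outside `D` -/
structure IsHeight (D : Finset Vertex) (h : Vertex → ℤ) : Prop where
  step : ∀ u ∈ D, ∀ v ∈ D, Adjacent u v → |h u - h v| = 1
  even : ∀ v ∈ D, Even (v.1 + v.2) → Even (h v)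
  zero : ∀ v ∈ Boundary D, h v = 0
  off : ∀ v, v ∉ D → h v = 0

/-- mean for the uniform probability measure on the height functions on `D` with zero boundary
values -/
noncomputable def Mean (D : Finset Vertex) (F : (Vertex → ℤ) → ℝ) : ℝ :=
  (∑ᶠ h ∈ {h | IsHeight D h}, F h) / ({h | IsHeight D h}.ncard : ℝ)

/-- `F D` tends to `a` as the finite set `D` with even boundary increases to the whole lattice -/
def Limit (F : Finset Vertex → ℝ) (a : ℝ) : Prop :=
  ∀ ε > 0, ∃ D₀ : Finset Vertex, ∀ D : Finset Vertex, D₀ ⊆ D → EvenBoundary D → |F D - a| < ε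

/-- Euclidean length of a lattice vector -/
noncomputable def length (x : Vertex) : ℝ := Real.sqrt ((x.1 : ℝ) ^ 2 + (x.2 : ℝ) ^ 2)

/-- the pairing of the height function on the lattice of mesh `δ`, taken to vanish at the origin,
with the test function `f` -/
noncomputable def pairing (δ : ℝ) (f : ℝ × ℝ → ℝ) (h : Vertex → ℤ) : ℝ :=
  δ ^ 2 * ∑ᶠ x : Vertex, f (δ * x.1, δ * x.2) * ((h x : ℝ) - h 0)

/-- `∬ f(x) G(x - y) g(y) dx dy` with the Green function `G(z) = -(1/2π) log |z|` of the plane -/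
noncomputable def greenForm (f g : ℝ × ℝ → ℝ) : ℝ :=
  ∫ x : ℝ × ℝ, ∫ y : ℝ × ℝ,
    f x * (-(1 / (2 * Real.pi)) * Real.log (Real.sqrt ((x.1 - y.1) ^ 2 + (x.2 - y.2) ^ 2))) * g y

private lemma boundary_eq (D : Finset Vertex) : Boundary D = (RP4.bdry D : Set Vertex) := by
  ext v
  rw [Finset.mem_coe, RP4.mem_bdry]
  rfl

private lemma bdryPar_iff (D : Finset Vertex) : RP4.BdryPar D 0 ↔ EvenBoundary D := by
  unfold RP4.BdryPar EvenBoundary RP4.par
  rw [boundary_eq]
  simp

private lemma isHeight_iff {D : Finset Vertex} (hD : EvenBoundary D) (h : Vertex → ℤ) :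
    IsHeight D h ↔ h ∈ RP4.Om D := by
  rw [RP4.mem_Om]
  constructor
  · intro hh
    refine ⟨⟨hh.off, fun v hv => ?_, hh.step⟩, fun v hv => hh.zero v ?_⟩
    · rw [sub_zero]
      unfold RP4.par
      by_cases hev : Even (v.1 + v.2)
      · exact (hh.even v hv hev).sub hev
      · have hin : v ∉ Boundary D := fun hb => hev (hD v hb)
        have hu : (v.1 + 1, v.2) ∈ D := by
          by_contra hu
          exact hin ⟨hv, (v.1 + 1, v.2), by simp [Adjacent], hu⟩
        have h1 := hh.step _ hu v hv (by simp [Adjacent])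
        have h2 : Even (h (v.1 + 1, v.2)) := by
          refine hh.even _ hu ?_
          have : Odd (v.1 + v.2) := Int.not_even_iff_odd.1 hev
          have h3 : v.1 + 1 + v.2 = v.1 + v.2 + 1 := by ring
          simp only [h3]
          exact this.add_one
        have h3 : Odd (v.1 + v.2) := Int.not_even_iff_odd.1 hev
        have h4 : Odd (h v) := by
          rcases (abs_eq (by norm_num : (0 : ℤ) ≤ 1)).1 h1 with h5 | h5
          · have h6 : h v = h (v.1 + 1, v.2) - 1 := by linarith
            rw [h6]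
            exact h2.sub_odd odd_one
          · have h6 : h v = h (v.1 + 1, v.2) + 1 := by linarith
            rw [h6]
            exact h2.add_one
        exact h4.sub_odd h3
    · rw [boundary_eq]
      exact hv
  · rintro ⟨hh, hz⟩
    refine ⟨hh.step, fun v hv hev => ?_, fun v hv => hz v ?_, hh.off⟩
    · have h1 := hh.par v hv
      rw [sub_zero] at h1
      unfold RP4.par at h1
      have h2 := h1.add hev
      rwa [sub_add_cancel] at h2
    · rw [boundary_eq] at hv
      exact hv

private lemma mean_eq {D : Finset Vertex} (hD : EvenBoundary D) (F : (Vertex → ℤ) → ℝ) :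
    Mean D F = RP4.avg (RP4.Om D) F := by
  have h1 : {h | IsHeight D h} = (RP4.Om D : Set (Vertex → ℤ)) := by
    ext h
    rw [Set.mem_setOf_eq, Finset.mem_coe]
    exact isHeight_iff hD h
  unfold Mean RP4.avg
  rw [h1, finsum_mem_coe_finset, Set.ncard_coe_finset]

private lemma limit_of_tendsto {F : Finset Vertex → ℝ} {F' : Finset Vertex → ℝ} {a : ℝ}
    (h : Tendsto F' RP4.dom (𝓝 a)) (hF : ∀ D, EvenBoundary D → F D = F' D) : Limit F a := by
  intro ε hε
  have h1 := Metric.tendsto_nhds.1 h ε hε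
  rw [RP4.eventually_dom] at h1
  obtain ⟨D₀, hD₀⟩ := h1
  refine ⟨D₀, fun D hD hev => ?_⟩
  rw [hF D hev, ← Real.dist_eq]
  exact hD₀ D hD ((bdryPar_iff D).2 hev)

private lemma finite_support {f : ℝ × ℝ → ℝ} (hf : HasCompactSupport f) {δ : ℝ} (hδ : 0 < δ) :
    {x : Vertex | f (δ * x.1, δ * x.2) ≠ 0}.Finite := by
  obtain ⟨R, hR⟩ := hf.isCompact.isBounded.exists_norm_le
  obtain ⟨N, hN⟩ := exists_nat_ge (R / δ)
  have h1 : {x : Vertex | f (δ * x.1, δ * x.2) ≠ 0} ⊆
      ((Finset.Icc (-(N : ℤ)) N ×ˢ Finset.Icc (-(N : ℤ)) N : Finset Vertex) : Set Vertex) := by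
    intro x hx
    have h2 := hR _ (subset_tsupport f hx)
    rw [div_le_iff₀ hδ] at hN
    have h3 : |δ * (x.1 : ℝ)| ≤ R := (norm_fst_le _).trans h2
    have h4 : |δ * (x.2 : ℝ)| ≤ R := (norm_snd_le _).trans h2
    rw [abs_mul, abs_of_pos hδ] at h3 h4
    have h5 : |(x.1 : ℝ)| ≤ N := by nlinarith
    have h6 : |(x.2 : ℝ)| ≤ N := by nlinarith
    have h7 : |x.1| ≤ (N : ℤ) := by exact_mod_cast h5
    have h8 : |x.2| ≤ (N : ℤ) := by exact_mod_cast h6
    simp only [Finset.coe_product, Finset.coe_Icc, Set.mem_prod, Set.mem_Icc]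
    exact ⟨abs_le.1 h7, abs_le.1 h8⟩
  exact (Finset.finite_toSet _).subset h1

private lemma pairing_eq {δ : ℝ} {f : ℝ × ℝ → ℝ} {s : Finset Vertex}
    (hs : ∀ x : Vertex, f (δ * x.1, δ * x.2) ≠ 0 → x ∈ s) (h : Vertex → ℤ) :
    pairing δ f h = ∑ x ∈ s, RP4.wt δ f x * ((h x : ℝ) - h 0) := by
  unfold pairing
  rw [finsum_eq_sum_of_support_subset (s := s), Finset.mul_sum]
  · refine Finset.sum_congr rfl fun x _ => ?_
    unfold RP4.wt
    ring
  · intro x hx
    rw [Function.mem_support] at hx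
    exact hs x (left_ne_zero_of_mul hx)

private lemma green_eq (f g : ℝ × ℝ → ℝ) : greenForm f g = RP4.energy2 f g := by
  unfold greenForm RP4.energy2
  refine integral_congr_ae (Eventually.of_forall fun x => ?_)
  refine integral_congr_ae (Eventually.of_forall fun y => ?_)
  ring

/--
Square ice with zero boundary values on finite sets `D` with even boundary: there is `κ ≥ 0` with
the following properties.

* The mean of `(h x - h y) ^ 2` has a limit `a x y` as `D` increases to the whole lattice, and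
  `a x y / log |x - y|` tends to `κ² / π` as `|x - y|` tends to infinity.
* The covariances of the pairings with test functions of integral zero converge, first as `D`
  increases to the whole lattice, then as the mesh `δ` tends to zero, to those of `κ` times the
  Gaussian free field of the plane.
* For every `ε > 0` the variance at `x` is at most `(κ² / π + ε) log |x - v| + C` for all `D` with
  even boundary and all boundary vertices `v`.
-/
theorem result : ∃ κ : ℝ, 0 ≤ κ ∧
    (∃ a : Vertex → Vertex → ℝ,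
      (∀ x y, Limit (fun D => Mean D fun h => ((h x : ℝ) - h y) ^ 2) (a x y)) ∧
      ∀ ε > 0, ∃ R > 1, ∀ x y : Vertex, R ≤ length (x - y) →
        |a x y / Real.log (length (x - y)) - κ ^ 2 / Real.pi| ≤ ε) ∧
    (∀ f g : ℝ × ℝ → ℝ, ContDiff ℝ 1 f → HasCompactSupport f → ∫ y, f y = 0 →
      ContDiff ℝ 1 g → HasCompactSupport g → ∫ y, g y = 0 →
      ∃ c : ℝ → ℝ, (∀ δ > 0, Limit (fun D => Mean D fun h => pairing δ f h * pairing δ g h) (c δ)) ∧
        Tendsto c (𝓝[>] 0) (𝓝 (κ ^ 2 * greenForm f g))) ∧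
    (∀ ε > 0, ∃ C : ℝ, ∀ D : Finset Vertex, EvenBoundary D → ∀ x ∈ D, ∀ v ∈ Boundary D,
      Mean D (fun h => (h x : ℝ) ^ 2) ≤
        (κ ^ 2 / Real.pi + ε) * Real.log (length (x - v)) + C) := by
  obtain ⟨K, a, hK, ha, hlog, hf, hone⟩ := RP4.core_theorem
  have hsq : Real.sqrt K ^ 2 = K := Real.sq_sqrt hK
  have ha' : ∀ x y, Tendsto (fun D => RP4.avg (RP4.Om D) (fun h => ((h x : ℝ) - h y) ^ 2))
      RP4.dom (𝓝 (a x y)) := by
    intro x y
    refine (ha x y).congr fun D => ?_
    congr 1
    funext h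
    push_cast
    ring
  refine ⟨Real.sqrt K, Real.sqrt_nonneg K, ⟨a, fun x y => ?_, fun ε hε => ?_⟩, ?_, ?_⟩
  · exact limit_of_tendsto (ha' x y) fun D hD => mean_eq hD _
  · obtain ⟨R, hR, h⟩ := hlog ε hε
    refine ⟨R, hR, fun x y hxy => ?_⟩
    rw [hsq]
    exact h x y hxy
  · intro f g hf1 hfc hf0 hg1 hgc hg0
    -- the limits for a fixed mesh
    set S : ℝ → Finset Vertex := fun δ =>
      if h : 0 < δ then (finite_support hfc h).toFinset ∪ (finite_support hgc h).toFinset else ∅
      with hS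
    have hSf : ∀ δ > 0, ∀ x : Vertex, f (δ * x.1, δ * x.2) ≠ 0 → x ∈ S δ := by
      intro δ hδ x hx
      simp only [hS, dif_pos hδ, Finset.mem_union, Set.Finite.mem_toFinset, Set.mem_setOf_eq]
      exact Or.inl hx
    have hSg : ∀ δ > 0, ∀ x : Vertex, g (δ * x.1, δ * x.2) ≠ 0 → x ∈ S δ := by
      intro δ hδ x hx
      simp only [hS, dif_pos hδ, Finset.mem_union, Set.Finite.mem_toFinset, Set.mem_setOf_eq]
      exact Or.inr hx
    set Q : (ℝ × ℝ → ℝ) → ℝ → ℝ := fun u δ =>
      ∑ x ∈ S δ, ∑ y ∈ S δ, RP4.wt δ u x * RP4.wt δ u y * ((a x 0 + a y 0 - a x y) / 2) with hQ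
    have hQlim : ∀ u : ℝ × ℝ → ℝ, ContDiff ℝ 1 u → HasCompactSupport u → ∫ y, u y = 0 →
        (∀ δ > 0, ∀ x : Vertex, u (δ * x.1, δ * x.2) ≠ 0 → x ∈ S δ) →
        Tendsto (Q u) (𝓝[>] 0) (𝓝 (K * RP4.energy u)) := by
      intro u h1 h2 h3 h4
      rw [Metric.tendsto_nhdsWithin_nhds]
      intro ε hε
      obtain ⟨δ₀, hδ₀, h5⟩ := hf u h1 h2 h3 (ε / 2) (by linarith)
      refine ⟨δ₀, hδ₀, fun {δ} hδ hd => ?_⟩
      have h6 : 0 < δ := hδ
      rw [Real.dist_eq, sub_zero, abs_of_pos h6] at hd
      rw [Real.dist_eq]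
      have h7 := h5 δ h6 hd (S δ) (h4 δ h6)
      simp only [hQ]
      linarith
    have hfg1 : ContDiff ℝ 1 (fun y => f y + g y) := hf1.add hg1
    have hfg2 : ContDiff ℝ 1 (fun y => f y - g y) := hf1.sub hg1
    have hfgc1 : HasCompactSupport (fun y => f y + g y) := hfc.add hgc
    have hfgc2 : HasCompactSupport (fun y => f y - g y) := by
      have h := hfc.add hgc.neg
      rw [← sub_eq_add_neg] at h
      exact h
    have hfi := hf1.continuous.integrable_of_hasCompactSupport hfc (μ := volume)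
    have hgi := hg1.continuous.integrable_of_hasCompactSupport hgc (μ := volume)
    have hfg01 : ∫ y, (f y + g y) = 0 := by
      rw [integral_add hfi hgi, hf0, hg0, add_zero]
    have hfg02 : ∫ y, (f y - g y) = 0 := by
      rw [integral_sub hfi hgi, hf0, hg0, sub_zero]
    have hS1 : ∀ δ > 0, ∀ x : Vertex, (fun y => f y + g y) (δ * x.1, δ * x.2) ≠ 0 → x ∈ S δ := by
      intro δ hδ x hx
      by_cases h1 : f (δ * x.1, δ * x.2) = 0
      · refine hSg δ hδ x fun h2 => hx ?_
        simp only [h1, h2, add_zero]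
      · exact hSf δ hδ x h1
    have hS2 : ∀ δ > 0, ∀ x : Vertex, (fun y => f y - g y) (δ * x.1, δ * x.2) ≠ 0 → x ∈ S δ := by
      intro δ hδ x hx
      by_cases h1 : f (δ * x.1, δ * x.2) = 0
      · refine hSg δ hδ x fun h2 => hx ?_
        simp only [h1, h2, sub_zero]
      · exact hSf δ hδ x h1
    refine ⟨fun δ => (Q (fun y => f y + g y) δ - Q (fun y => f y - g y) δ) / 4,
      fun δ hδ => ?_, ?_⟩
    · have h1 := RP4.pair_tendsto ha (RP4.wt δ (fun y => f y + g y))
        (RP4.wt δ (fun y => f y + g y)) (S δ) (S δ)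
      have h2 := RP4.pair_tendsto ha (RP4.wt δ (fun y => f y - g y))
        (RP4.wt δ (fun y => f y - g y)) (S δ) (S δ)
      refine limit_of_tendsto ((h1.sub h2).div_const 4) fun D hD => ?_
      rw [mean_eq hD]
      have h3 : (fun h : Vertex → ℤ => pairing δ f h * pairing δ g h) = fun h =>
          (1 / 4) * ((∑ x ∈ S δ, RP4.wt δ (fun y => f y + g y) x * ((h x : ℝ) - h 0)) *
            ∑ x ∈ S δ, RP4.wt δ (fun y => f y + g y) x * ((h x : ℝ) - h 0)) +
          (-(1 / 4)) * ((∑ x ∈ S δ, RP4.wt δ (fun y => f y - g y) x * ((h x : ℝ) - h 0)) *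
            ∑ x ∈ S δ, RP4.wt δ (fun y => f y - g y) x * ((h x : ℝ) - h 0)) := by
        funext h
        rw [pairing_eq (hSf δ hδ) h, pairing_eq (hSg δ hδ) h]
        have h4 : ∀ x, RP4.wt δ (fun y => f y + g y) x = RP4.wt δ f x + RP4.wt δ g x := by
          intro x
          unfold RP4.wt
          ring
        have h5 : ∀ x, RP4.wt δ (fun y => f y - g y) x = RP4.wt δ f x - RP4.wt δ g x := by
          intro x
          unfold RP4.wt
          ring
        simp only [h4, h5, add_mul, sub_mul, Finset.sum_add_distrib, Finset.sum_sub_distrib]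
        ring
      rw [h3, RP4.avg_add, RP4.avg_const_mul, RP4.avg_const_mul]
      ring
    · have h1 := hQlim _ hfg1 hfgc1 hfg01 hS1
      have h2 := hQlim _ hfg2 hfgc2 hfg02 hS2
      have h3 := (h1.sub h2).div_const 4
      have h4 : (K * RP4.energy (fun y => f y + g y) - K * RP4.energy (fun y => f y - g y)) / 4 =
          Real.sqrt K ^ 2 * greenForm f g := by
        rw [hsq, green_eq, ← mul_sub,
          RP4.energy_polar f g hf1.continuous hfc hg1.continuous hgc]
        ring
      rw [h4] at h3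
      exact h3
  · intro ε hε
    obtain ⟨C, hC⟩ := hone ε hε
    refine ⟨C, fun D hD x hx v hv => ?_⟩
    rw [mean_eq hD, hsq]
    rw [boundary_eq] at hv
    exact hC D ((bdryPar_iff D).2 hD) x hx v hv

end Pool.Agent.Helper34.GF.Cov0
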