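import Pool.Agent.Helper34.GF.N1b

/-!
N1c.  The law of finitely many observables.
-/

open MeasureTheory Filter Topology ProbabilityTheory

namespace GF

private noncomputable def N1c_eta {n : ℕ} (R : ℕ) (x : EuclideanSpace ℝ (Fin n)) : ℝ :=
  max 0 (min 1 ((R : ℝ) + 1 - ‖x‖))

private lemma N1c_eta_cont {n : ℕ} (R : ℕ) :
    Continuous (fun x : EuclideanSpace ℝ (Fin n) => N1c_eta R x) :=
  continuous_const.max (continuous_const.min (continuous_const.sub continuous_norm))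

private lemma N1c_eta_nonneg {n : ℕ} (R : ℕ) (x : EuclideanSpace ℝ (Fin n)) : 0 ≤ N1c_eta R x :=
  le_max_left _ _

private lemma N1c_eta_le_one {n : ℕ} (R : ℕ) (x : EuclideanSpace ℝ (Fin n)) : N1c_eta R x ≤ 1 :=
  max_le zero_le_one (min_le_left _ _)

private lemma N1c_eta_one {n : ℕ} (R : ℕ) (x : EuclideanSpace ℝ (Fin n)) (h : ‖x‖ ≤ R) :
    N1c_eta R x = 1 := by
  unfold N1c_eta
  rw [min_eq_left (by linarith), max_eq_right zero_le_one]

private lemma N1c_eta_zero {n : ℕ} (R : ℕ) (x : EuclideanSpace ℝ (Fin n)) (h : (R : ℝ) + 1 ≤ ‖x‖) :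
    N1c_eta R x = 0 := by
  unfold N1c_eta
  exact max_eq_left ((min_le_right _ _).trans (by linarith))

private lemma N1c_supp {n : ℕ} (R : ℕ) (φ : EuclideanSpace ℝ (Fin n) → ℝ) :
    HasCompactSupport (fun x => φ x * N1c_eta R x) := by
  refine HasCompactSupport.intro (isCompact_closedBall (0 : EuclideanSpace ℝ (Fin n)) ((R : ℝ) + 1))
    fun x hx => ?_
  rw [mem_closedBall_zero_iff, not_le] at hx
  rw [N1c_eta_zero R x hx.le, mul_zero]

private lemma N1c_dist {I : Type} (M : Lim I) (A B G : I → ℝ) (hA : M.Ok A) (hB : M.Ok B)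
    (hG : M.Ok G) (h : ∀ i, |A i - B i| ≤ G i) : |M.L A - M.L B| ≤ M.L G := by
  have h1 : M.L A ≤ M.L (fun i => B i + G i) :=
    M.L_mono _ _ hA (M.ok_add _ _ hB hG) fun i => by
      have := (abs_le.1 (h i)).2
      linarith
  have h2 : M.L B ≤ M.L (fun i => A i + G i) :=
    M.L_mono _ _ hB (M.ok_add _ _ hA hG) fun i => by
      have := (abs_le.1 (h i)).1
      linarith
  rw [M.L_add _ _ hB hG] at h1
  rw [M.L_add _ _ hA hG] at h2
  rw [abs_le]
  constructor <;> linarith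

private lemma N1c_growth_mul {n : ℕ} (R : ℕ) (φ : EuclideanSpace ℝ (Fin n) → ℝ) (C : ℝ) (k : ℕ)
    (hφ : ∀ x, |φ x| ≤ C * (1 + ‖x‖) ^ k) :
    ∀ x, |φ x * N1c_eta R x| ≤ C * (1 + ‖x‖) ^ k := by
  intro x
  rw [abs_mul, abs_of_nonneg (N1c_eta_nonneg R x)]
  calc |φ x| * N1c_eta R x ≤ |φ x| * 1 :=
        mul_le_mul_of_nonneg_left (N1c_eta_le_one R x) (abs_nonneg _)
    _ = |φ x| := mul_one _
    _ ≤ _ := hφ x

private lemma N1c_tendsto {I : Type} (M : Lim I) {n : ℕ} (Y : Fin n → I → ℝ)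
    (hY : ∀ j, M.Ok (Y j)) (φ : EuclideanSpace ℝ (Fin n) → ℝ) (C : ℝ) (k : ℕ)
    (hφ : ∀ x, |φ x| ≤ C * (1 + ‖x‖) ^ k) :
    Tendsto (fun R : ℕ => M.L (fun i => φ (vec Y i) * N1c_eta R (vec Y i))) atTop
      (𝓝 (M.L (fun i => φ (vec Y i)))) := by
  have hC : 0 ≤ C := by
    have h := hφ 0
    simp only [norm_zero, add_zero, one_pow, mul_one] at h
    exact (abs_nonneg _).trans h
  have hGr : ∀ x : EuclideanSpace ℝ (Fin n), |(1 + ‖x‖) ^ (k + 1)| ≤ 1 * (1 + ‖x‖) ^ (k + 1) := by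
    intro x
    rw [one_mul, abs_of_nonneg (by positivity)]
  have hG : M.Ok (fun i => (1 + ‖vec Y i‖) ^ (k + 1)) :=
    ok_growth M Y hY (fun x => (1 + ‖x‖) ^ (k + 1)) 1 (k + 1) hGr
  have hφok : M.Ok (fun i => φ (vec Y i)) := ok_growth M Y hY φ C k hφ
  have hlim : Tendsto (fun R : ℕ => C / (R : ℝ) * M.L (fun i => (1 + ‖vec Y i‖) ^ (k + 1))) atTop
      (𝓝 0) := by
    have h1 : Tendsto (fun R : ℕ => C / (R : ℝ)) atTop (𝓝 0) :=
      tendsto_const_div_atTop_nhds_zero_nat C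
    simpa using h1.mul_const (M.L (fun i => (1 + ‖vec Y i‖) ^ (k + 1)))
  rw [tendsto_iff_dist_tendsto_zero]
  refine squeeze_zero' (Eventually.of_forall fun R => dist_nonneg) ?_ hlim
  filter_upwards [eventually_ge_atTop 1] with R hR
  have hR0 : (0 : ℝ) < R := by exact_mod_cast hR
  rw [Real.dist_eq, ← M.L_smul _ _ hG]
  refine N1c_dist M _ _ _ (ok_growth M Y hY _ C k (N1c_growth_mul R φ C k hφ)) hφok
    (M.ok_mul _ _ (M.ok_const _) hG) fun i => ?_
  have hx0 : 0 ≤ ‖vec Y i‖ := norm_nonneg _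
  have hpos : 0 ≤ C / (R : ℝ) * (1 + ‖vec Y i‖) ^ (k + 1) := by positivity
  rcases le_or_gt ‖vec Y i‖ (R : ℝ) with hle | hgt
  · rw [N1c_eta_one R _ hle, mul_one, sub_self, abs_zero]
    exact hpos
  · have h1 : |φ (vec Y i) * N1c_eta R (vec Y i) - φ (vec Y i)| ≤ |φ (vec Y i)| := by
      have h2 : φ (vec Y i) * N1c_eta R (vec Y i) - φ (vec Y i)
          = φ (vec Y i) * (N1c_eta R (vec Y i) - 1) := by ring
      rw [h2, abs_mul]
      have h3 : |N1c_eta R (vec Y i) - 1| ≤ 1 := by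
        rw [abs_le]
        have h4 := N1c_eta_nonneg R (vec Y i)
        have h5 := N1c_eta_le_one R (vec Y i)
        constructor <;> linarith
      calc |φ (vec Y i)| * |N1c_eta R (vec Y i) - 1| ≤ |φ (vec Y i)| * 1 :=
            mul_le_mul_of_nonneg_left h3 (abs_nonneg _)
        _ = _ := mul_one _
    refine h1.trans ((hφ _).trans ?_)
    have h6 : (1 : ℝ) ≤ (1 + ‖vec Y i‖) / R := by
      rw [le_div_iff₀ hR0]
      linarith
    have h7 : 0 ≤ C * (1 + ‖vec Y i‖) ^ k := by positivity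
    calc C * (1 + ‖vec Y i‖) ^ k = C * (1 + ‖vec Y i‖) ^ k * 1 := (mul_one _).symm
      _ ≤ C * (1 + ‖vec Y i‖) ^ k * ((1 + ‖vec Y i‖) / R) := mul_le_mul_of_nonneg_left h6 h7
      _ = C / (R : ℝ) * (1 + ‖vec Y i‖) ^ (k + 1) := by
          rw [pow_succ]
          ring

private lemma N1c_int {I : Type} (M : Lim I) {n : ℕ} (Y : Fin n → I → ℝ)
    (hY : ∀ j, M.Ok (Y j)) (ν : Measure (EuclideanSpace ℝ (Fin n))) (hν : ν Set.univ ≤ 1)
    (hL : ∀ φ : EuclideanSpace ℝ (Fin n) → ℝ, Continuous φ → HasCompactSupport φ →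
        M.L (fun i => φ (vec Y i)) = ∫ x, φ x ∂ν) (k : ℕ) :
    Integrable (fun x : EuclideanSpace ℝ (Fin n) => (1 + ‖x‖) ^ k) ν := by
  have : IsFiniteMeasure ν := ⟨lt_of_le_of_lt hν ENNReal.one_lt_top⟩
  have hc : Continuous (fun x : EuclideanSpace ℝ (Fin n) => (1 + ‖x‖) ^ k) :=
    (continuous_const.add continuous_norm).pow k
  have hgr : ∀ x : EuclideanSpace ℝ (Fin n), |(1 + ‖x‖) ^ k| ≤ 1 * (1 + ‖x‖) ^ k := by
    intro x
    rw [one_mul, abs_of_nonneg (by positivity)]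
  have hok : M.Ok (fun i => (1 + ‖vec Y i‖) ^ k) :=
    ok_growth M Y hY (fun x => (1 + ‖x‖) ^ k) 1 k hgr
  refine ⟨hc.aestronglyMeasurable, ?_⟩
  have hbd : ∀ R : ℕ, ∫⁻ x, ENNReal.ofReal ((1 + ‖x‖) ^ k * N1c_eta R x) ∂ν
      ≤ ENNReal.ofReal (M.L (fun i => (1 + ‖vec Y i‖) ^ k)) := by
    intro R
    have hcR : Continuous (fun x : EuclideanSpace ℝ (Fin n) => (1 + ‖x‖) ^ k * N1c_eta R x) :=
      hc.mul (N1c_eta_cont R)
    have hint : Integrable (fun x : EuclideanSpace ℝ (Fin n) => (1 + ‖x‖) ^ k * N1c_eta R x) ν :=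
      hcR.integrable_of_hasCompactSupport (N1c_supp R _)
    rw [← ofReal_integral_eq_lintegral_ofReal hint (Eventually.of_forall fun x =>
      mul_nonneg (by positivity) (N1c_eta_nonneg R x)), ← hL _ hcR (N1c_supp R _)]
    refine ENNReal.ofReal_le_ofReal (M.L_mono _ _
      (ok_growth M Y hY _ 1 k (N1c_growth_mul R _ 1 k hgr)) hok fun i => ?_)
    exact mul_le_of_le_one_right (by positivity) (N1c_eta_le_one R _)
  have hpt : ∀ x : EuclideanSpace ℝ (Fin n),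
      Tendsto (fun R : ℕ => ENNReal.ofReal ((1 + ‖x‖) ^ k * N1c_eta R x)) atTop
        (𝓝 (ENNReal.ofReal ((1 + ‖x‖) ^ k))) := by
    intro x
    refine tendsto_const_nhds.congr' ?_
    obtain ⟨N, hN⟩ := exists_nat_ge ‖x‖
    filter_upwards [eventually_ge_atTop N] with R hR
    have hRN : ‖x‖ ≤ (R : ℝ) := hN.trans (by exact_mod_cast hR)
    rw [N1c_eta_one R x hRN, mul_one]
  have hle : ∫⁻ x, ENNReal.ofReal ((1 + ‖x‖) ^ k) ∂ν
      ≤ ENNReal.ofReal (M.L (fun i => (1 + ‖vec Y i‖) ^ k)) := by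
    calc ∫⁻ x, ENNReal.ofReal ((1 + ‖x‖) ^ k) ∂ν
        = ∫⁻ x, liminf (fun R : ℕ => ENNReal.ofReal ((1 + ‖x‖) ^ k * N1c_eta R x)) atTop ∂ν := by
          refine lintegral_congr fun x => ?_
          exact (hpt x).liminf_eq.symm
      _ ≤ liminf (fun R : ℕ => ∫⁻ x, ENNReal.ofReal ((1 + ‖x‖) ^ k * N1c_eta R x) ∂ν) atTop :=
          lintegral_liminf_le fun R =>
            (hc.mul (N1c_eta_cont R)).measurable.ennreal_ofReal
      _ ≤ ENNReal.ofReal (M.L (fun i => (1 + ‖vec Y i‖) ^ k)) :=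
          liminf_le_of_le (by isBoundedDefault) fun b hb => by
            obtain ⟨R, hR⟩ := hb.exists
            exact hR.trans (hbd R)
  rw [hasFiniteIntegral_iff_ofReal (Eventually.of_forall fun x => by positivity)]
  exact lt_of_le_of_lt hle ENNReal.ofReal_lt_top

/-
cutoffs `η R x = max 0 (min 1 (R + 1 - ‖x‖))`; for `φ` continuous with `|φ| ≤ C (1+‖x‖)^k`: `|φ| (1 - η R) ≤ C (1+‖x‖)^(k+1) / R` (`‖x‖ ≥ R` where `η R ≠ 1`),
so `M.L (φ η_R (vec Y)) → M.L (φ (vec Y))` as `R → ∞`.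
`ν`-side: first integrability of `(1+‖x‖)^k`: `∫ (1+‖x‖)^k η R dν = M.L (..) ≤ M.L ((1+‖vec Y‖)^k)` for all `R`; monotone convergence (`lintegral_iSup`, or
`integrable_of_tendsto..`) ; then dominated convergence gives `∫ φ η R dν → ∫ φ dν`.
`φ = 1` gives `ν univ = 1`.
-/
theorem exists_law {I : Type} (M : Lim I) {n : ℕ} (Y : Fin n → I → ℝ) (hY : ∀ j, M.Ok (Y j)) :
    ∃ ν : Measure (EuclideanSpace ℝ (Fin n)), IsProbabilityMeasure ν ∧
      ∀ φ : EuclideanSpace ℝ (Fin n) → ℝ, Continuous φ →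
        (∃ (C : ℝ) (k : ℕ), ∀ x, |φ x| ≤ C * (1 + ‖x‖) ^ k) →
        Integrable φ ν ∧ M.L (fun i => φ (vec Y i)) = ∫ x, φ x ∂ν := by
  obtain ⟨ν, hν, hL⟩ := law_Cc M Y hY
  have : IsFiniteMeasure ν := ⟨lt_of_le_of_lt hν ENNReal.one_lt_top⟩
  have main : ∀ φ : EuclideanSpace ℝ (Fin n) → ℝ, Continuous φ →
        (∃ (C : ℝ) (k : ℕ), ∀ x, |φ x| ≤ C * (1 + ‖x‖) ^ k) →
        Integrable φ ν ∧ M.L (fun i => φ (vec Y i)) = ∫ x, φ x ∂ν := by
    rintro φ hφc ⟨C, k, hφ⟩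
    have hbint : Integrable (fun x : EuclideanSpace ℝ (Fin n) => C * (1 + ‖x‖) ^ k) ν :=
      (N1c_int M Y hY ν hν hL k).const_mul C
    have hint : Integrable φ ν :=
      hbint.mono' hφc.aestronglyMeasurable (Eventually.of_forall fun x => by
        rw [Real.norm_eq_abs]
        exact hφ x)
    refine ⟨hint, ?_⟩
    have h1 := N1c_tendsto M Y hY φ C k hφ
    have h2 : Tendsto (fun R : ℕ => ∫ x, φ x * N1c_eta R x ∂ν) atTop (𝓝 (∫ x, φ x ∂ν)) := by
      refine tendsto_integral_of_dominated_convergence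
        (fun x : EuclideanSpace ℝ (Fin n) => C * (1 + ‖x‖) ^ k)
        (fun R => (hφc.mul (N1c_eta_cont R)).aestronglyMeasurable) hbint
        (fun R => Eventually.of_forall fun x => ?_) (Eventually.of_forall fun x => ?_)
      · rw [Real.norm_eq_abs]
        exact N1c_growth_mul R φ C k hφ x
      · refine tendsto_const_nhds.congr' ?_
        obtain ⟨N, hN⟩ := exists_nat_ge ‖x‖
        filter_upwards [eventually_ge_atTop N] with R hR
        have hRN : ‖x‖ ≤ (R : ℝ) := hN.trans (by exact_mod_cast hR)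
        rw [N1c_eta_one R x hRN, mul_one]
    have h3 : (fun R : ℕ => M.L (fun i => φ (vec Y i) * N1c_eta R (vec Y i)))
        = fun R : ℕ => ∫ x, φ x * N1c_eta R x ∂ν := by
      funext R
      exact hL (fun x => φ x * N1c_eta R x) (hφc.mul (N1c_eta_cont R)) (N1c_supp R φ)
    rw [h3] at h1
    exact tendsto_nhds_unique h1 h2
  refine ⟨ν, ⟨?_⟩, main⟩
  have h1 := (main (fun _ => 1) continuous_const ⟨1, 0, fun x => by simp⟩).2
  rw [M.L_one] at h1
  simp only [integral_const, smul_eq_mul, mul_one] at h1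
  have h2 : (ν Set.univ).toReal = 1 := h1.symm
  rw [← ENNReal.toReal_one] at h2
  exact (ENNReal.toReal_eq_toReal_iff' (measure_ne_top ν _) ENNReal.one_ne_top).1 h2

end GF
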