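import Pool.Agent.Helper34.GF.N4a
import Pool.Agent.Helper34.GF.N1c

/-!
F1.  Joint laws of finitely many test functions.
-/

open MeasureTheory Filter Topology ProbabilityTheory

namespace GF

/-- the covariance matrix -/
noncomputable def gram {m : ℕ} (K : ℝ) (f : Fin m → Pl → ℝ) : Matrix (Fin m) (Fin m) ℝ :=
  Matrix.of fun i j => K * energy2 (f i) (f j)

/-- bilinearity (induction over finsets) -/
theorem energy_comb {m : ℕ} (E : EnergyFacts) (f : Fin m → Pl → ℝ) (hf : ∀ j, Cc (f j)) (t : Fin m → ℝ) :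
    Cc (fun z => ∑ j, t j * f j z) ∧
      energy2 (fun z => ∑ j, t j * f j z) (fun z => ∑ j, t j * f j z) = ∑ i, ∑ j, t i * t j * energy2 (f i) (f j) := by
  have hS : Cc (fun z => ∑ j, t j * f j z) := N4a_cc_sum f hf t _
  refine ⟨hS, ?_⟩
  rw [N4a_energy_sum E f hf t _ hS Finset.univ]
  refine Finset.sum_congr rfl fun i _ => ?_
  rw [E.symm _ _ (hf i) hS, N4a_energy_sum E f hf t _ (hf i) Finset.univ, Finset.mul_sum]
  refine Finset.sum_congr rfl fun j _ => ?_
  rw [E.symm _ _ (hf j) (hf i), mul_assoc]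

/-- `gram` is positive semidefinite: `K * energy2 F F = L (X F)² ≥ 0` for `F = ∑ t_j f_j` -/
theorem gram_psd {I : Type} (M : Fld I) (E : EnergyFacts) {m : ℕ} (f : Fin m → Pl → ℝ) (hf : ∀ j, Ne (f j)) :
    (gram M.K f).PosSemidef := by
  refine ⟨?_, fun x => ?_⟩
  · ext i j
    simp only [Matrix.conjTranspose_apply, gram, Matrix.of_apply, star_trivial]
    rw [E.symm _ _ (hf j).toCc (hf i).toCc]
  · have hF : Ne (fun z => ∑ j, x j * f j z) := N4a_ne_sum f hf (fun j => x j) _
    have h0 : M.L (fun _ => 0) = 0 := by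
      have h := M.L_smul 0 (fun _ => 1) (M.ok_const 1)
      simpa using h
    have h1 : 0 ≤ M.L (fun i => M.X (fun z => ∑ j, x j * f j z) i * M.X (fun z => ∑ j, x j * f j z) i) := by
      rw [← h0]
      exact M.L_mono _ _ (M.ok_const 0) (M.ok_mul _ _ (M.ok_X _ hF) (M.ok_X _ hF))
        (fun i => mul_self_nonneg _)
    rw [M.two _ _ hF hF, (energy_comb E f (fun j => (hf j).toCc) (fun j => x j)).2] at h1
    rw [Finsupp.sum_fintype _ _ (fun i => by simp)]
    refine h1.trans (le_of_eq ?_)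
    rw [Finset.mul_sum]
    refine Finset.sum_congr rfl fun i _ => ?_
    rw [Finsupp.sum_fintype _ _ (fun j => by simp), Finset.mul_sum]
    refine Finset.sum_congr rfl fun j _ => ?_
    simp only [gram, Matrix.of_apply, star_trivial]
    ring

private lemma F1b_sum {I : Type} (M : Lim I) {m : ℕ} (A : Fin m → I → ℝ) (hA : ∀ j, M.Ok (A j))
    (s : Finset (Fin m)) :
    M.Ok (fun i => ∑ j ∈ s, A j i) ∧ M.L (fun i => ∑ j ∈ s, A j i) = ∑ j ∈ s, M.L (A j) := by
  classical
  induction s using Finset.induction_on with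
  | empty =>
    have h0 : M.L (fun _ => 0) = 0 := by
      have h := M.L_smul 0 (fun _ => 1) (M.ok_const 1)
      simpa using h
    simpa using ⟨M.ok_const 0, h0⟩
  | insert a s ha ih =>
    simp only [Finset.sum_insert ha]
    exact ⟨M.ok_add _ _ (hA a) ih.1, by rw [M.L_add _ _ (hA a) ih.1, ih.2]⟩

private lemma F1b_close {I : Type} (M : Lim I) (G H D : I → ℝ) (hG : M.Ok G) (hH : M.Ok H)
    (hD : M.Ok D) (hle : ∀ i, |G i - H i| ≤ |D i|) (h0 : M.L (fun i => D i * D i) ≤ 0) :
    M.L G ≤ M.L H := by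
  refine le_of_forall_pos_le_add fun ε hε => ?_
  have hDD : M.Ok (fun i => D i * D i) := M.ok_mul _ _ hD hD
  have hDc : M.Ok (fun i => 1 / (4 * ε) * (D i * D i)) := M.ok_mul _ _ (M.ok_const _) hDD
  have hR : M.Ok (fun i => 1 / (4 * ε) * (D i * D i) + ε) := M.ok_add _ _ hDc (M.ok_const ε)
  have h1 : M.L G ≤ M.L (fun i => H i + (1 / (4 * ε) * (D i * D i) + ε)) := by
    refine M.L_mono _ _ hG (M.ok_add _ _ hH hR) fun i => ?_
    have h2 := (abs_le.1 (hle i)).2
    have h3 : |D i| ≤ 1 / (4 * ε) * (D i * D i) + ε := by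
      have h4 : 0 ≤ (|D i| - 2 * ε) ^ 2 := sq_nonneg _
      have h5 : |D i| * |D i| = D i * D i := abs_mul_abs_self _
      have h6 : 4 * ε * |D i| ≤ D i * D i + 4 * ε * ε := by nlinarith
      have h7 : 1 / (4 * ε) * (D i * D i) + ε = (D i * D i + 4 * ε * ε) / (4 * ε) := by
        field_simp
      rw [h7, le_div_iff₀ (by positivity)]
      linarith
    linarith
  have h2 : M.L (fun _ : I => ε) = ε := by
    have h := M.L_smul ε (fun _ => 1) (M.ok_const 1)
    rw [M.L_one] at h
    simpa using h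
  rw [M.L_add _ _ hH hR, M.L_add _ _ hDc (M.ok_const ε), M.L_smul _ _ hDD, h2] at h1
  have h3 : 1 / (4 * ε) * M.L (fun i => D i * D i) ≤ 0 :=
    mul_nonpos_of_nonneg_of_nonpos (by positivity) h0
  linarith

private lemma F1b_eq {I : Type} (M : Lim I) (G H D : I → ℝ) (hG : M.Ok G) (hH : M.Ok H)
    (hD : M.Ok D) (hle : ∀ i, |G i - H i| ≤ |D i|) (h0 : M.L (fun i => D i * D i) ≤ 0) :
    M.L G = M.L H :=
  le_antisymm (F1b_close M G H D hG hH hD hle h0)
    (F1b_close M H G D hH hG hD (fun i => by rw [abs_sub_comm]; exact hle i) h0)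

private lemma F1b_bdd {I : Type} (M : Lim I) (A : I → ℝ) (h : ∀ i, |A i| ≤ 1) : M.Ok A :=
  M.ok_of_abs_le _ _ (fun i => by simpa using h i) (M.ok_const 1)

/-- the characteristic function of the law -/
private lemma F1b_trig {I : Type} (M : Fld I) (E : EnergyFacts)
    (hG : ∀ F, Ne F → M.L (fun i => Real.cos (M.X F i)) = Real.exp (-(M.K * energy2 F F / 2)))
    {m : ℕ} (f : Fin m → Pl → ℝ) (hf : ∀ j, Ne (f j)) (Y : Fin m → I → ℝ) (hY : ∀ j, M.Ok (Y j))
    (hYX : ∀ j, M.L (fun i => (Y j i - M.X (f j) i) ^ 2) = 0) (t : Fin m → ℝ) :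
    M.L (fun i => Real.cos (∑ j, t j * Y j i)) =
        Real.exp (-((∑ i, ∑ j, t i * t j * (M.K * energy2 (f i) (f j))) / 2)) ∧
      M.L (fun i => Real.sin (∑ j, t j * Y j i)) = 0 := by
  have hF : Ne (fun z => ∑ j, t j * f j z) := N4a_ne_sum f hf t _
  have hZ : ∀ j, M.Ok (fun i => Y j i - M.X (f j) i) := by
    intro j
    have h := M.ok_add _ _ (hY j) (M.ok_mul _ _ (M.ok_const (-1)) (M.ok_X _ (hf j)))
    convert h using 2 with i
    ring
  have hZt : ∀ j, M.Ok (fun i => t j * (Y j i - M.X (f j) i)) := fun j =>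
    M.ok_mul _ _ (M.ok_const (t j)) (hZ j)
  obtain ⟨hD, -⟩ := F1b_sum M.toLim (fun j i => t j * (Y j i - M.X (f j) i)) hZt Finset.univ
  have hZZ : ∀ j, M.Ok (fun i => (Y j i - M.X (f j) i) ^ 2) := by
    intro j
    have h := M.ok_mul _ _ (hZ j) (hZ j)
    convert h using 2 with i
    ring
  obtain ⟨hS, hSL⟩ := F1b_sum M.toLim (fun j i => (Y j i - M.X (f j) i) ^ 2) hZZ Finset.univ
  have h0 : M.L (fun i => (∑ j, t j * (Y j i - M.X (f j) i)) *
      (∑ j, t j * (Y j i - M.X (f j) i))) ≤ 0 := by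
    have h1 : M.L (fun i => (∑ j, t j * (Y j i - M.X (f j) i)) *
        (∑ j, t j * (Y j i - M.X (f j) i))) ≤
        M.L (fun i => (∑ j, t j ^ 2) * ∑ j, (Y j i - M.X (f j) i) ^ 2) := by
      refine M.L_mono _ _ (M.ok_mul _ _ hD hD) (M.ok_mul _ _ (M.ok_const _) hS) fun i => ?_
      rw [← sq]
      exact Finset.sum_mul_sq_le_sq_mul_sq _ _ _
    refine h1.trans (le_of_eq ?_)
    rw [M.L_smul _ _ hS, hSL]
    simp only [hYX, Finset.sum_const_zero, mul_zero]
  have hdiff : ∀ i, (∑ j, t j * Y j i) - M.X (fun z => ∑ j, t j * f j z) i =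
      ∑ j, t j * (Y j i - M.X (f j) i) := by
    intro i
    rw [X_sum M f hf t i, ← Finset.sum_sub_distrib]
    exact Finset.sum_congr rfl fun j _ => by ring
  constructor
  · rw [F1b_eq M.toLim (fun i => Real.cos (∑ j, t j * Y j i))
      (fun i => Real.cos (M.X (fun z => ∑ j, t j * f j z) i)) _
      (F1b_bdd _ _ fun i => Real.abs_cos_le_one _) (F1b_bdd _ _ fun i => Real.abs_cos_le_one _) hD
      (fun i => by
        rw [← hdiff i]
        exact Real.abs_cos_sub_cos_le _ _) h0, hG _ hF,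
      (energy_comb E f (fun j => (hf j).toCc) t).2]
    congr 3
    rw [Finset.mul_sum]
    refine Finset.sum_congr rfl fun i _ => ?_
    rw [Finset.mul_sum]
    refine Finset.sum_congr rfl fun j _ => ?_
    ring
  · rw [F1b_eq M.toLim (fun i => Real.sin (∑ j, t j * Y j i))
      (fun i => Real.sin (M.X (fun z => ∑ j, t j * f j z) i)) _
      (F1b_bdd _ _ fun i => Real.abs_sin_le_one _) (F1b_bdd _ _ fun i => Real.abs_sin_le_one _) hD
      (fun i => by
        rw [← hdiff i]
        exact Real.abs_sin_sub_sin_le _ _) h0, M.odd _ hF]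

/-
`ν` from `exists_law` for `Y`; `charFun ν t = L cos (∑ t_j Y_j) + i L sin (∑ t_j Y_j)` (real and imaginary part are bounded continuous functions).
`|L cos (∑ t_j Y_j) - L cos (X F)| ≤ L |∑ t_j (Y_j - X f_j)|` with `F = ∑ t_j f_j` (`X_sum`), and `L |A| ≤ (L A² / s + s)/2` for all `s > 0` (`|A| ≤ (A²/s + s)/2`), so it is `0`;
same for `sin`.  Hence `charFun ν t = exp (-(K energy2 F F)/2)`, `charFun_multivariateGaussian`, `gram_psd`, `energy_comb`, `Measure.ext_of_charFun`.
-/
theorem law_gauss_poly {I : Type} (M : Fld I) (E : EnergyFacts)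
    (hG : ∀ F, Ne F → M.L (fun i => Real.cos (M.X F i)) = Real.exp (-(M.K * energy2 F F / 2)))
    {m : ℕ} (f : Fin m → Pl → ℝ) (hf : ∀ j, Ne (f j)) (Y : Fin m → I → ℝ) (hY : ∀ j, M.Ok (Y j))
    (hYX : ∀ j, M.L (fun i => (Y j i - M.X (f j) i) ^ 2) = 0)
    (φ : EuclideanSpace ℝ (Fin m) → ℝ) (hφ : Continuous φ)
    (hg : ∃ (C : ℝ) (k : ℕ), ∀ x, |φ x| ≤ C * (1 + ‖x‖) ^ k) :
    Integrable φ (multivariateGaussian 0 (gram M.K f)) ∧
      M.L (fun i => φ (vec Y i)) = ∫ x, φ x ∂(multivariateGaussian 0 (gram M.K f)) := by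
  obtain ⟨ν, hν, hL⟩ := exists_law M.toLim Y hY
  have hinner : ∀ x t : EuclideanSpace ℝ (Fin m), inner ℝ x t = ∑ j, t j * x j := by
    intro x t
    simp [PiLp.inner_apply]
  have hcont : ∀ t : EuclideanSpace ℝ (Fin m),
      Continuous (fun x : EuclideanSpace ℝ (Fin m) => ∑ j, t j * x j) := by
    intro t
    fun_prop
  have key : ν = multivariateGaussian 0 (gram M.K f) := by
    refine Measure.ext_of_charFun ?_
    funext t
    obtain ⟨h1, h2⟩ := F1b_trig M E hG f hf Y hY hYX (fun j => t j)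
    have hc := (hL (fun x => Real.cos (∑ j, t j * x j)) (Real.continuous_cos.comp (hcont t))
      ⟨1, 0, fun x => by simpa using Real.abs_cos_le_one _⟩).2
    have hs := (hL (fun x => Real.sin (∑ j, t j * x j)) (Real.continuous_sin.comp (hcont t))
      ⟨1, 0, fun x => by simpa using Real.abs_sin_le_one _⟩).2
    have hvec : ∀ i, ∑ j, t j * (vec Y i) j = ∑ j, t j * Y j i := fun i => rfl
    simp only [hvec] at hc hs
    rw [h1] at hc
    rw [h2] at hs
    have hint : Integrable (fun x : EuclideanSpace ℝ (Fin m) =>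
        Complex.exp (((∑ j, t j * x j : ℝ) : ℂ) * Complex.I)) ν := by
      refine Integrable.of_bound (C := 1) ?_ (Eventually.of_forall fun x => ?_)
      · refine Continuous.aestronglyMeasurable ?_
        exact Complex.continuous_exp.comp
          ((Complex.continuous_ofReal.comp (hcont t)).mul continuous_const)
      · rw [Complex.norm_exp_ofReal_mul_I]
    rw [charFun_multivariateGaussian (gram_psd M E f hf), charFun_apply]
    simp only [hinner]
    have hgauss : Complex.exp (((∑ j, t j * (0 : EuclideanSpace ℝ (Fin m)) j : ℝ) : ℂ) * Complex.I -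
        ((t ⬝ᵥ (gram M.K f).mulVec t : ℝ) : ℂ) / 2) =
        ((Real.exp (-((∑ i, ∑ j, t i * t j * (M.K * energy2 (f i) (f j))) / 2)) : ℝ) : ℂ) := by
      rw [Complex.ofReal_exp]
      congr 1
      have h3 : t ⬝ᵥ (gram M.K f).mulVec t =
          ∑ i, ∑ j, t i * t j * (M.K * energy2 (f i) (f j)) := by
        simp only [dotProduct, Matrix.mulVec, gram, Matrix.of_apply]
        refine Finset.sum_congr rfl fun i _ => ?_
        rw [Finset.mul_sum]
        refine Finset.sum_congr rfl fun j _ => ?_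
        ring
      rw [h3]
      simp
    apply Complex.ext
    · have h4 := integral_re hint
      simp only [RCLike.re_to_complex] at h4
      rw [← h4]
      simp only [Complex.exp_ofReal_mul_I_re]
      rw [← hc]
      have h5 := congrArg Complex.re hgauss
      rw [Complex.ofReal_re] at h5
      rw [← h5]
      simp
    · have h4 := integral_im hint
      simp only [RCLike.im_to_complex] at h4
      rw [← h4]
      simp only [Complex.exp_ofReal_mul_I_im]
      rw [← hs]
      have h5 := congrArg Complex.im hgauss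
      rw [Complex.ofReal_im] at h5
      rw [← h5]
      simp
  rw [← key]
  exact hL φ hφ hg

/-- joint laws: bounded continuous functions -/
theorem law_gauss {I : Type} (M : Fld I) (E : EnergyFacts)
    (hG : ∀ F, Ne F → M.L (fun i => Real.cos (M.X F i)) = Real.exp (-(M.K * energy2 F F / 2)))
    {m : ℕ} (f : Fin m → Pl → ℝ) (hf : ∀ j, Ne (f j)) (Y : Fin m → I → ℝ) (hY : ∀ j, M.Ok (Y j))
    (hYX : ∀ j, M.L (fun i => (Y j i - M.X (f j) i) ^ 2) = 0)
    (φ : BoundedContinuousFunction (EuclideanSpace ℝ (Fin m)) ℝ) :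
    M.L (fun i => φ (vec Y i)) = ∫ x, φ x ∂(multivariateGaussian 0 (gram M.K f)) := by
  obtain ⟨C, hC⟩ := φ.isBounded_range.exists_norm_le
  exact (law_gauss_poly M E hG f hf Y hY hYX φ φ.continuous ⟨C, 0, fun x => by
    rw [pow_zero, mul_one]
    exact hC _ ⟨x, rfl⟩⟩).2

end GF
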