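import Pool.Agent.Helper34.GF.F1
import Pool.Agent.Helper34.GF.F2
import Pool.Agent.Helper27.GF.Rad
import Pool.Agent.Helper75.GF.LatFld

/-!
F3.  The law of the field of square ice, delocalised case.
-/

open MeasureTheory Filter Topology ProbabilityTheory

namespace GF

open RP4 (V avg Om dom Deloc)
open GF.Lat

/-- the vector of the pairings with the test functions `f j` -/
noncomputable def YV {m : ℕ} (f : Fin m → Pl → ℝ) (p : ℝ × Finset V) (h : V → ℤ) :
    EuclideanSpace ℝ (Fin m) := WithLp.toLp 2 fun j => YY (f j) (p, h)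

/-- convergence of the joint laws to the Gaussian law with the covariances `K * energy2`, first for `D ↑ ℤ²`, then for
`δ → 0`: all continuous functions of polynomial growth -/
def LawConv (K : ℝ) : Prop :=
  ∀ (m : ℕ) (f : Fin m → Pl → ℝ), (∀ j, Ne (f j)) →
    (gram K f).PosSemidef ∧
    ∀ φ : EuclideanSpace ℝ (Fin m) → ℝ, Continuous φ →
      (∃ (C : ℝ) (k : ℕ), ∀ x, |φ x| ≤ C * (1 + ‖x‖) ^ k) →
      Integrable φ (multivariateGaussian 0 (gram K f)) ∧
      Tendsto (fun p : ℝ × Finset V => avg (Om p.2) (fun h => φ (YV f p h))) ((𝓝[>] (0 : ℝ)).curry dom)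
        (𝓝 (∫ x, φ x ∂(multivariateGaussian 0 (gram K f))))

lemma ok_poly {I : Type} (M : Lim I) {m : ℕ} (Y : Fin m → I → ℝ) (hY : ∀ j, M.Ok (Y j))
    (φ : EuclideanSpace ℝ (Fin m) → ℝ)
    (hg : ∃ (C : ℝ) (k : ℕ), ∀ x, |φ x| ≤ C * (1 + ‖x‖) ^ k) : M.Ok (fun i => φ (vec Y i)) := by
  obtain ⟨C, k, hC⟩ := hg
  have hS : ∀ s : Finset (Fin m), M.Ok (fun i => ∑ j ∈ s, |Y j i|) := by
    classical
    intro s
    induction s using Finset.induction_on with
    | empty => simpa using M.ok_const 0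
    | insert a s ha ih =>
      simp only [Finset.sum_insert ha]
      exact M.ok_add _ _ (M.ok_abs _ (hY a)) ih
  have h1 : M.Ok (fun i => C * (1 + ∑ j, |Y j i|) ^ k) :=
    M.ok_smul C _ (M.ok_pow _ (M.ok_add _ _ (M.ok_const 1) (hS _)) k)
  refine M.ok_of_abs_le _ _ (fun i => ?_) h1
  have hn : ‖vec Y i‖ ≤ ∑ j, |Y j i| := by
    have h2 : vec Y i = ∑ j, (Y j i) • (EuclideanSpace.basisFun (Fin m) ℝ j) := by
      have := (EuclideanSpace.basisFun (Fin m) ℝ).sum_repr (vec Y i)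
      rw [← this]
      refine Finset.sum_congr rfl fun j _ => ?_
      rfl
    rw [h2]
    refine (norm_sum_le _ _).trans (Finset.sum_le_sum fun j _ => ?_)
    rw [norm_smul, Real.norm_eq_abs, (EuclideanSpace.basisFun (Fin m) ℝ).norm_eq_one, mul_one]
  have hC0 : 0 ≤ C := by
    have := (abs_nonneg _).trans (hC 0)
    simpa using this
  have h3 : (0 : ℝ) ≤ ∑ j, |Y j i| := Finset.sum_nonneg fun j _ => abs_nonneg _
  refine (hC _).trans ((mul_le_mul_of_nonneg_left (pow_le_pow_left₀ (by positivity)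
    (by linarith) k) hC0).trans (le_abs_self _))

theorem law_deloc (hd : Deloc) : LawConv (Kc hd) := by
  intro m f hf
  have hne : ((𝓝[>] (0 : ℝ)).curry dom).NeBot := itf_neBot
  obtain ⟨U₀, hU₀⟩ := Ultrafilter.exists_le ((𝓝[>] (0 : ℝ)).curry dom)
  have key : ∀ (U : Ultrafilter (ℝ × Finset V)) (hU : (U : Filter (ℝ × Finset V)) ≤ (𝓝[>] (0 : ℝ)).curry dom)
      (φ : EuclideanSpace ℝ (Fin m) → ℝ), Continuous φ →
      (∃ (C : ℝ) (k : ℕ), ∀ x, |φ x| ≤ C * (1 + ‖x‖) ^ k) →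
      Integrable φ (multivariateGaussian 0 (gram (Kc hd) f)) ∧
      Tendsto (fun p : ℝ × Finset V => avg (Om p.2) (fun h => φ (YV f p h))) U
        (𝓝 (∫ x, φ x ∂(multivariateGaussian 0 (gram (Kc hd) f)))) := by
    intro U hU φ hφ hg
    obtain ⟨χ, hχ⟩ := rad_fun (latFld hd U hU)
    have hY : ∀ j, (latFld hd U hU).Ok (YY (f j)) := fun j => latFld_ok_YY hd U hU (hf j)
    have h := law_gauss_poly (latFld hd U hU) energyFacts (fun F hF => all_gauss _ χ hχ F hF) f hf
      (fun j => YY (f j)) hY (fun j => latFld_YY hd U hU (hf j)) φ hφ hg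
    rw [latFld_K] at h
    refine ⟨h.1, ?_⟩
    rw [← h.2]
    exact latFld_L hd U hU (ok_poly _ _ hY φ hg)
  refine ⟨?_, fun φ hφ hg => ⟨(key U₀ hU₀ φ hφ hg).1, ?_⟩⟩
  · have := gram_psd (latFld hd U₀ hU₀) energyFacts f hf
    rwa [latFld_K] at this
  · rw [tendsto_iff_ultrafilter]
    exact fun U hU => (key U hU φ hφ hg).2

end GF
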