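import Pool.Agent.Helper34.GF.F3
import Pool.Agent.Helper63.RP4.Fin
import Pool.Agent.Helper63.RP4.E6b

/-!
F4.  Identification of the constant of the two point function; the localised case.
-/

open MeasureTheory Filter Topology ProbabilityTheory

namespace GF

open RP4 (V avg Om dom Deloc wt elen gfun)
open GF.Lat

/-- `a` is the limit of the second moments of the height differences -/
def LimA (a : V → V → ℝ) : Prop :=
  ∀ x y, Tendsto (fun D => avg (Om D) (fun h => (((h x - h y : ℤ) : ℝ)) ^ 2)) dom (𝓝 (a x y))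

/-- logarithmic asymptotics -/
def LogA (K : ℝ) (a : V → V → ℝ) : Prop :=
  ∀ ε > 0, ∃ R : ℝ, 1 < R ∧ ∀ x y : V, R ≤ elen (x - y) →
    |a x y / Real.log (elen (x - y)) - K / Real.pi| ≤ ε

private lemma F4_elen (N : ℕ) : elen (((N : ℤ), 0) - (0 : V)) = N := by
  unfold elen
  simp

private lemma F4_seq {K : ℝ} {a : V → V → ℝ} (hlog : LogA K a) :
    Tendsto (fun N : ℕ => a ((N : ℤ), 0) 0 / Real.log N) atTop (𝓝 (K / Real.pi)) := by
  rw [Metric.tendsto_atTop]
  intro ε hε
  obtain ⟨R, -, h⟩ := hlog (ε / 2) (half_pos hε)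
  obtain ⟨N₀, hN₀⟩ := exists_nat_ge R
  refine ⟨N₀, fun N hN => ?_⟩
  have h1 := h ((N : ℤ), 0) 0 (by
    rw [F4_elen]
    exact hN₀.trans (by exact_mod_cast hN))
  rw [F4_elen] at h1
  rw [Real.dist_eq]
  linarith

theorem K_zero (hnd : ¬ Deloc) {K : ℝ} {a : V → V → ℝ} (ha : LimA a) (hlog : LogA K a) : K = 0 := by
  have hdom := RP4.dom_neBot
  obtain ⟨C, hC⟩ := RP4.not_deloc_bdd hnd
  have h1 : ∀ x y, a x y ≤ 4 * C := by
    intro x y
    refine le_of_tendsto (ha x y) ?_
    rw [RP4.eventually_dom]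
    refine ⟨{x, y}, fun D hD hp => ?_⟩
    have hx := hC D hp x (hD (by simp))
    have hy := hC D hp y (hD (by simp))
    have h2 : avg (Om D) (fun h => (((h x - h y : ℤ) : ℝ)) ^ 2) ≤
        avg (Om D) (fun h => 2 * ((h x : ℝ) ^ 2 + (h y : ℝ) ^ 2)) := by
      unfold avg
      refine div_le_div_of_nonneg_right (Finset.sum_le_sum fun h _ => ?_) (Nat.cast_nonneg _)
      push_cast
      nlinarith [sq_nonneg ((h x : ℝ) + h y)]
    rw [RP4.avg_const_mul, RP4.avg_add] at h2
    linarith
  have h0 : ∀ x y, 0 ≤ a x y := fun x y =>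
    ge_of_tendsto' (ha x y) fun D => RP4.avg_nonneg _ _ fun g => sq_nonneg _
  have h2 : Tendsto (fun N : ℕ => a ((N : ℤ), 0) 0 / Real.log N) atTop (𝓝 0) := by
    have h3 : Tendsto (fun N : ℕ => 4 * C / Real.log N) atTop (𝓝 0) :=
      (Real.tendsto_log_atTop.comp tendsto_natCast_atTop_atTop).const_div_atTop _
    refine squeeze_zero' ?_ ?_ h3
    · filter_upwards [eventually_ge_atTop 1] with N hN
      exact div_nonneg (h0 _ _) (Real.log_nonneg (by exact_mod_cast hN))
    · filter_upwards [eventually_ge_atTop 1] with N hN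
      exact div_le_div_of_nonneg_right (h1 _ _) (Real.log_nonneg (by exact_mod_cast hN))
  have h3 := tendsto_nhds_unique (F4_seq hlog) h2
  rwa [div_eq_zero_iff, or_iff_left Real.pi_ne_zero] at h3

theorem K_eq (hd : Deloc) {K : ℝ} {a : V → V → ℝ} (ha : LimA a) (hlog : LogA K a) : K = Kc hd := by
  have hdom := RP4.dom_neBot
  have h1 : ∀ x y, a x y = gfun (x - y) := fun x y =>
    tendsto_nhds_unique (ha x y) (RP4.gfun_lim hd y x)
  have hinj : Function.Injective fun N : ℕ => (((N : ℤ), 0) : V) := by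
    intro N M h
    have h2 := congrArg Prod.fst h
    simp only at h2
    exact_mod_cast h2
  have h2 := (Kc_log hd).comp (hinj.tendsto_cofinite)
  rw [Nat.cofinite_eq_atTop] at h2
  have h3 := F4_seq hlog
  have h4 : Tendsto (fun N : ℕ => a ((N : ℤ), 0) 0 / Real.log N) atTop (𝓝 (Kc hd / Real.pi)) := by
    refine h2.congr fun N => ?_
    simp only [Function.comp_apply]
    rw [h1, sub_zero]
    congr 2
    simp
  have h5 := tendsto_nhds_unique h3 h4
  exact (div_left_inj' Real.pi_ne_zero).1 h5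

end GF
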