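import Pool.Agent.Helper34.GF.F4
import Pool.Agent.Helper27.GF.M5

/-!
F5.  The case of a vanishing constant.
-/

open MeasureTheory Filter Topology ProbabilityTheory

namespace GF

open RP4 (V avg Om dom Deloc wt elen gfun)
open GF.Lat

/-- the limits of the variances of the pairings are `K * energy` -/
def PairA (K : ℝ) (a : V → V → ℝ) : Prop :=
  ∀ f : ℝ × ℝ → ℝ, ContDiff ℝ 1 f → HasCompactSupport f → ∫ y, f y = 0 → ∀ ε > 0,
    ∃ δ₀ > 0, ∀ δ : ℝ, 0 < δ → δ < δ₀ → ∀ s : Finset V,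
      (∀ x : V, f (δ * x.1, δ * x.2) ≠ 0 → x ∈ s) →
      |(∑ x ∈ s, ∑ y ∈ s, wt δ f x * wt δ f y * ((a x 0 + a y 0 - a x y) / 2)) -
        K * RP4.energy f| ≤ ε

lemma supp_fin {f : Pl → ℝ} (hf : HasCompactSupport f) {δ : ℝ} (hδ : 0 < δ) :
    ∃ s : Finset V, ∀ x : V, f (δ * x.1, δ * x.2) ≠ 0 → x ∈ s := by
  obtain ⟨R, hR⟩ := hf.isCompact.isBounded.exists_norm_le
  obtain ⟨N, hN⟩ := exists_nat_ge (R / δ)
  refine ⟨Finset.Icc (-(N : ℤ)) N ×ˢ Finset.Icc (-(N : ℤ)) N, fun x hx => ?_⟩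
  have h2 := hR _ (subset_tsupport f hx)
  rw [div_le_iff₀ hδ] at hN
  have h3 : |δ * (x.1 : ℝ)| ≤ R := (norm_fst_le _).trans h2
  have h4 : |δ * (x.2 : ℝ)| ≤ R := (norm_snd_le _).trans h2
  rw [abs_mul, abs_of_pos hδ] at h3 h4
  have h5 : |(x.1 : ℝ)| ≤ N := by nlinarith
  have h6 : |(x.2 : ℝ)| ≤ N := by nlinarith
  have h7 : |x.1| ≤ (N : ℤ) := by exact_mod_cast h5
  have h8 : |x.2| ≤ (N : ℤ) := by exact_mod_cast h6
  rw [Finset.mem_product, Finset.mem_Icc, Finset.mem_Icc]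
  exact ⟨abs_le.1 h7, abs_le.1 h8⟩

lemma YY_eq_sum {f : Pl → ℝ} {δ : ℝ} {s D : Finset V}
    (hs : ∀ x : V, f (δ * x.1, δ * x.2) ≠ 0 → x ∈ s) (hD : s ⊆ D) (h : V → ℤ) :
    YY f ((δ, D), h) = ∑ x ∈ s, wt δ f x * ((h x : ℝ) - h 0) := by
  unfold YY
  refine (Finset.sum_subset hD fun x _ hx => ?_).symm
  have h1 : f (δ * x.1, δ * x.2) = 0 := by
    by_contra h0
    exact hx (hs x h0)
  unfold wt
  rw [h1, mul_zero, zero_mul]

/-- second moments of the pairings with one test function -/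
theorem YY_second_lim {a : V → V → ℝ} (ha : LimA a) {f : Pl → ℝ} {δ : ℝ} {s : Finset V}
    (hs : ∀ x : V, f (δ * x.1, δ * x.2) ≠ 0 → x ∈ s) :
    Tendsto (fun D => ev (δ, D) (fun i => YY f i ^ 2)) dom
      (𝓝 (∑ x ∈ s, ∑ y ∈ s, wt δ f x * wt δ f y * ((a x 0 + a y 0 - a x y) / 2))) := by
  refine (RP4.pair_tendsto ha (wt δ f) (wt δ f) s s).congr' ?_
  rw [Filter.EventuallyEq, RP4.eventually_dom]
  refine ⟨s, fun D hD _ => ?_⟩
  unfold ev
  congr 1
  funext h
  simp only [YY_eq_sum hs hD]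
  ring

theorem YY_second_zero {a : V → V → ℝ} (ha : LimA a) (hp : PairA 0 a) {f : Pl → ℝ} (hf : Ne f) :
    Tendsto (fun p : ℝ × Finset V => ev p (fun i => YY f i ^ 2)) itf (𝓝 0) := by
  rw [Metric.tendsto_nhds]
  intro ε hε
  rw [itf_eventually]
  obtain ⟨δ₀, hδ₀, h⟩ := hp f (hf.smooth.of_le (by simp)) hf.supp hf.zero (ε / 2) (half_pos hε)
  have h1 : ∀ᶠ δ in 𝓝[>] (0 : ℝ), δ ∈ Set.Ioo 0 δ₀ := Ioo_mem_nhdsGT hδ₀
  filter_upwards [h1] with δ hδ
  obtain ⟨s, hs⟩ := supp_fin hf.supp hδ.1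
  have h2 := h δ hδ.1 hδ.2 s hs
  rw [zero_mul, sub_zero] at h2
  have h3 := YY_second_lim ha hs
  filter_upwards [(Metric.tendsto_nhds.1 h3) (ε / 2) (half_pos hε)] with D hD
  rw [Real.dist_eq] at hD ⊢
  rw [sub_zero]
  have h4 := abs_le.1 h2
  have h5 := abs_lt.1 hD
  rw [abs_lt]
  constructor <;> linarith

theorem YY_ok_zero {a : V → V → ℝ} (ha : LimA a) (hp : PairA 0 a) {f : Pl → ℝ} (hf : Ne f)
    {U : Filter (ℝ × Finset V)} (hU : U ≤ itf) : OkU U (YY f) := by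
  classical
  intro k
  obtain ⟨B, hB, hmass⟩ := RP4.wt_mass f hf.smooth.continuous hf.supp
  obtain ⟨C, hC, hmom⟩ := moments k
  refine ⟨C * (1 + 2 * B) ^ k, ?_⟩
  refine Filter.Eventually.filter_mono hU ?_
  have h0 : ∀ᶠ p in itf, ev p (fun i => YY f i ^ 2) < 1 :=
    (YY_second_zero ha hp hf).eventually (gt_mem_nhds one_pos)
  rw [itf_eventually] at h0 ⊢
  have h1 : ∀ᶠ δ in 𝓝[>] (0 : ℝ), δ ∈ Set.Ioo 0 1 := Ioo_mem_nhdsGT one_pos
  filter_upwards [h1, h0] with δ hδ h2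
  obtain ⟨s, hs⟩ := supp_fin hf.supp hδ.1
  have h3 : ∀ᶠ D in dom, s ⊆ D := by
    rw [RP4.eventually_dom]
    exact ⟨s, fun D hD _ => hD⟩
  filter_upwards [h2, h3, dom_nonempty] with D hD1 hsD hne
  set w : V → ℝ := fun x => wt δ f x - (∑ y ∈ s, wt δ f y) * (if x = 0 then 1 else 0) with hw
  have hlin : ∀ h : V → ℤ, YY f ((δ, D), h) = lin (insert 0 s) w h := by
    intro h
    rw [YY_eq_sum hs hsD]
    unfold lin
    have e1 : ∑ x ∈ insert 0 s, w x * (h x : ℝ) =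
        ∑ x ∈ insert 0 s, wt δ f x * (h x : ℝ) - (∑ y ∈ s, wt δ f y) * (h 0 : ℝ) := by
      simp only [hw, sub_mul, Finset.sum_sub_distrib]
      congr 1
      rw [Finset.sum_eq_single (0 : V)]
      · simp
      · intro b _ hb
        rw [if_neg hb]
        ring
      · intro hb
        exact absurd (Finset.mem_insert_self _ _) hb
    have e2 : ∑ x ∈ insert 0 s, wt δ f x * (h x : ℝ) = ∑ x ∈ s, wt δ f x * (h x : ℝ) := by
      refine (Finset.sum_subset (Finset.subset_insert _ _) fun x _ hx => ?_).symm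
      have h5 : f (δ * x.1, δ * x.2) = 0 := by
        by_contra h6
        exact hx (hs x h6)
      unfold wt
      rw [h5, mul_zero, zero_mul]
    rw [e1, e2, Finset.sum_mul, ← Finset.sum_sub_distrib]
    refine Finset.sum_congr rfl fun x _ => ?_
    ring
  have hm : ∑ x ∈ insert 0 s, |w x| ≤ 2 * B := by
    have e1 : ∀ x, |w x| ≤ |wt δ f x| + (∑ y ∈ s, |wt δ f y|) * (if x = 0 then 1 else 0) := by
      intro x
      simp only [hw]
      refine (abs_sub _ _).trans (add_le_add le_rfl ?_)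
      rw [abs_mul]
      refine mul_le_mul (Finset.abs_sum_le_sum_abs _ _) ?_ (abs_nonneg _)
        (Finset.sum_nonneg fun _ _ => abs_nonneg _)
      split_ifs <;> simp
    refine (Finset.sum_le_sum fun x _ => e1 x).trans ?_
    rw [Finset.sum_add_distrib, ← Finset.mul_sum]
    have e2 : ∑ x ∈ insert 0 s, (if x = (0 : V) then (1 : ℝ) else 0) ≤ 1 := by
      rw [Finset.sum_ite_eq' ]
      split_ifs <;> norm_num
    have e3 := hmass δ hδ.1 hδ.2 (insert 0 s)
    have e4 := hmass δ hδ.1 hδ.2 s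
    have e5 : (∑ y ∈ s, |wt δ f y|) * ∑ x ∈ insert 0 s, (if x = (0 : V) then (1 : ℝ) else 0) ≤ B * 1 :=
      mul_le_mul e4 e2 (Finset.sum_nonneg fun x _ => by split_ifs <;> norm_num) hB
    linarith
  have hmo := hmom D (insert 0 s) w hne
  have e6 : ev (δ, D) (fun i => |YY f i| ^ k) = avg (Om D) (fun h => |lin (insert 0 s) w h| ^ k) := by
    unfold ev
    congr 1
    funext h
    simp only [hlin]
  have e7 : ev (δ, D) (fun i => YY f i ^ 2) = avg (Om D) (fun h => lin (insert 0 s) w h ^ 2) := by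
    unfold ev
    congr 1
    funext h
    simp only [hlin]
  rw [e6]
  rw [e7] at hD1
  refine hmo.trans (mul_le_mul_of_nonneg_left (pow_le_pow_left₀ ?_ ?_ k) hC)
  · have := Finset.sum_nonneg fun x (_ : x ∈ insert 0 s) => abs_nonneg (w x)
    positivity
  · have : Real.sqrt (avg (Om D) (fun h => lin (insert 0 s) w h ^ 2)) ≤ 1 := by
      rw [Real.sqrt_le_one]
      exact hD1.le
    linarith

lemma gauss_zero (m : ℕ) : multivariateGaussian (0 : EuclideanSpace ℝ (Fin m)) 0 = Measure.dirac 0 := by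
  refine Measure.ext_of_charFun ?_
  funext t
  rw [charFun_multivariateGaussian Matrix.PosSemidef.zero, charFun_dirac]
  simp

theorem law_zero {a : V → V → ℝ} (ha : LimA a) (hp : PairA 0 a) : LawConv 0 := by
  intro m f hf
  have hg0 : gram 0 f = 0 := by
    ext i j
    simp [gram]
  rw [hg0]
  refine ⟨Matrix.PosSemidef.zero, fun φ hφ hg => ?_⟩
  rw [gauss_zero]
  refine ⟨integrable_dirac (by simp), ?_⟩
  rw [integral_dirac, tendsto_iff_ultrafilter]
  intro U hU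
  have hU' : (U : Filter (ℝ × Finset V)) ≤ itf := hU
  have hok : ∀ j, (limU U hU').Ok (YY (f j)) := fun j => YY_ok_zero ha hp (hf j) hU'
  have hL : ∀ A : Ix → ℝ, (limU U hU').Ok A → Tendsto (fun p => ev p A) U (𝓝 ((limU U hU').L A)) :=
    fun A hA => LU_tendsto hA
  obtain ⟨ν, hν, hE⟩ := exists_law (limU U hU') (fun j => YY (f j)) hok
  have h2 : ∀ j, ∫ x : EuclideanSpace ℝ (Fin m), x j ^ 2 ∂ν = 0 := by
    intro j
    have h3 := (hE (fun x => x j ^ 2) (by fun_prop) ⟨1, 2, fun x => by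
      rw [abs_of_nonneg (sq_nonneg _), one_mul]
      have h4 : |x j| ≤ ‖x‖ := by
        have := EuclideanSpace.norm_eq x
        rw [this]
        refine Real.abs_le_sqrt ?_
        have h5 : ‖x j‖ ^ 2 ≤ ∑ i, ‖x i‖ ^ 2 :=
          Finset.single_le_sum (f := fun i => ‖x i‖ ^ 2) (fun i _ => sq_nonneg _) (Finset.mem_univ j)
        simpa using h5
      rw [← sq_abs]
      exact pow_le_pow_left₀ (abs_nonneg _) (by linarith) 2⟩).2
    rw [← h3]
    have h4 : Tendsto (fun p => ev p (fun i => YY (f j) i ^ 2)) U (𝓝 0) :=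
      (YY_second_zero ha hp (hf j)).mono_left hU'
    exact LU_eq h4
  have h3 : ∀ᵐ x ∂ν, x = 0 := by
    have h4 : ∀ j, ∀ᵐ x ∂ν, x j = 0 := by
      intro j
      have hi := (hE (fun x => x j ^ 2) (by fun_prop) ⟨1, 2, fun x => by
        rw [abs_of_nonneg (sq_nonneg _), one_mul]
        have h4 : |x j| ≤ ‖x‖ := by
          have := EuclideanSpace.norm_eq x
          rw [this]
          refine Real.abs_le_sqrt ?_
          have h5 : ‖x j‖ ^ 2 ≤ ∑ i, ‖x i‖ ^ 2 :=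
            Finset.single_le_sum (f := fun i => ‖x i‖ ^ 2) (fun i _ => sq_nonneg _) (Finset.mem_univ j)
          simpa using h5
        rw [← sq_abs]
        exact pow_le_pow_left₀ (abs_nonneg _) (by linarith) 2⟩).1
      have h5 := (integral_eq_zero_iff_of_nonneg (fun x => sq_nonneg _) hi).1 (h2 j)
      filter_upwards [h5] with x hx
      exact pow_eq_zero_iff (two_ne_zero) |>.1 hx
    have h5 : ∀ᵐ x ∂ν, ∀ j, x j = 0 := ae_all_iff.2 h4
    filter_upwards [h5] with x hx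
    ext j
    exact hx j
  have h4 : ∫ x, φ x ∂ν = φ 0 := by
    have h5 : ∫ x, φ x ∂ν = ∫ _x : EuclideanSpace ℝ (Fin m), φ 0 ∂ν :=
      integral_congr_ae (h3.mono fun x hx => by simp only [hx])
    rw [h5, integral_const]
    simp
  rw [← h4, ← (hE φ hφ hg).2]
  exact hL _ (ok_poly _ _ hok φ hg)

/-- convergence of the laws, in both cases -/
theorem law_of_core {K : ℝ} {a : V → V → ℝ} (ha : LimA a) (hlog : LogA K a) (hp : PairA K a) : LawConv K := by
  by_cases hd : Deloc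
  · rw [K_eq hd ha hlog]
    exact law_deloc hd
  · have h := K_zero hd ha hlog
    subst h
    exact law_zero ha hp

end GF
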