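import Pool.Agent.Helper27.GF.Ax

/-!
N0.  Definitions of block N (a radial field is Gaussian).
-/

open MeasureTheory Filter Topology

namespace GF

/-- the vector with the coordinates `Y j i` -/
noncomputable def vec {I : Type} {n : ℕ} (Y : Fin n → I → ℝ) (i : I) : EuclideanSpace ℝ (Fin n) :=
  WithLp.toLp 2 (fun j => Y j i)

/-- the rate function -/
noncomputable def rate (α q : ℝ) : ℝ := (1 + q) ^ (-(1 / 2) : ℝ) * Real.exp (-(α ^ 2 / (2 * (1 + q))))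

/-- facts on the energy form and the Laplacian, from the energy block -/
structure EnergyFacts : Prop where
  lapl : ∀ g F : Pl → ℝ, Cc g → Cc F → energy2 (lap g) F = - ∫ z, g z * F z
  symm : ∀ f g : Pl → ℝ, Cc f → Cc g → energy2 f g = energy2 g f
  add : ∀ f g F : Pl → ℝ, Cc f → Cc g → Cc F → energy2 (fun z => f z + g z) F = energy2 f F + energy2 g F
  smul : ∀ (c : ℝ) (f F : Pl → ℝ), Cc f → Cc F → energy2 (fun z => c * f z) F = c * energy2 f F
  ne_lap : ∀ g : Pl → ℝ, Cc g → Ne (lap g)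
  lap_add : ∀ f g : Pl → ℝ, Cc f → Cc g → lap (fun z => f z + g z) = fun z => lap f z + lap g z
  lap_smul : ∀ (c : ℝ) (f : Pl → ℝ), Cc f → lap (fun z => c * f z) = fun z => c * lap f z

/-- the laws of orthonormal families: properties.  `χ` is a function of the energy. -/
structure RLaw (χ : ℝ → ℝ) (K C4 : ℝ) (n : ℕ) (ε : ℝ) (ν : Measure (EuclideanSpace ℝ (Fin n))) : Prop where
  prob : IsProbabilityMeasure ν
  cos : ∀ t : Fin n → ℝ, ∫ x, Real.cos (∑ j, t j * x j) ∂ν = χ (∑ j, t j ^ 2)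
  sin : ∀ t : Fin n → ℝ, ∫ x, Real.sin (∑ j, t j * x j) ∂ν = 0
  int2 : ∀ j, Integrable (fun x : EuclideanSpace ℝ (Fin n) => x j ^ 2) ν
  two : ∀ j, ∫ x, x j ^ 2 ∂ν = K
  int4 : ∀ j, Integrable (fun x : EuclideanSpace ℝ (Fin n) => x j ^ 4) ν
  four : ∀ j, ∫ x, x j ^ 4 ∂ν ≤ C4
  mid : ∀ a b : Fin n → ℝ,
    (∫ x, Real.exp (-(1 / 2) * ∑ j, (x j - a j) ^ 2) ∂ν) *
      (∫ x, Real.exp (-(1 / 2) * ∑ j, (x j - b j) ^ 2) ∂ν) ≤
    Real.exp (n * ε ^ 2) * (∫ x, Real.exp (-(1 / 2) * ∑ j, (x j - (a j + b j) / 2) ^ 2) ∂ν) ^ 2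

/-- the logarithmic profile -/
noncomputable def lg (s : ℝ) (z : Pl) : ℝ := -(1 / 2) * Real.log (z.1 ^ 2 + z.2 ^ 2 + s ^ 2)

/-- smooth cutoff: one on the unit disc, zero outside of the disc of squared radius three -/
noncomputable def cutp (z : Pl) : ℝ := Real.smoothTransition ((3 - (z.1 ^ 2 + z.2 ^ 2)) / 2)

end GF
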