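import Pool.Agent.Helper34.GF.N0

/-!
N1a.  Functions of polynomial growth of observables are observables.
-/

open MeasureTheory Filter Topology ProbabilityTheory

namespace GF

private lemma N1a_sum {I : Type} (M : Lim I) {ι : Type} (s : Finset ι) (Z : ι → I → ℝ)
    (hZ : ∀ j, M.Ok (Z j)) : M.Ok (fun i => ∑ j ∈ s, Z j i) := by
  classical
  induction s using Finset.induction_on with
  | empty =>
    simp only [Finset.sum_empty]
    exact M.ok_const 0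
  | insert a s ha ih =>
    simp only [Finset.sum_insert ha]
    exact M.ok_add _ _ (hZ a) ih

private lemma N1a_pow {I : Type} (M : Lim I) (A : I → ℝ) (hA : M.Ok A) (k : ℕ) :
    M.Ok (fun i => A i ^ k) := by
  induction k with
  | zero =>
    simp only [pow_zero]
    exact M.ok_const 1
  | succ k ih =>
    simp only [pow_succ]
    exact M.ok_mul _ _ ih hA

/-
`‖vec Y i‖² = ∑ (Y j i)²`, so `(1 + ‖vec Y i‖)^k ≤ (2 + 2 ‖vec Y i‖²)^k`, a polynomial in the `Y j`: `ok_add`, `ok_mul`, `ok_const`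
(induction over the finset of indices and over `k`), then `ok_of_abs_le`.
-/
theorem ok_growth {I : Type} (M : Lim I) {n : ℕ} (Y : Fin n → I → ℝ) (hY : ∀ j, M.Ok (Y j))
    (φ : EuclideanSpace ℝ (Fin n) → ℝ) (C : ℝ) (k : ℕ) (hφ : ∀ x, |φ x| ≤ C * (1 + ‖x‖) ^ k) :
    M.Ok (fun i => φ (vec Y i)) := by
  have hnorm : ∀ i, ‖vec Y i‖ ^ 2 = ∑ j, Y j i ^ 2 := by
    intro i
    rw [EuclideanSpace.norm_sq_eq]
    refine Finset.sum_congr rfl fun j _ => ?_
    show ‖Y j i‖ ^ 2 = Y j i ^ 2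
    rw [Real.norm_eq_abs, sq_abs]
  have hB : M.Ok (fun i => |C| * (2 + ∑ j, Y j i ^ 2) ^ k) := by
    refine M.ok_mul _ _ (M.ok_const |C|) (N1a_pow M _ ?_ k)
    exact M.ok_add _ _ (M.ok_const 2)
      (N1a_sum M Finset.univ (fun j i => Y j i ^ 2) (fun j => N1a_pow M _ (hY j) 2))
  refine M.ok_of_abs_le _ _ (fun i => ?_) hB
  have h1 := hφ (vec Y i)
  have h2 : 0 ≤ ‖vec Y i‖ := norm_nonneg _
  have h3 : (1 + ‖vec Y i‖) ^ k ≤ (2 + ∑ j, Y j i ^ 2) ^ k := by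
    refine pow_le_pow_left₀ (by linarith) ?_ k
    rw [← hnorm i]
    nlinarith [sq_nonneg (‖vec Y i‖ - 1)]
  have h4 : 0 ≤ (1 + ‖vec Y i‖) ^ k := by positivity
  calc |φ (vec Y i)| ≤ C * (1 + ‖vec Y i‖) ^ k := h1
    _ ≤ |C| * (1 + ‖vec Y i‖) ^ k := mul_le_mul_of_nonneg_right (le_abs_self C) h4
    _ ≤ |C| * (2 + ∑ j, Y j i ^ 2) ^ k := mul_le_mul_of_nonneg_left h3 (abs_nonneg C)
    _ ≤ |(|C| * (2 + ∑ j, Y j i ^ 2) ^ k)| := le_abs_self _

end GF
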