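import Pool.Agent.Helper34.GF.N1a

/-!
N1b.  Riesz representation on continuous functions with compact support.
-/

open MeasureTheory Filter Topology ProbabilityTheory

namespace GF

open CompactlySupported in
private theorem N1b_ok {I : Type} (M : Lim I) {n : ℕ} (Y : Fin n → I → ℝ)
    (hY : ∀ j, M.Ok (Y j)) (g : C_c(EuclideanSpace ℝ (Fin n), ℝ)) :
    M.Ok (fun i => g (vec Y i)) := by
  obtain ⟨C, hC⟩ := g.continuous.bounded_above_of_compact_support g.hasCompactSupport
  refine ok_growth M Y hY (fun x => g x) C 0 fun x => ?_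
  have := hC x
  rw [Real.norm_eq_abs] at this
  simpa using this

open CompactlySupported in
private noncomputable def N1b_lam {I : Type} (M : Lim I) {n : ℕ} (Y : Fin n → I → ℝ)
    (hY : ∀ j, M.Ok (Y j)) : C_c(EuclideanSpace ℝ (Fin n), ℝ) →ₚ[ℝ] ℝ :=
  { toFun := fun g => M.L (fun i => g (vec Y i))
    map_add' := fun g g' => M.L_add _ _ (N1b_ok M Y hY g) (N1b_ok M Y hY g')
    map_smul' := fun c g => M.L_smul c _ (N1b_ok M Y hY g)
    monotone' := fun g g' hgg' =>
      M.L_mono _ _ (N1b_ok M Y hY g) (N1b_ok M Y hY g') fun i => hgg' (vec Y i) }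

/-
`Λ g = M.L (fun i => g (vec Y i))` is a positive linear functional on `C_c(E, ℝ)` (all these functions are bounded, so `ok_growth` with `k = 0`);
`ν = RealRMK.rieszMeasure Λ`, `RealRMK.integral_rieszMeasure` (model: the proof of Prokhorov's theorem in Mathlib/MeasureTheory/Measure/Prokhorov.lean).
`ν univ ≤ 1`: for every closed ball `B` there is `g ∈ C_c`, `0 ≤ g ≤ 1`, `g = 1` on `B` (explicit: `max 0 (min 1 (R + 1 - ‖x‖))`), so
`ν B ≤ ∫ g dν = M.L (..) ≤ 1` by `L_mono`, `L_one`; `univ` is the increasing union of the balls.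
-/
theorem law_Cc {I : Type} (M : Lim I) {n : ℕ} (Y : Fin n → I → ℝ) (hY : ∀ j, M.Ok (Y j)) :
    ∃ ν : Measure (EuclideanSpace ℝ (Fin n)), ν Set.univ ≤ 1 ∧
      ∀ φ : EuclideanSpace ℝ (Fin n) → ℝ, Continuous φ → HasCompactSupport φ →
        M.L (fun i => φ (vec Y i)) = ∫ x, φ x ∂ν := by
  refine ⟨RealRMK.rieszMeasure (N1b_lam M Y hY), ?_, fun φ hφ hs => ?_⟩
  · rw [← Metric.iUnion_closedBall_nat (0 : EuclideanSpace ℝ (Fin n)),
      Monotone.measure_iUnion (fun a b hab => Metric.closedBall_subset_closedBall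
        (by exact_mod_cast hab))]
    refine iSup_le fun k => ?_
    have hcont : Continuous (fun x : EuclideanSpace ℝ (Fin n) =>
        max 0 (min 1 ((k : ℝ) + 1 - ‖x‖))) := by fun_prop
    have hcs : HasCompactSupport (fun x : EuclideanSpace ℝ (Fin n) =>
        max 0 (min 1 ((k : ℝ) + 1 - ‖x‖))) := by
      refine HasCompactSupport.intro (isCompact_closedBall 0 ((k : ℝ) + 1)) fun x hx => ?_
      rw [mem_closedBall_zero_iff, not_le] at hx
      refine max_eq_left ((min_le_right _ _).trans ?_)
      linarith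
    let o : CompactlySupportedContinuousMap (EuclideanSpace ℝ (Fin n)) ℝ :=
      { toFun := fun x => max 0 (min 1 ((k : ℝ) + 1 - ‖x‖))
        continuous_toFun := hcont
        hasCompactSupport' := hcs }
    have ho : ∀ x, o x = max 0 (min 1 ((k : ℝ) + 1 - ‖x‖)) := fun x => rfl
    have h1 : RealRMK.rieszMeasure (N1b_lam M Y hY) (Metric.closedBall 0 (k : ℝ)) ≤
        ENNReal.ofReal (N1b_lam M Y hY o) := by
      refine RealRMK.rieszMeasure_le_of_eq_one _ (fun x => ?_) (isCompact_closedBall _ _)
        fun x hx => ?_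
      · rw [ho]
        exact le_max_left _ _
      · rw [ho]
        rw [mem_closedBall_zero_iff] at hx
        rw [min_eq_left (by linarith), max_eq_right zero_le_one]
    refine h1.trans ?_
    rw [ENNReal.ofReal_le_one]
    have h2 : N1b_lam M Y hY o = M.L (fun i => o (vec Y i)) := rfl
    rw [h2, ← M.L_one]
    refine M.L_mono _ _ (N1b_ok M Y hY o) (M.ok_const 1) fun i => ?_
    rw [ho]
    exact max_le zero_le_one (min_le_left _ _)
  · let g : CompactlySupportedContinuousMap (EuclideanSpace ℝ (Fin n)) ℝ :=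
      { toFun := φ
        continuous_toFun := hφ
        hasCompactSupport' := hs }
    exact (RealRMK.integral_rieszMeasure (N1b_lam M Y hY) g).symm

end GF
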