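import Pool.Agent.Helper34.GF.N0
import Pool.Agent.Helper27.GF.Cal1

/-!
N2a.  The regularised logarithm with a cutoff: calculus.
-/

open MeasureTheory Filter Topology ProbabilityTheory

namespace GF

private lemma N2a_pos {s : ℝ} (hs : 0 < s) (z : Pl) : 0 < z.1 ^ 2 + z.2 ^ 2 + s ^ 2 := by positivity

private lemma N2a_lg_smooth {s : ℝ} (hs : 0 < s) : ContDiff ℝ (⊤ : ℕ∞) (lg s) := by
  have h : ContDiff ℝ (⊤ : ℕ∞) (fun z : Pl => -(1 / 2) * Real.log (z.1 ^ 2 + z.2 ^ 2 + s ^ 2)) :=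
    contDiff_const.mul (ContDiff.log (((contDiff_fst.pow 2).add (contDiff_snd.pow 2)).add
      contDiff_const) fun z => (N2a_pos hs z).ne')
  exact h

private lemma N2a_der {b t : ℝ} (hb : t ^ 2 + b ≠ 0) :
    HasDerivAt (fun u : ℝ => -(1 / 2) * Real.log (u ^ 2 + b)) (-(t / (t ^ 2 + b))) t := by
  have h1 : HasDerivAt (fun u : ℝ => u ^ 2 + b) (2 * t) t := by
    simpa using (hasDerivAt_pow 2 t).add_const b
  have h2 := (h1.log hb).const_mul (-(1 / 2) : ℝ)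
  have h3 : -(t / (t ^ 2 + b)) = -(1 / 2) * (2 * t / (t ^ 2 + b)) := by ring
  rw [h3]
  exact h2

private lemma N2a_der2 {b t : ℝ} (hb : t ^ 2 + b ≠ 0) :
    HasDerivAt (fun u : ℝ => -(u / (u ^ 2 + b))) (-((b - t ^ 2) / (t ^ 2 + b) ^ 2)) t := by
  have h1 : HasDerivAt (fun u : ℝ => u ^ 2 + b) (2 * t) t := by
    simpa using (hasDerivAt_pow 2 t).add_const b
  have h2 : HasDerivAt (fun u : ℝ => u / (u ^ 2 + b)) ((1 * (t ^ 2 + b) - t * (2 * t)) / (t ^ 2 + b) ^ 2) t :=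
    (hasDerivAt_id' t).fun_div h1 hb
  have h3 : -((b - t ^ 2) / (t ^ 2 + b) ^ 2) = -((1 * (t ^ 2 + b) - t * (2 * t)) / (t ^ 2 + b) ^ 2) := by
    congr 2
    ring
  rw [h3]
  exact h2.fun_neg

private lemma N2a_dx_lg {s : ℝ} (hs : 0 < s) (z : Pl) :
    dx (lg s) z = -(z.1 / (z.1 ^ 2 + z.2 ^ 2 + s ^ 2)) := by
  rw [dx_eq_deriv (N2a_lg_smooth hs)]
  have hb : z.1 ^ 2 + (z.2 ^ 2 + s ^ 2) ≠ 0 := by
    have := (N2a_pos hs z).ne'
    rwa [add_assoc] at this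
  have h := (N2a_der hb).deriv
  simp only [lg, add_assoc]
  exact h

private lemma N2a_dy_lg {s : ℝ} (hs : 0 < s) (z : Pl) :
    dy (lg s) z = -(z.2 / (z.1 ^ 2 + z.2 ^ 2 + s ^ 2)) := by
  rw [dy_eq_deriv (N2a_lg_smooth hs)]
  have hb : z.2 ^ 2 + (z.1 ^ 2 + s ^ 2) ≠ 0 := by
    have := (N2a_pos hs z).ne'
    intro h
    apply this
    linarith
  have h := (N2a_der hb).deriv
  have e1 : ∀ t : ℝ, z.1 ^ 2 + t ^ 2 + s ^ 2 = t ^ 2 + (z.1 ^ 2 + s ^ 2) := fun t => by ring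
  simp only [lg, e1]
  exact h

private lemma N2a_lap_lg {s : ℝ} (hs : 0 < s) (z : Pl) :
    lap (lg s) z = -(2 * s ^ 2 / (z.1 ^ 2 + z.2 ^ 2 + s ^ 2) ^ 2) := by
  have hp := N2a_pos hs z
  have hb : z.1 ^ 2 + (z.2 ^ 2 + s ^ 2) ≠ 0 := by
    intro h
    apply hp.ne'
    linarith
  have hb' : z.2 ^ 2 + (z.1 ^ 2 + s ^ 2) ≠ 0 := by
    intro h
    apply hp.ne'
    linarith
  have h1 : dx (dx (lg s)) z = -(((z.2 ^ 2 + s ^ 2) - z.1 ^ 2) / (z.1 ^ 2 + (z.2 ^ 2 + s ^ 2)) ^ 2) := by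
    rw [dx_eq_deriv (smooth_dx (N2a_lg_smooth hs))]
    have e1 : (fun t => dx (lg s) (t, z.2)) = fun u : ℝ => -(u / (u ^ 2 + (z.2 ^ 2 + s ^ 2))) := by
      funext t
      rw [N2a_dx_lg hs, add_assoc]
    rw [e1]
    exact (N2a_der2 hb).deriv
  have h2 : dy (dy (lg s)) z = -(((z.1 ^ 2 + s ^ 2) - z.2 ^ 2) / (z.2 ^ 2 + (z.1 ^ 2 + s ^ 2)) ^ 2) := by
    rw [dy_eq_deriv (smooth_dy (N2a_lg_smooth hs))]
    have e1 : (fun t => dy (lg s) (z.1, t)) = fun u : ℝ => -(u / (u ^ 2 + (z.1 ^ 2 + s ^ 2))) := by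
      funext t
      rw [N2a_dy_lg hs]
      congr 2
      ring
    rw [e1]
    exact (N2a_der2 hb').deriv
  unfold lap
  rw [h1, h2]
  have e3 : z.2 ^ 2 + (z.1 ^ 2 + s ^ 2) = z.1 ^ 2 + z.2 ^ 2 + s ^ 2 := by ring
  have e4 : z.1 ^ 2 + (z.2 ^ 2 + s ^ 2) = z.1 ^ 2 + z.2 ^ 2 + s ^ 2 := by ring
  rw [e3, e4]
  have hp' := hp.ne'
  field_simp
  ring

private lemma N2a_cutp_smooth : ContDiff ℝ (⊤ : ℕ∞) cutp := by
  have h : ContDiff ℝ (⊤ : ℕ∞) (fun z : Pl => (3 - (z.1 ^ 2 + z.2 ^ 2)) / 2) :=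
    (contDiff_const.sub ((contDiff_fst.pow 2).add (contDiff_snd.pow 2))).div_const _
  exact Real.smoothTransition.contDiff.comp h

private lemma N2a_closed : IsClosed {z : Pl | z.1 ^ 2 + z.2 ^ 2 ≤ 3} :=
  isClosed_le (by fun_prop) continuous_const

private lemma N2a_supp {f : Pl → ℝ} (hf : ∀ z, f z ≠ 0 → z.1 ^ 2 + z.2 ^ 2 ≤ 3) :
    tsupport f ⊆ {z | z.1 ^ 2 + z.2 ^ 2 ≤ 3} := closure_minimal (fun z hz => hf z hz) N2a_closed

private lemma N2a_compact : IsCompact {z : Pl | z.1 ^ 2 + z.2 ^ 2 ≤ 3} := by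
  refine IsCompact.of_isClosed_subset (isCompact_Icc (a := ((-2, -2) : Pl)) (b := ((2, 2) : Pl))) N2a_closed ?_
  intro z hz
  simp only [Set.mem_setOf_eq] at hz
  rw [Set.mem_Icc, Prod.le_def, Prod.le_def]
  refine ⟨⟨?_, ?_⟩, ⟨?_, ?_⟩⟩ <;> simp only <;> nlinarith [sq_nonneg z.1, sq_nonneg z.2]

private lemma N2a_cutp_zero {z : Pl} (hz : cutp z ≠ 0) : z.1 ^ 2 + z.2 ^ 2 ≤ 3 := by
  by_contra h
  push Not at h
  apply hz
  unfold cutp
  exact Real.smoothTransition.zero_of_nonpos (by linarith)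

private lemma N2a_cutp_one {z : Pl} (hz : z.1 ^ 2 + z.2 ^ 2 ≤ 1) : cutp z = 1 := by
  unfold cutp
  exact Real.smoothTransition.one_of_one_le (by linarith)

private lemma N2a_cutp_cc : Cc cutp :=
  ⟨N2a_cutp_smooth, N2a_compact.of_isClosed_subset (isClosed_tsupport _)
    (N2a_supp fun _ hz => N2a_cutp_zero hz)⟩

/-
`dx (lg s) = - z.1/(|z|²+s²)`, `dy (lg s) = - z.2/(|z|²+s²)`, `lap (lg s) = - 2 s²/(|z|²+s²)²`;
`lap (cutp * lg s) = cutp lap (lg s) + 2 (dx cutp dx (lg s) + dy cutp dy (lg s)) + lg s lap cutp`.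
`cutp = 1` on `|z|² ≤ 1` (hence its derivatives vanish on the open disc), `cutp = 0` for `|z|² ≥ 3`.
Bound for `1 ≤ |z|² ≤ 3`, `s ≤ 1/4`: `|lg s| ≤ 2`, `|dx lg|, |dy lg| ≤ 2`, `|lap lg| ≤ 2`, and the derivatives of `cutp` up to order two are continuous with compact support,
hence bounded.
-/
theorem lgc_facts : ∃ C1 : ℝ, ∀ s : ℝ, 0 < s → s ≤ 1 / 4 →
    Cc (fun z => cutp z * lg s z) ∧
    tsupport (fun z => cutp z * lg s z) ⊆ {z | z.1 ^ 2 + z.2 ^ 2 ≤ 3} ∧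
    (∀ z : Pl, z.1 ^ 2 + z.2 ^ 2 ≤ 1 → cutp z = 1) ∧
    (∀ z : Pl, 0 ≤ cutp z ∧ cutp z ≤ 1) ∧
    (∀ z : Pl, z.1 ^ 2 + z.2 ^ 2 < 1 →
      lap (fun z => cutp z * lg s z) z = -(2 * s ^ 2 / (z.1 ^ 2 + z.2 ^ 2 + s ^ 2) ^ 2)) ∧
    ∀ z : Pl, 1 ≤ z.1 ^ 2 + z.2 ^ 2 → |lap (fun z => cutp z * lg s z) z| ≤ C1 := by
  obtain ⟨B0, hB0, hb0⟩ := N2a_cutp_cc.lap.bdd
  obtain ⟨B1, hB1, hb1⟩ := N2a_cutp_cc.dx.bdd
  obtain ⟨B2, hB2, hb2⟩ := N2a_cutp_cc.dy.bdd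
  have h01 : ∀ z : Pl, 0 ≤ cutp z ∧ cutp z ≤ 1 := fun z =>
    ⟨Real.smoothTransition.nonneg _, Real.smoothTransition.le_one _⟩
  refine ⟨2 + 2 * B0 + 2 * (2 * B1 + 2 * B2), fun s hs hs4 => ?_⟩
  have hlg := N2a_lg_smooth hs
  have hcc : Cc (fun z => cutp z * lg s z) := N2a_cutp_cc.mul hlg
  have hsup : tsupport (fun z => cutp z * lg s z) ⊆ {z | z.1 ^ 2 + z.2 ^ 2 ≤ 3} :=
    N2a_supp fun z hz => N2a_cutp_zero (left_ne_zero_of_mul hz)
  refine ⟨hcc, hsup, fun z hz => N2a_cutp_one hz, h01, fun z hz => ?_, fun z hz => ?_⟩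
  · rw [← N2a_lap_lg hs z]
    apply lap_congr
    have hopen : IsOpen {w : Pl | w.1 ^ 2 + w.2 ^ 2 < 1} := isOpen_lt (by fun_prop) continuous_const
    filter_upwards [hopen.mem_nhds hz] with w hw
    rw [N2a_cutp_one (le_of_lt hw), one_mul]
  · by_cases h3 : z.1 ^ 2 + z.2 ^ 2 ≤ 3
    · have hp := N2a_pos hs z
      have hs2 : s ^ 2 ≤ 1 / 16 := by nlinarith
      have hp1 : 1 ≤ z.1 ^ 2 + z.2 ^ 2 + s ^ 2 := by nlinarith [sq_nonneg s]
      have e0 : |lg s z| ≤ 2 := by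
        unfold lg
        have h4 : 0 ≤ Real.log (z.1 ^ 2 + z.2 ^ 2 + s ^ 2) := Real.log_nonneg hp1
        have h5 : Real.log (z.1 ^ 2 + z.2 ^ 2 + s ^ 2) ≤ z.1 ^ 2 + z.2 ^ 2 + s ^ 2 - 1 :=
          Real.log_le_sub_one_of_pos hp
        rw [abs_mul, abs_of_nonneg h4, abs_neg, abs_of_nonneg (by norm_num : (0 : ℝ) ≤ 1 / 2)]
        linarith
      have e1 : |dx (lg s) z| ≤ 2 := by
        rw [N2a_dx_lg hs, abs_neg, abs_div, abs_of_pos hp, div_le_iff₀ hp]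
        have h4 : |z.1| ≤ 2 := by
          rw [abs_le]
          constructor <;> nlinarith [sq_nonneg z.1, sq_nonneg z.2]
        linarith
      have e2 : |dy (lg s) z| ≤ 2 := by
        rw [N2a_dy_lg hs, abs_neg, abs_div, abs_of_pos hp, div_le_iff₀ hp]
        have h4 : |z.2| ≤ 2 := by
          rw [abs_le]
          constructor <;> nlinarith [sq_nonneg z.1, sq_nonneg z.2]
        linarith
      have e3 : |lap (lg s) z| ≤ 2 := by
        rw [N2a_lap_lg hs, abs_neg, abs_div, abs_of_nonneg (by positivity : (0 : ℝ) ≤ 2 * s ^ 2),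
          abs_of_nonneg (by positivity : (0 : ℝ) ≤ (z.1 ^ 2 + z.2 ^ 2 + s ^ 2) ^ 2),
          div_le_iff₀ (by positivity)]
        nlinarith
      rw [lap_mul N2a_cutp_smooth hlg]
      have f1 : |cutp z * lap (lg s) z| ≤ 2 := by
        rw [abs_mul, abs_of_nonneg (h01 z).1]
        calc cutp z * |lap (lg s) z| ≤ 1 * 2 :=
              mul_le_mul (h01 z).2 e3 (abs_nonneg _) zero_le_one
          _ = 2 := one_mul _
      have f2 : |lg s z * lap cutp z| ≤ 2 * B0 := by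
        rw [abs_mul]
        exact mul_le_mul e0 (hb0 z) (abs_nonneg _) zero_le_two
      have f3 : |dx cutp z * dx (lg s) z| ≤ 2 * B1 := by
        rw [abs_mul, mul_comm]
        exact mul_le_mul e1 (hb1 z) (abs_nonneg _) zero_le_two
      have f4 : |dy cutp z * dy (lg s) z| ≤ 2 * B2 := by
        rw [abs_mul, mul_comm]
        exact mul_le_mul e2 (hb2 z) (abs_nonneg _) zero_le_two
      have g1 := abs_le.1 f1
      have g2 := abs_le.1 f2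
      have g3 := abs_le.1 f3
      have g4 := abs_le.1 f4
      rw [abs_le]
      constructor <;> linarith
    · have h4 : z ∉ tsupport (fun z => cutp z * lg s z) := fun h => h3 (hsup h)
      have h5 : lap (fun z => cutp z * lg s z) z = 0 := by
        by_contra h6
        exact h4 (tsupport_lap _ (subset_tsupport _ h6))
      rw [h5, abs_zero]
      positivity

end GF
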