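import Pool.Agent.Helper34.GF.N2a

/-!
N2b.  Near point masses.
-/

open MeasureTheory Filter Topology ProbabilityTheory

namespace GF

private lemma N2b_contDiff_dx {f : Pl → ℝ} (hf : ContDiff ℝ (⊤ : ℕ∞) f) :
    ContDiff ℝ (⊤ : ℕ∞) (dx f) := by
  unfold dx
  exact (hf.fderiv_right (m := (⊤ : ℕ∞)) (by simp)).clm_apply contDiff_const

private lemma N2b_contDiff_dy {f : Pl → ℝ} (hf : ContDiff ℝ (⊤ : ℕ∞) f) :
    ContDiff ℝ (⊤ : ℕ∞) (dy f) := by
  unfold dy
  exact (hf.fderiv_right (m := (⊤ : ℕ∞)) (by simp)).clm_apply contDiff_const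

private lemma N2b_tsupport_dx (f : Pl → ℝ) : tsupport (dx f) ⊆ tsupport f := by
  refine subset_trans ?_ (tsupport_fderiv_subset ℝ (f := f))
  refine closure_mono ?_
  intro z hz
  rw [Function.mem_support] at hz ⊢
  intro h
  apply hz
  unfold dx
  rw [h]
  rfl

private lemma N2b_tsupport_dy (f : Pl → ℝ) : tsupport (dy f) ⊆ tsupport f := by
  refine subset_trans ?_ (tsupport_fderiv_subset ℝ (f := f))
  refine closure_mono ?_
  intro z hz
  rw [Function.mem_support] at hz ⊢
  intro h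
  apply hz
  unfold dy
  rw [h]
  rfl

private lemma N2b_lap_zero {f : Pl → ℝ} {z : Pl} (hz : z ∉ tsupport f) : lap f z = 0 := by
  have h1 : dx (dx f) z = 0 :=
    image_eq_zero_of_notMem_tsupport (fun h => hz (N2b_tsupport_dx f (N2b_tsupport_dx _ h)))
  have h2 : dy (dy f) z = 0 :=
    image_eq_zero_of_notMem_tsupport (fun h => hz (N2b_tsupport_dy f (N2b_tsupport_dy _ h)))
  unfold lap
  rw [h1, h2, add_zero]

private lemma N2b_lap_cont {f : Pl → ℝ} (hf : Cc f) : Continuous (lap f) := by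
  have h1 := (N2b_contDiff_dx (N2b_contDiff_dx hf.smooth)).continuous
  have h2 := (N2b_contDiff_dy (N2b_contDiff_dy hf.smooth)).continuous
  exact h1.add h2

private lemma N2b_lap_supp {f : Pl → ℝ} (hf : Cc f) : HasCompactSupport (lap f) := by
  refine HasCompactSupport.intro hf.supp.isCompact ?_
  intro z hz
  exact N2b_lap_zero hz

/-- the one dimensional kernel -/
private noncomputable def N2b_p (s x : ℝ) : ℝ := s / (x ^ 2 + s ^ 2)

private lemma N2b_p_eq {s : ℝ} (hs : 0 < s) (x : ℝ) :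
    N2b_p s x = s⁻¹ * (1 + (x / s) ^ 2)⁻¹ := by
  unfold N2b_p
  have h1 : 0 < x ^ 2 + s ^ 2 := by positivity
  have h2 : 0 < 1 + (x / s) ^ 2 := by positivity
  field_simp
  ring

private lemma N2b_p_int {s : ℝ} (hs : 0 < s) : Integrable (N2b_p s) := by
  have h1 : Integrable (fun x : ℝ => (1 + x ^ 2)⁻¹) := integrable_inv_one_add_sq
  have h2 : Integrable (fun x : ℝ => s⁻¹ * (1 + (x / s) ^ 2)⁻¹) :=
    (h1.comp_div hs.ne').const_mul _
  exact h2.congr (Filter.Eventually.of_forall (fun x => (N2b_p_eq hs x).symm))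

private lemma N2b_p_integral {s : ℝ} (hs : 0 < s) : ∫ x, N2b_p s x = Real.pi := by
  have h1 : ∀ x, N2b_p s x = s⁻¹ * (1 + (x / s) ^ 2)⁻¹ := N2b_p_eq hs
  simp only [h1]
  rw [integral_const_mul]
  have h2 := MeasureTheory.Measure.integral_comp_div (fun x : ℝ => (1 + x ^ 2)⁻¹) s
  rw [h2, integral_univ_inv_one_add_sq, abs_of_pos hs, smul_eq_mul, ← mul_assoc,
    inv_mul_cancel₀ hs.ne', one_mul]

/-- the two dimensional kernel -/
private noncomputable def N2b_k (s : ℝ) (z : Pl) : ℝ := 2 * (N2b_p s z.1 * N2b_p s z.2)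

private lemma N2b_k_int {s : ℝ} (hs : 0 < s) : Integrable (N2b_k s) :=
  ((N2b_p_int hs).mul_prod (N2b_p_int hs)).const_mul 2

private lemma N2b_k_integral {s : ℝ} (hs : 0 < s) : ∫ z, N2b_k s z = 2 * Real.pi ^ 2 := by
  unfold N2b_k
  rw [integral_const_mul]
  have h1 := integral_prod_mul (μ := (volume : Measure ℝ)) (ν := (volume : Measure ℝ))
    (N2b_p s) (N2b_p s)
  rw [← MeasureTheory.Measure.volume_eq_prod] at h1
  rw [h1, N2b_p_integral hs]
  ring

private lemma N2b_p_nonneg {s : ℝ} (hs : 0 < s) (x : ℝ) : 0 ≤ N2b_p s x := by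
  unfold N2b_p
  positivity

private lemma N2b_k_nonneg {s : ℝ} (hs : 0 < s) (z : Pl) : 0 ≤ N2b_k s z := by
  have h1 := N2b_p_nonneg hs z.1
  have h2 := N2b_p_nonneg hs z.2
  unfold N2b_k
  positivity

private lemma N2b_h_le {s : ℝ} (hs : 0 < s) (z : Pl) :
    2 * s ^ 2 / (z.1 ^ 2 + z.2 ^ 2 + s ^ 2) ^ 2 ≤ N2b_k s z := by
  have h1 : 0 < z.1 ^ 2 + s ^ 2 := by positivity
  have h2 : 0 < z.2 ^ 2 + s ^ 2 := by positivity
  have h3 : N2b_k s z = 2 * s ^ 2 / ((z.1 ^ 2 + s ^ 2) * (z.2 ^ 2 + s ^ 2)) := by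
    unfold N2b_k N2b_p
    field_simp
  rw [h3]
  apply div_le_div_of_nonneg_left (by positivity) (by positivity)
  nlinarith [sq_nonneg z.1, sq_nonneg z.2, sq_nonneg s, mul_nonneg (sq_nonneg z.1) (sq_nonneg z.2),
    mul_nonneg (sq_nonneg z.1) (sq_nonneg s), mul_nonneg (sq_nonneg z.2) (sq_nonneg s),
    sq_nonneg (z.1 ^ 2), sq_nonneg (z.2 ^ 2)]

/-- squares -/
private def N2b_Q (a : ℝ) : Set Pl := Set.Icc (-a) a ×ˢ Set.Icc (-a) a

private lemma N2b_Q_meas (a : ℝ) : MeasurableSet (N2b_Q a) :=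
  measurableSet_Icc.prod measurableSet_Icc

private lemma N2b_Q_vol {a : ℝ} (ha : 0 ≤ a) :
    volume (N2b_Q a) = ENNReal.ofReal (4 * a ^ 2) := by
  unfold N2b_Q
  rw [MeasureTheory.Measure.volume_eq_prod, MeasureTheory.Measure.prod_prod, Real.volume_Icc,
    ← ENNReal.ofReal_mul (by linarith)]
  congr 1
  ring

private lemma N2b_Q_int {a : ℝ} (ha : 0 ≤ a) (c : ℝ) :
    Integrable ((N2b_Q a).indicator (fun _ => c)) := by
  rw [integrable_indicator_iff (N2b_Q_meas a)]
  refine integrableOn_const ?_ ?_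
  · rw [N2b_Q_vol ha]
    exact ENNReal.ofReal_ne_top
  · exact ENNReal.coe_ne_top

private lemma N2b_Q_integral {a : ℝ} (ha : 0 ≤ a) (c : ℝ) :
    ∫ z, (N2b_Q a).indicator (fun _ => c) z = 4 * a ^ 2 * c := by
  rw [integral_indicator_const c (N2b_Q_meas a), measureReal_def, N2b_Q_vol ha,
    ENNReal.toReal_ofReal (by positivity), smul_eq_mul]

/-
`g z = cutp z * lg s z`, `0 < s ≤ 1/4`, `s` small.
`∫ |lap g| ≤ ∫_{|z|²<1} 2 s²/(|z|²+s²)² + C1 * 16`; scaling `z = s w`: the first term is `≤ ∫_ℝ² 2/(|w|²+1)² dw`, finite because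
`(1 + w1² + w2²)² ≥ (1 + w1²)(1 + w2²)` (`integrable_inv_one_add_sq`, products); the measure of `{|z|² ≤ 3} ⊆ [-2,2]²` is `≤ 16`.
(Without scaling: `(|z|²+s²)² ≥ (z1²+s²)(z2²+s²)`, `∫ s/(x²+s²) dx = π`, so the first term is `≤ 2 π²`.)
Lower bound of `- ∫ g lap g`: on `|z|² < 1`, `g = lg s ≥ - (1/2) log 2` and `- lap g = 2 s²/(|z|²+s²)² ≥ 0`;
on `{|z1|, |z2| ≤ s/2}`, `g ≥ -(1/2) log (2 s²)` and `-lap g ≥ 2 s² / (4 s⁴) = 1 / (2 s²)`, area `s²`; so this part is `≥ - (1/4) log (2 s²)`, which tends to `∞`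
as `s → 0`; the rest is `≥ - (1/2) log 2 * 2π² - 2 C1 * 16` (`|g| ≤ 2` for `1 ≤ |z|² ≤ 3`).
-/
theorem near_point : ∃ C0 : ℝ, ∀ A : ℝ, ∃ g : Pl → ℝ, Cc g ∧
    tsupport g ⊆ Set.Icc (-2) 2 ×ˢ Set.Icc (-2) 2 ∧ ∫ z, |lap g z| ≤ C0 ∧ A ≤ - ∫ z, g z * lap g z := by
  obtain ⟨C1, hC⟩ := lgc_facts
  have hC1 : 0 ≤ C1 := by
    obtain ⟨-, -, -, -, -, h⟩ := hC (1 / 4) (by norm_num) le_rfl
    exact (abs_nonneg _).trans (h (1, 0) (by norm_num))
  refine ⟨2 * Real.pi ^ 2 + 16 * C1, fun A => ?_⟩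
  set B : ℝ := A + 1 / 2 * Real.log 2 * (2 * Real.pi ^ 2) + 16 * C1 with hB
  set s : ℝ := Real.exp (-(2 * |B| + 2)) with hsdef
  have hs : 0 < s := Real.exp_pos _
  have hs4 : s ≤ 1 / 4 := by
    have h1 : (2 : ℝ) ≤ Real.exp 1 := by
      have := Real.add_one_le_exp (1 : ℝ)
      linarith
    have h2 : (4 : ℝ) ≤ Real.exp 2 := by
      have h3 : Real.exp 2 = Real.exp 1 * Real.exp 1 := by
        rw [← Real.exp_add]
        norm_num
      rw [h3]
      nlinarith
    have h3 : s ≤ Real.exp (-2) := by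
      apply Real.exp_le_exp.2
      have := abs_nonneg B
      linarith
    have h4 : Real.exp (-2) ≤ 1 / 4 := by
      rw [Real.exp_neg, ← one_div]
      exact one_div_le_one_div_of_le (by norm_num) h2
    exact h3.trans h4
  have hl2 : 0 < Real.log 2 := Real.log_pos (by norm_num)
  have hl2' : Real.log 2 ≤ 1 := by
    have := Real.log_le_sub_one_of_pos (show (0 : ℝ) < 2 by norm_num)
    linarith
  have hlog : |B| ≤ -(1 / 4) * Real.log (2 * s ^ 2) := by
    rw [Real.log_mul (by norm_num) (by positivity), Real.log_pow, hsdef, Real.log_exp]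
    push_cast
    linarith
  have hlog0 : Real.log (2 * s ^ 2) ≤ 0 := by
    have := abs_nonneg B
    linarith
  obtain ⟨hCc, hsup, hcut1, hcut, hlap1, hlap2⟩ := hC s hs hs4
  set g : Pl → ℝ := fun z => cutp z * lg s z with hg
  have hsq : tsupport g ⊆ N2b_Q 2 := by
    intro z hz
    have h1 : z.1 ^ 2 + z.2 ^ 2 ≤ 3 := hsup hz
    have h2 : |z.1| ≤ 2 := abs_le_of_sq_le_sq (by nlinarith [sq_nonneg z.2]) (by norm_num)
    have h3 : |z.2| ≤ 2 := abs_le_of_sq_le_sq (by nlinarith [sq_nonneg z.1]) (by norm_num)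
    exact ⟨abs_le.1 h2, abs_le.1 h3⟩
  have hLint : Integrable (lap g) := (N2b_lap_cont hCc).integrable_of_hasCompactSupport
    (N2b_lap_supp hCc)
  have hgLint : Integrable (fun z => g z * lap g z) := by
    refine Continuous.integrable_of_hasCompactSupport ?_ ?_
    · exact hCc.smooth.continuous.mul (N2b_lap_cont hCc)
    · exact (N2b_lap_supp hCc).mul_left
  have hind : ∀ (a c : ℝ) (z : Pl), 0 ≤ c → 0 ≤ (N2b_Q a).indicator (fun _ => c) z := by
    intro a c z hc
    exact Set.indicator_nonneg (fun _ _ => hc) z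
  refine ⟨g, hCc, hsq, ?_, ?_⟩
  · have h1 : ∫ z, |lap g z| ≤ ∫ z, (N2b_k s z + (N2b_Q 2).indicator (fun _ => C1) z) := by
      refine integral_mono hLint.abs ((N2b_k_int hs).add (N2b_Q_int (by norm_num) C1)) ?_
      intro z
      show |lap g z| ≤ N2b_k s z + (N2b_Q 2).indicator (fun _ => C1) z
      rcases lt_or_ge (z.1 ^ 2 + z.2 ^ 2) 1 with h | h
      · rw [hlap1 z h, abs_neg, abs_of_nonneg (by positivity)]
        have h2 := N2b_h_le hs z
        have h3 := hind 2 C1 z hC1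
        linarith
      · have h3 := N2b_k_nonneg hs z
        by_cases hz : z ∈ N2b_Q 2
        · rw [Set.indicator_of_mem hz]
          have := hlap2 z h
          linarith
        · rw [Set.indicator_of_notMem hz, N2b_lap_zero (fun h => hz (hsq h)), abs_zero]
          linarith
    refine h1.trans (le_of_eq ?_)
    rw [integral_add (N2b_k_int hs) (N2b_Q_int (by norm_num) C1), N2b_k_integral hs,
      N2b_Q_integral (by norm_num) C1]
    ring
  · set c : ℝ := -(1 / 4) * Real.log (2 * s ^ 2) / s ^ 2 with hc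
    have hc0 : 0 ≤ c := by
      rw [hc]
      apply div_nonneg _ (by positivity)
      linarith [abs_nonneg B]
    have h1 : ∫ z, ((N2b_Q (s / 2)).indicator (fun _ => c) z - 1 / 2 * Real.log 2 * N2b_k s z -
        (N2b_Q 2).indicator (fun _ => C1) z) ≤ ∫ z, -(g z * lap g z) := by
      refine integral_mono (((N2b_Q_int (by positivity) c).sub
        ((N2b_k_int hs).const_mul _)).sub (N2b_Q_int (by norm_num) C1)) hgLint.neg ?_
      intro z
      show (N2b_Q (s / 2)).indicator (fun _ => c) z - 1 / 2 * Real.log 2 * N2b_k s z -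
        (N2b_Q 2).indicator (fun _ => C1) z ≤ -(g z * lap g z)
      have hk := N2b_k_nonneg hs z
      have hk' : 0 ≤ 1 / 2 * Real.log 2 * N2b_k s z := by positivity
      have hi := hind 2 C1 z hC1
      rcases lt_or_ge (z.1 ^ 2 + z.2 ^ 2) 1 with h | h
      · have hgz : g z = -(1 / 2) * Real.log (z.1 ^ 2 + z.2 ^ 2 + s ^ 2) := by
          rw [hg]
          simp only
          rw [hcut1 z h.le, one_mul]
          rfl
        have hR : 0 < z.1 ^ 2 + z.2 ^ 2 + s ^ 2 := by positivity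
        rw [hlap1 z h, mul_neg, neg_neg]
        by_cases hz : z ∈ N2b_Q (s / 2)
        · rw [Set.indicator_of_mem hz]
          obtain ⟨⟨ha1, ha2⟩, ⟨hb1, hb2⟩⟩ := hz
          have hz1 : z.1 ^ 2 ≤ (s / 2) ^ 2 := by nlinarith
          have hz2 : z.2 ^ 2 ≤ (s / 2) ^ 2 := by nlinarith
          have hR2 : z.1 ^ 2 + z.2 ^ 2 + s ^ 2 ≤ 2 * s ^ 2 := by nlinarith
          have hl : Real.log (z.1 ^ 2 + z.2 ^ 2 + s ^ 2) ≤ Real.log (2 * s ^ 2) :=
            Real.log_le_log hR hR2
          have hg1 : -(1 / 2) * Real.log (2 * s ^ 2) ≤ g z := by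
            rw [hgz]
            linarith
          have hh : 2 * s ^ 2 / (2 * s ^ 2) ^ 2 ≤ 2 * s ^ 2 / (z.1 ^ 2 + z.2 ^ 2 + s ^ 2) ^ 2 := by
            apply div_le_div_of_nonneg_left (by positivity) (by positivity)
            exact pow_le_pow_left₀ hR.le hR2 2
          have hcc : c = -(1 / 2) * Real.log (2 * s ^ 2) * (2 * s ^ 2 / (2 * s ^ 2) ^ 2) := by
            rw [hc]
            field_simp
            ring
          have hmul : -(1 / 2) * Real.log (2 * s ^ 2) * (2 * s ^ 2 / (2 * s ^ 2) ^ 2) ≤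
              g z * (2 * s ^ 2 / (z.1 ^ 2 + z.2 ^ 2 + s ^ 2) ^ 2) := by
            apply mul_le_mul hg1 hh (by positivity)
            linarith
          rw [← hcc] at hmul
          linarith
        · rw [Set.indicator_of_notMem hz]
          have hR2 : z.1 ^ 2 + z.2 ^ 2 + s ^ 2 ≤ 2 := by nlinarith
          have hl : Real.log (z.1 ^ 2 + z.2 ^ 2 + s ^ 2) ≤ Real.log 2 := Real.log_le_log hR hR2
          have hg1 : -(1 / 2) * Real.log 2 ≤ g z := by
            rw [hgz]
            linarith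
          have hh0 : 0 ≤ 2 * s ^ 2 / (z.1 ^ 2 + z.2 ^ 2 + s ^ 2) ^ 2 := by positivity
          have hh := N2b_h_le hs z
          have hm1 := mul_le_mul_of_nonneg_right hg1 hh0
          have hm2 := mul_le_mul_of_nonneg_left hh (show 0 ≤ 1 / 2 * Real.log 2 by positivity)
          linarith
      · have hzQ : z ∉ N2b_Q (s / 2) := by
          rintro ⟨⟨ha1, ha2⟩, ⟨hb1, hb2⟩⟩
          nlinarith
        rw [Set.indicator_of_notMem hzQ]
        rcases le_or_gt (z.1 ^ 2 + z.2 ^ 2) 3 with h3 | h3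
        · have hz2 : z ∈ N2b_Q 2 := by
            have h2 : |z.1| ≤ 2 := abs_le_of_sq_le_sq (by nlinarith [sq_nonneg z.2]) (by norm_num)
            have h3 : |z.2| ≤ 2 := abs_le_of_sq_le_sq (by nlinarith [sq_nonneg z.1]) (by norm_num)
            exact ⟨abs_le.1 h2, abs_le.1 h3⟩
          rw [Set.indicator_of_mem hz2]
          have hlg : |lg s z| ≤ 1 := by
            unfold lg
            have hR1 : 1 ≤ z.1 ^ 2 + z.2 ^ 2 + s ^ 2 := by nlinarith [sq_nonneg s]
            have hR4 : z.1 ^ 2 + z.2 ^ 2 + s ^ 2 ≤ 2 ^ 2 := by nlinarith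
            have h0 := Real.log_nonneg hR1
            have h4 : Real.log (z.1 ^ 2 + z.2 ^ 2 + s ^ 2) ≤ Real.log (2 ^ 2) :=
              Real.log_le_log (by linarith) hR4
            rw [Real.log_pow] at h4
            push_cast at h4
            rw [abs_le]
            constructor <;> linarith
          have hgz : |g z| ≤ 1 := by
            rw [hg]
            simp only
            rw [abs_mul, abs_of_nonneg (hcut z).1]
            calc cutp z * |lg s z| ≤ 1 * 1 := mul_le_mul (hcut z).2 hlg (abs_nonneg _) (by norm_num)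
              _ = 1 := one_mul 1
          have hLz := hlap2 z h
          have hprod : |g z * lap g z| ≤ 1 * C1 := by
            rw [abs_mul]
            exact mul_le_mul hgz hLz (abs_nonneg _) (by norm_num)
          have := (abs_le.1 hprod).2
          linarith
        · have hgz : g z = 0 := by
            apply image_eq_zero_of_notMem_tsupport
            intro hz
            have : z.1 ^ 2 + z.2 ^ 2 ≤ 3 := hsup hz
            linarith
          rw [hgz, zero_mul, neg_zero]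
          linarith
    rw [integral_neg] at h1
    refine le_trans ?_ h1
    have i0 : Integrable (fun z => (N2b_Q (s / 2)).indicator (fun _ => c) z) :=
      N2b_Q_int (by positivity) c
    have i1 : Integrable (fun z => 1 / 2 * Real.log 2 * N2b_k s z) :=
      (N2b_k_int hs).const_mul _
    have i2 : Integrable (fun z => (N2b_Q 2).indicator (fun _ => C1) z) :=
      N2b_Q_int (by norm_num) C1
    have i3 : Integrable (fun z => (N2b_Q (s / 2)).indicator (fun _ => c) z -
        1 / 2 * Real.log 2 * N2b_k s z) := i0.sub i1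
    rw [integral_sub i3 i2, integral_sub i0 i1, integral_const_mul, N2b_k_integral hs,
      N2b_Q_integral (by positivity) c, N2b_Q_integral (by norm_num) C1]
    have hcs : 4 * (s / 2) ^ 2 * c = -(1 / 4) * Real.log (2 * s ^ 2) := by
      rw [hc]
      field_simp
      ring
    rw [hcs]
    have h5 : B ≤ |B| := le_abs_self B
    rw [hB] at h5 hlog
    linarith

end GF
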