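import Pool.Agent.Helper34.GF.N2b

/-!
N2c.  Orthonormal neutral charges with small L1 norm.
-/

open MeasureTheory Filter Topology ProbabilityTheory

namespace GF

private lemma N2c_dx (f : Pl → ℝ) (a : Pl) :
    dx (fun z => f (z - a)) = fun z => dx f (z - a) := by
  funext z
  unfold dx
  rw [fderiv_comp_sub]

private lemma N2c_dy (f : Pl → ℝ) (a : Pl) :
    dy (fun z => f (z - a)) = fun z => dy f (z - a) := by
  funext z
  unfold dy
  rw [fderiv_comp_sub]

private lemma N2c_lap (f : Pl → ℝ) (a : Pl) :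
    lap (fun z => f (z - a)) = fun z => lap f (z - a) := by
  funext z
  unfold lap
  rw [N2c_dx, N2c_dy, N2c_dx, N2c_dy]

private lemma N2c_supp (f : Pl → ℝ) {z : Pl} (h : lap f z ≠ 0) : z ∈ tsupport f := by
  by_contra hz
  have h1 : dx (dx f) z = 0 := by
    by_contra h2
    exact hz (tsupport_fderiv_apply_subset ℝ (f := f) (1, 0)
      (tsupport_fderiv_apply_subset ℝ (f := dx f) (1, 0) (subset_tsupport _ h2)))
  have h3 : dy (dy f) z = 0 := by
    by_contra h2
    exact hz (tsupport_fderiv_apply_subset ℝ (f := f) (0, 1)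
      (tsupport_fderiv_apply_subset ℝ (f := dy f) (0, 1) (subset_tsupport _ h2)))
  apply h
  unfold lap
  rw [h1, h3, add_zero]

private lemma N2c_Cc {f : Pl → ℝ} (hf : Cc f) (c : ℝ) (a : Pl) : Cc (fun z => c * f (z - a)) := by
  refine ⟨?_, ?_⟩
  · exact contDiff_const.mul (hf.smooth.comp (contDiff_id.sub contDiff_const))
  · have h := hf.supp.comp_homeomorph (Homeomorph.subRight a)
    exact h.mul_left (f := fun _ => c)

/-
`g j z = g0 (z.1 - 5 j, z.2) / √A`, where `A = - ∫ g0 lap g0` is large; `energy2 (lap (g i)) (lap (g j)) = - ∫ g i * lap (g j)`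
(`E.lapl`), which is `0` for `i ≠ j` (disjoint supports: `g i` lives in `|z.1 - 5 i| ≤ 2`) and `1` for `i = j`
(translation invariance of the integral); `lap` commutes with translations and scalars; `∫ |lap (g j)| = ∫ |lap g0| / √A ≤ C0 / √A ≤ ε`.
-/
theorem orthonormal_small (E : EnergyFacts) (n : ℕ) (ε : ℝ) (hε : 0 < ε) : ∃ g : Fin n → Pl → ℝ, (∀ j, Cc (g j)) ∧
      (∀ i j, energy2 (lap (g i)) (lap (g j)) = if i = j then 1 else 0) ∧
      ∀ j, ∫ z, |lap (g j) z| ≤ ε := by
  obtain ⟨C0, hC0⟩ := near_point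
  obtain ⟨g0, hg0, hs0, hL1, hA⟩ := hC0 ((C0 / ε) ^ 2 + 1)
  set A : ℝ := - ∫ z, g0 z * lap g0 z with hAdef
  have hA1 : 1 ≤ A := by nlinarith [sq_nonneg (C0 / ε)]
  have hA0 : 0 < A := by linarith
  have hsq : 0 < Real.sqrt A := Real.sqrt_pos.2 hA0
  set c : ℝ := 1 / Real.sqrt A with hc
  have hc0 : 0 < c := by positivity
  have hcc : c * c * A = 1 := by
    rw [hc]
    field_simp
    rw [Real.sq_sqrt hA0.le]
  have hCε : C0 ≤ ε * Real.sqrt A := by
    have h1 : C0 / ε ≤ Real.sqrt A := by
      refine Real.le_sqrt_of_sq_le ?_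
      linarith
    rw [div_le_iff₀ hε] at h1
    linarith
  set a : Fin n → Pl := fun j => (5 * (j : ℝ), 0) with ha
  set g : Fin n → Pl → ℝ := fun j z => c * g0 (z - a j) with hg
  have hgC : ∀ j, Cc (g j) := fun j => N2c_Cc hg0 c (a j)
  have htC : ∀ j, Cc (fun z => g0 (z - a j)) := by
    intro j
    have h := N2c_Cc hg0 1 (a j)
    simpa only [one_mul] using h
  have hlap : ∀ j, lap (g j) = fun z => c * lap g0 (z - a j) := by
    intro j
    have h := E.lap_smul c _ (htC j)
    rw [N2c_lap] at h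
    exact h
  refine ⟨g, hgC, fun i j => ?_, fun j => ?_⟩
  · rw [E.lapl (g i) (lap (g j)) (hgC i) (E.ne_lap (g j) (hgC j)).toCc, hlap]
    split_ifs with hij
    · subst hij
      have h1 : ∫ z, g i z * (c * lap g0 (z - a i)) =
          ∫ z, (fun w => c * g0 w * (c * lap g0 w)) (z - a i) := rfl
      rw [h1, integral_sub_right_eq_self (fun w => c * g0 w * (c * lap g0 w)) (a i)]
      have h2 : ∫ w, c * g0 w * (c * lap g0 w) = c * c * ∫ w, g0 w * lap g0 w := by
        rw [← integral_const_mul]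
        refine integral_congr_ae (Eventually.of_forall fun w => ?_)
        ring
      rw [h2, ← mul_neg]
      exact hcc
    · have h1 : ∀ z, g i z * (c * lap g0 (z - a j)) = 0 := by
        intro z
        by_contra h
        have h2 : g0 (z - a i) ≠ 0 := fun h3 => h (by simp [hg, h3])
        have h3 : lap g0 (z - a j) ≠ 0 := fun h3 => h (by simp [h3])
        have h4 := (hs0 (subset_tsupport _ h2)).1
        have h5 := (hs0 (N2c_supp g0 h3)).1
        have h6 : (z - a i).1 = z.1 - 5 * (i : ℝ) := rfl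
        have h7 : (z - a j).1 = z.1 - 5 * (j : ℝ) := rfl
        rw [h6, Set.mem_Icc] at h4
        rw [h7, Set.mem_Icc] at h5
        apply hij
        rcases lt_trichotomy i j with h8 | h8 | h8
        · exfalso
          have h9 : ((i : ℕ) : ℝ) + 1 ≤ (j : ℕ) := by exact_mod_cast h8
          linarith [h4.1, h4.2, h5.1, h5.2]
        · exact h8
        · exfalso
          have h9 : ((j : ℕ) : ℝ) + 1 ≤ (i : ℕ) := by exact_mod_cast h8
          linarith [h4.1, h4.2, h5.1, h5.2]
      simp only [h1, integral_zero, neg_zero]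
  · rw [hlap]
    have h1 : ∫ z, |c * lap g0 (z - a j)| = ∫ z, (fun w => |c * lap g0 w|) (z - a j) := rfl
    rw [h1, integral_sub_right_eq_self (fun w => |c * lap g0 w|) (a j)]
    have h2 : ∫ w, |c * lap g0 w| = c * ∫ w, |lap g0 w| := by
      rw [← integral_const_mul]
      refine integral_congr_ae (Eventually.of_forall fun w => ?_)
      simp only
      rw [abs_mul, abs_of_pos hc0]
    rw [h2]
    calc c * ∫ w, |lap g0 w| ≤ c * (ε * Real.sqrt A) :=
          mul_le_mul_of_nonneg_left (hL1.trans hCε) hc0.le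
      _ = ε := by
          rw [hc]
          field_simp

end GF
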