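import Mathlib

/-!
N3a.  Products of cosines.
-/

open MeasureTheory Filter Topology ProbabilityTheory

namespace GF

private theorem N3a_one (θ : ℝ) : |Real.cos θ - Real.exp (-(1 / 2) * θ ^ 2)| ≤ θ ^ 4 := by
  rcases le_total |θ| 1 with h | h
  · have h1 := Real.cos_bound h
    have h2 : θ ^ 2 ≤ 1 := by
      rw [← sq_abs]
      nlinarith [abs_nonneg θ]
    have h3 : |-(1 / 2) * θ ^ 2| ≤ 1 := by
      rw [abs_le]
      constructor <;> nlinarith [sq_nonneg θ]
    have h4 := Real.abs_exp_sub_one_sub_id_le h3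
    have h5 : |θ| ^ 4 = θ ^ 4 := by
      rw [show |θ| ^ 4 = (|θ| ^ 2) ^ 2 by ring, sq_abs]
      ring
    rw [h5] at h1
    rw [abs_le] at h1 h4 ⊢
    have h6 : 0 ≤ θ ^ 4 := by positivity
    have h7 : (-(1 / 2) * θ ^ 2) ^ 2 = θ ^ 4 / 4 := by ring
    rw [h7] at h4
    constructor <;> nlinarith [h1.1, h1.2, h4.1, h4.2]
  · have h2 : 1 ≤ θ ^ 2 := by
      rw [← sq_abs]
      nlinarith
    have h6 : θ ^ 2 ≤ θ ^ 4 := by nlinarith [sq_nonneg θ]
    have h1 := Real.one_sub_sq_div_two_le_cos (x := θ)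
    have h3 := Real.cos_le_one θ
    have h4 : Real.exp (-(1 / 2) * θ ^ 2) ≤ 1 := Real.exp_le_one_iff.2 (by nlinarith)
    have h5 := Real.exp_pos (-(1 / 2) * θ ^ 2)
    rw [abs_le]
    constructor <;> nlinarith

private theorem N3a_prod {ι : Type*} (s : Finset ι) (a b : ι → ℝ) (ha : ∀ i ∈ s, |a i| ≤ 1)
    (hb : ∀ i ∈ s, |b i| ≤ 1) : |∏ i ∈ s, a i - ∏ i ∈ s, b i| ≤ ∑ i ∈ s, |a i - b i| := by
  classical
  induction s using Finset.induction_on with
  | empty => simp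
  | insert i s hi ih =>
    have ih' := ih (fun j hj => ha j (Finset.mem_insert_of_mem hj))
      (fun j hj => hb j (Finset.mem_insert_of_mem hj))
    rw [Finset.prod_insert hi, Finset.prod_insert hi, Finset.sum_insert hi]
    have h1 : |∏ j ∈ s, b j| ≤ 1 := by
      rw [Finset.abs_prod]
      exact Finset.prod_le_one (fun j _ => abs_nonneg _)
        (fun j hj => hb j (Finset.mem_insert_of_mem hj))
    have h2 : a i * ∏ j ∈ s, a j - b i * ∏ j ∈ s, b j =
        a i * (∏ j ∈ s, a j - ∏ j ∈ s, b j) + (a i - b i) * ∏ j ∈ s, b j := by ring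
    rw [h2]
    refine (abs_add_le _ _).trans ?_
    rw [abs_mul, abs_mul]
    have h3 := ha i (Finset.mem_insert_self i s)
    have h4 : |a i| * |∏ j ∈ s, a j - ∏ j ∈ s, b j| ≤ 1 * ∑ j ∈ s, |a j - b j| :=
      mul_le_mul h3 ih' (abs_nonneg _) zero_le_one
    have h5 : |a i - b i| * |∏ j ∈ s, b j| ≤ |a i - b i| * 1 :=
      mul_le_mul_of_nonneg_left h1 (abs_nonneg _)
    linarith

private theorem N3a_sign (n : ℕ) : ∀ (θ : Fin n → ℝ) (a : ℝ),
    ∑ s : Fin n → Bool, Real.cos (a + ∑ j, (if s j then 1 else -1) * θ j) =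
      2 ^ n * Real.cos a * ∏ j, Real.cos (θ j) := by
  induction n with
  | zero =>
    intro θ a
    simp
  | succ n ih =>
    intro θ a
    rw [← Equiv.sum_comp (Fin.consEquiv (fun _ => Bool)), Fintype.sum_prod_type]
    rw [Fintype.sum_bool]
    have h1 : ∀ (b : Bool) (s : Fin n → Bool),
        a + ∑ j, (if (Fin.consEquiv (fun _ => Bool)) (b, s) j then (1 : ℝ) else -1) * θ j =
          (a + (if b then (1 : ℝ) else -1) * θ 0) +
            ∑ j, (if s j then (1 : ℝ) else -1) * θ (Fin.succ j) := by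
      intro b s
      rw [Fin.sum_univ_succ]
      simp only [Fin.consEquiv_apply, Fin.cons_zero, Fin.cons_succ]
      ring
    simp only [h1]
    rw [ih (fun j => θ (Fin.succ j)), ih (fun j => θ (Fin.succ j)), Fin.prod_univ_succ]
    simp only [if_true]
    rw [if_neg (by simp), Real.cos_add, Real.cos_add]
    simp only [one_mul, neg_mul, Real.cos_neg, Real.sin_neg]
    ring

/-- `|cos θ - exp (-θ²/2)| ≤ θ⁴` (both are `1 - θ²/2` up to `θ⁴/24`, `θ⁴/8`), and `|∏ a_j - ∏ b_j| ≤ ∑ |a_j - b_j|` for numbers in `[-1, 1]` -/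
theorem cos_prod (n : ℕ) (θ : Fin n → ℝ) :
    |∏ j, Real.cos (θ j) - Real.exp (-(1 / 2) * ∑ j, θ j ^ 2)| ≤ ∑ j, θ j ^ 4 := by
  rw [Finset.mul_sum, Real.exp_sum]
  refine (N3a_prod Finset.univ _ _ (fun i _ => Real.abs_cos_le_one _) (fun i _ => ?_)).trans
    (Finset.sum_le_sum fun i _ => N3a_one (θ i))
  rw [abs_of_pos (Real.exp_pos _)]
  exact Real.exp_le_one_iff.2 (by nlinarith [sq_nonneg (θ i)])

/-- sum over signs: `∑_s cos (∑ s_j θ_j) = 2^n ∏ cos θ_j` (with the sine version `= 0`, induction on `n`, `Fin.consEquiv` / `Fin.sum_univ_succ`) -/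
theorem sign_sum (n : ℕ) (θ : Fin n → ℝ) :
    ∑ s : Fin n → Bool, Real.cos (∑ j, (if s j then 1 else -1) * θ j) = 2 ^ n * ∏ j, Real.cos (θ j) := by
  have h := N3a_sign n θ 0
  simp only [zero_add, Real.cos_zero, mul_one] at h
  exact h

end GF
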