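import Pool.Agent.Helper34.GF.N0

/-!
N3b.  Gaussian integrals.
-/

open MeasureTheory Filter Topology ProbabilityTheory

namespace GF

theorem N3b_one (q α : ℝ) (hq : 0 ≤ q) :
    ∫ x : ℝ, Complex.exp ((x * α : ℝ) * Complex.I) * Complex.exp ((-(q * x ^ 2 / 2) : ℝ) : ℂ)
      ∂(gaussianReal 0 1) = ((rate α q : ℝ) : ℂ) := by
  have hq1 : (0 : ℝ) < 1 + q := by linarith
  rw [integral_gaussianReal_eq_integral_smul one_ne_zero]
  have e1 : ∀ x : ℝ, gaussianPDFReal 0 1 x •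
      (Complex.exp ((x * α : ℝ) * Complex.I) * Complex.exp ((-(q * x ^ 2 / 2) : ℝ) : ℂ)) =
      (((√(2 * Real.pi))⁻¹ : ℝ) : ℂ) *
        Complex.exp ((-((1 + q) / 2) : ℝ) * (x : ℂ) ^ 2 + ((α : ℂ) * Complex.I) * x + 0) := by
    intro x
    rw [gaussianPDFReal, Complex.real_smul]
    push_cast
    rw [mul_assoc, ← Complex.exp_add, ← Complex.exp_add]
    congr 1
    · simp
    · congr 1
      simp
      ring
  simp_rw [e1]
  rw [integral_const_mul, integral_cexp_quadratic (by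
    rw [Complex.ofReal_re]
    linarith)]
  have e2 : ((Real.pi : ℂ) / -((-((1 + q) / 2) : ℝ) : ℂ)) ^ (1 / 2 : ℂ) =
      ((√(2 * Real.pi) * (1 + q) ^ (-(1 / 2) : ℝ) : ℝ) : ℂ) := by
    have h1 : (Real.pi : ℂ) / -((-((1 + q) / 2) : ℝ) : ℂ) = ((2 * Real.pi / (1 + q) : ℝ) : ℂ) := by
      push_cast
      have : (1 + (q : ℂ)) ≠ 0 := by exact_mod_cast hq1.ne'
      field_simp
    rw [h1, show (1 / 2 : ℂ) = ((1 / 2 : ℝ) : ℂ) by push_cast; rfl,
      ← Complex.ofReal_cpow (by positivity)]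
    congr 1
    rw [Real.div_rpow (by positivity) hq1.le, ← Real.sqrt_eq_rpow, Real.rpow_neg hq1.le,
      div_eq_mul_inv]
  have e3 : Complex.exp (0 - ((α : ℂ) * Complex.I) ^ 2 / (4 * ((-((1 + q) / 2) : ℝ) : ℂ))) =
      ((Real.exp (-(α ^ 2 / (2 * (1 + q)))) : ℝ) : ℂ) := by
    rw [Complex.ofReal_exp]
    congr 1
    push_cast
    have : (1 + (q : ℂ)) ≠ 0 := by exact_mod_cast hq1.ne'
    rw [mul_pow, Complex.I_sq]
    field_simp
    ring
  rw [e2, e3, ← Complex.ofReal_mul, ← Complex.ofReal_mul]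
  congr 1
  unfold rate
  have h2 : √(2 * Real.pi) ≠ 0 := by positivity
  field_simp

/-
With `stdGaussian (EuclideanSpace ℝ (Fin n)) = (Measure.pi (gaussianReal 0 1)).map (toLp 2)` (`map_pi_eq_stdGaussian`), the complex integral
`∫ exp (i ∑ t_j α) exp (- q ‖t‖²/2)` is a product (`integral_fintype_prod_eq_prod`) of `n` copies of
`∫ exp (i α t) exp (- q t²/2) dγ₁ t = (1+q)^(-1/2) exp (-α²/(2(1+q)))`
(Gaussian density and `integral_cexp_neg_mul_sq_add_..` / `fourierIntegral_gaussian`); take real parts.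
-/
theorem gauss_int (n : ℕ) (q α : ℝ) (hq : 0 ≤ q) :
    ∫ t : EuclideanSpace ℝ (Fin n), Real.cos (∑ j, t j * α) * Real.exp (-(q * ‖t‖ ^ 2 / 2))
      ∂(stdGaussian (EuclideanSpace ℝ (Fin n))) = rate α q ^ n := by
  rw [← map_pi_eq_stdGaussian, integral_map (by fun_prop) (by
    apply Continuous.aestronglyMeasurable
    fun_prop)]
  let F : ℝ → ℂ := fun x =>
    Complex.exp ((x * α : ℝ) * Complex.I) * Complex.exp ((-(q * x ^ 2 / 2) : ℝ) : ℂ)
  have hFc : Continuous F := by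
    show Continuous (fun x : ℝ =>
      Complex.exp ((x * α : ℝ) * Complex.I) * Complex.exp ((-(q * x ^ 2 / 2) : ℝ) : ℂ))
    fun_prop
  have hF1 : ∀ x, ‖F x‖ ≤ 1 := by
    intro x
    show ‖Complex.exp ((x * α : ℝ) * Complex.I) * Complex.exp ((-(q * x ^ 2 / 2) : ℝ) : ℂ)‖ ≤ 1
    rw [norm_mul, Complex.norm_exp_ofReal_mul_I, one_mul, ← Complex.ofReal_exp, Complex.norm_real,
      Real.norm_eq_abs, abs_of_nonneg (Real.exp_pos _).le, Real.exp_le_one_iff]
    have := sq_nonneg x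
    nlinarith
  have e1 : ∀ x : Fin n → ℝ, Real.cos (∑ j, (WithLp.toLp 2 x : EuclideanSpace ℝ (Fin n)) j * α) *
      Real.exp (-(q * ‖(WithLp.toLp 2 x : EuclideanSpace ℝ (Fin n))‖ ^ 2 / 2)) =
      RCLike.re (∏ j, F (x j)) := by
    intro x
    have h1 : ∏ j, F (x j) = Complex.exp ((∑ j, x j * α : ℝ) * Complex.I) *
        ((Real.exp (-(q * (∑ j, x j ^ 2) / 2)) : ℝ) : ℂ) := by
      show ∏ j, (Complex.exp ((x j * α : ℝ) * Complex.I) *
        Complex.exp ((-(q * x j ^ 2 / 2) : ℝ) : ℂ)) = _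
      rw [Finset.prod_mul_distrib, ← Complex.exp_sum, ← Complex.exp_sum, Complex.ofReal_exp,
        ← Finset.sum_mul, ← Complex.ofReal_sum, ← Complex.ofReal_sum]
      congr 3
      rw [Finset.sum_neg_distrib, ← Finset.sum_div, ← Finset.mul_sum]
    rw [h1, EuclideanSpace.real_norm_sq_eq]
    show _ = (Complex.exp ((∑ j, x j * α : ℝ) * Complex.I) *
        ((Real.exp (-(q * (∑ j, x j ^ 2) / 2)) : ℝ) : ℂ)).re
    rw [Complex.re_mul_ofReal, Complex.exp_ofReal_mul_I_re]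
  simp_rw [e1]
  have hint : Integrable (fun x : Fin n → ℝ => ∏ j, F (x j))
      (Measure.pi fun _ : Fin n => gaussianReal 0 1) := by
    refine Integrable.of_bound (C := 1) ?_ (Filter.Eventually.of_forall fun x => ?_)
    · apply Continuous.aestronglyMeasurable
      fun_prop
    · rw [norm_prod]
      exact Finset.prod_le_one (fun _ _ => norm_nonneg _) (fun j _ => hF1 _)
  rw [integral_re hint, integral_fintype_prod_eq_pow (f := F)]
  have h1 : ∫ x, F x ∂(gaussianReal 0 1) = ((rate α q : ℝ) : ℂ) := N3b_one q α hq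
  rw [h1, Fintype.card_fin, ← Complex.ofReal_pow]
  rfl

/-- Fourier representation of the Gaussian function: `exp (-‖y‖²/2) = ∫ cos ⟨t, y⟩ dγ t` (`charFun_stdGaussian`, real part) -/
theorem gauss_fourier (n : ℕ) (y : Fin n → ℝ) :
    Real.exp (-(1 / 2) * ∑ j, y j ^ 2) =
      ∫ t : EuclideanSpace ℝ (Fin n), Real.cos (∑ j, t j * y j)
        ∂(stdGaussian (EuclideanSpace ℝ (Fin n))) := by
  have h1 := charFun_stdGaussian (E := EuclideanSpace ℝ (Fin n)) (WithLp.toLp 2 y)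
  rw [charFun_apply] at h1
  have hint : Integrable (fun t : EuclideanSpace ℝ (Fin n) =>
      Complex.exp ((inner ℝ t (WithLp.toLp 2 y : EuclideanSpace ℝ (Fin n)) : ℝ) * Complex.I))
      (stdGaussian (EuclideanSpace ℝ (Fin n))) := by
    refine Integrable.of_bound (C := 1) ?_ (Filter.Eventually.of_forall fun x => ?_)
    · apply Continuous.aestronglyMeasurable
      fun_prop
    · rw [Complex.norm_exp_ofReal_mul_I]
  have h2 := integral_re hint
  rw [h1] at h2
  have e1 : ∀ t : EuclideanSpace ℝ (Fin n), RCLike.re (Complex.exp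
      ((inner ℝ t (WithLp.toLp 2 y : EuclideanSpace ℝ (Fin n)) : ℝ) * Complex.I)) =
      Real.cos (∑ j, t j * y j) := by
    intro t
    show (Complex.exp
      ((inner ℝ t (WithLp.toLp 2 y : EuclideanSpace ℝ (Fin n)) : ℝ) * Complex.I)).re = _
    rw [Complex.exp_ofReal_mul_I_re, PiLp.inner_apply]
    congr 1
    apply Finset.sum_congr rfl
    intro j _
    simp [mul_comm]
  simp_rw [e1] at h2
  rw [h2]
  have h3 : Complex.exp (-((‖(WithLp.toLp 2 y : EuclideanSpace ℝ (Fin n))‖ : ℝ) : ℂ) ^ 2 / 2) =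
      ((Real.exp (-(1 / 2) * ∑ j, y j ^ 2) : ℝ) : ℂ) := by
    rw [Complex.ofReal_exp, ← Complex.ofReal_pow, EuclideanSpace.real_norm_sq_eq]
    congr 1
    push_cast
    ring
  rw [h3]
  rfl

end GF
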