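import Pool.Agent.Helper34.GF.N0

/-!
N3c.  The rate argument.
-/

open MeasureTheory Filter Topology ProbabilityTheory

namespace GF

private theorem N3c_max (α : ℝ) (hα : 0 < α) :
    (Real.exp 1 * α ^ 2) ^ (-(1 / 2) : ℝ) = Real.exp (-(1 / 2)) / α := by
  have h1 : (0 : ℝ) < Real.exp 1 * α ^ 2 := by positivity
  rw [Real.rpow_def_of_pos h1, Real.log_mul (Real.exp_pos 1).ne' (by positivity), Real.log_exp,
    Real.log_pow]
  have h2 : (1 + ((2 : ℕ) : ℝ) * Real.log α) * (-(1 / 2)) = -(1 / 2) + -Real.log α := by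
    push_cast
    ring
  rw [h2, Real.exp_add, Real.exp_neg (Real.log α), Real.exp_log hα]
  exact (div_eq_mul_inv _ _).symm

private theorem N3c_rate (α q : ℝ) (hq : 0 ≤ q) :
    rate α q = Real.exp (-(1 / 2) * Real.log (1 + q) - α ^ 2 / (2 * (1 + q))) := by
  unfold rate
  rw [Real.rpow_def_of_pos (by linarith : (0 : ℝ) < 1 + q), ← Real.exp_add]
  congr 1
  ring

private theorem N3c_nonneg (α q : ℝ) (hq : 0 ≤ q) : 0 ≤ rate α q := by
  rw [N3c_rate α q hq]
  exact (Real.exp_pos _).le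

/-- `x ↦ x^(-1/2) exp (-α²/(2x))` has its maximum `(e α²)^(-1/2)` at `x = α²` (`log y ≤ y - 1` for `y = α²/x`) -/
theorem rate_le (α q : ℝ) (hα : 0 < α) (hq : 0 ≤ q) : rate α q ≤ (Real.exp 1 * α ^ 2) ^ (-(1 / 2) : ℝ) := by
  have hx : (0 : ℝ) < 1 + q := by linarith
  rw [N3c_rate α q hq, Real.rpow_def_of_pos (by positivity),
    Real.log_mul (Real.exp_pos 1).ne' (by positivity), Real.log_exp]
  apply Real.exp_le_exp.2
  have h1 := Real.log_le_sub_one_of_pos (show (0 : ℝ) < α ^ 2 / (1 + q) by positivity)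
  rw [Real.log_div (by positivity) hx.ne'] at h1
  have h2 : α ^ 2 / (2 * (1 + q)) = (1 / 2) * (α ^ 2 / (1 + q)) := by
    field_simp
  rw [h2]
  linarith

theorem rate_eq (α q : ℝ) (hα : 0 < α) (hq : 1 + q = α ^ 2) :
    rate α q = (Real.exp 1 * α ^ 2) ^ (-(1 / 2) : ℝ) := by
  have hx : (0 : ℝ) < 1 + q := by rw [hq]; positivity
  have h1 : (0 : ℝ) < α ^ 2 := by positivity
  unfold rate
  rw [hq, Real.rpow_def_of_pos h1, ← Real.exp_add, Real.rpow_def_of_pos (by positivity),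
    Real.log_mul (Real.exp_pos 1).ne' (by positivity), Real.log_exp]
  congr 1
  have h2 : α ^ 2 / (2 * α ^ 2) = 1 / 2 := by
    field_simp
  rw [h2]
  ring

private theorem N3c_meas (α : ℝ) : Measurable (rate α) := by
  unfold rate
  fun_prop

private theorem N3c_cont (α q : ℝ) (hq : 0 ≤ q) : ContinuousAt (rate α) q := by
  have hx : (1 : ℝ) + q ≠ 0 := by linarith
  unfold rate
  refine ContinuousAt.mul ?_ ?_
  · exact ContinuousAt.rpow_const (by fun_prop) (Or.inl hx)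
  · refine Real.continuous_exp.continuousAt.comp ?_
    refine ContinuousAt.neg ?_
    exact ContinuousAt.div (by fun_prop) (by fun_prop) (by simpa using hx)

private theorem N3c_int (κ : Measure ℝ) [IsProbabilityMeasure κ] (h0 : ∀ᵐ q ∂κ, 0 ≤ q) (α : ℝ)
    (hα : 0 < α) (n : ℕ) : Integrable (fun q => rate α q ^ n) κ := by
  refine Integrable.of_bound ((N3c_meas α).pow_const n).aestronglyMeasurable
    (((Real.exp 1 * α ^ 2) ^ (-(1 / 2) : ℝ)) ^ n) ?_
  filter_upwards [h0] with q hq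
  rw [Real.norm_of_nonneg (pow_nonneg (N3c_nonneg α q hq) n)]
  exact pow_le_pow_left₀ (N3c_nonneg α q hq) (rate_le α q hα hq) n

private theorem N3c_upper (κ : Measure ℝ) [IsProbabilityMeasure κ] (h0 : ∀ᵐ q ∂κ, 0 ≤ q) (α : ℝ)
    (hα : 0 < α) (n : ℕ) : ∫ q, rate α q ^ n ∂κ ≤ (Real.exp (-(1 / 2)) / α) ^ n := by
  have h1 : ∫ q, rate α q ^ n ∂κ ≤ ∫ _, (Real.exp (-(1 / 2)) / α) ^ n ∂κ := by
    refine integral_mono_ae (N3c_int κ h0 α hα n) (integrable_const _) ?_
    filter_upwards [h0] with q hq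
    refine pow_le_pow_left₀ (N3c_nonneg α q hq) ?_ n
    rw [← N3c_max α hα]
    exact rate_le α q hα hq
  simpa using h1

private theorem N3c_lower (κ : Measure ℝ) [IsProbabilityMeasure κ] (h0 : ∀ᵐ q ∂κ, 0 ≤ q) (α d : ℝ)
    (hα : 0 < α) (hd : 0 ≤ d) (hda : 1 + d = α ^ 2) (hs : ∀ U ∈ 𝓝 d, 0 < κ U) (θ : ℝ) (h1 : 0 < θ)
    (h2 : θ < 1) : ∃ c : ℝ, 0 < c ∧ ∀ n : ℕ,
      (θ * (Real.exp (-(1 / 2)) / α)) ^ n * c ≤ ∫ q, rate α q ^ n ∂κ := by
  have hM : rate α d = Real.exp (-(1 / 2)) / α := by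
    rw [rate_eq α d hα hda, N3c_max α hα]
  have hpos : 0 < Real.exp (-(1 / 2)) / α := by positivity
  have hev : ∀ᶠ q in 𝓝 d, θ * (Real.exp (-(1 / 2)) / α) ≤ rate α q := by
    have hlt : θ * (Real.exp (-(1 / 2)) / α) < rate α d := by
      rw [hM]
      nlinarith
    exact ((N3c_cont α d hd).eventually (lt_mem_nhds hlt)).mono fun q hq => hq.le
  have hU := hs _ hev
  refine ⟨κ.real {q | θ * (Real.exp (-(1 / 2)) / α) ≤ rate α q},
    ENNReal.toReal_pos hU.ne' (measure_ne_top κ _), fun n => ?_⟩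
  have hmark := mul_meas_ge_le_integral_of_nonneg (μ := κ) (f := fun q => rate α q ^ n)
    (by filter_upwards [h0] with q hq using pow_nonneg (N3c_nonneg α q hq) n)
    (N3c_int κ h0 α hα n) ((θ * (Real.exp (-(1 / 2)) / α)) ^ n)
  refine le_trans (mul_le_mul_of_nonneg_left ?_ (by positivity)) hmark
  refine ENNReal.toReal_mono (measure_ne_top κ _) (measure_mono fun q hq => ?_)
  have hq' : θ * (Real.exp (-(1 / 2)) / α) ≤ rate α q := hq
  have hz : 0 ≤ θ * (Real.exp (-(1 / 2)) / α) := by positivity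
  exact pow_le_pow_left₀ hz hq' n

/-
Suppose `κ` is not a Dirac measure.  Then there are `d1 < d2` in the support of `κ` (every neighbourhood has positive measure), `0 ≤ d1`.
`α = √(1+d1)`, `β = √(1+d2)`, `γ = (α+β)/2`; `γ² > α β`.  Choose `θ < 1` with `θ² γ² > α β`; by continuity there is a neighbourhood `U1` of `d1` on which
`rate α ≥ θ (e α²)^(-1/2)` (`rate_eq`), `U2` for `d2`, `β`.  Then `κ(U1) κ(U2) θ^(2n) (e α²)^(-n/2) (e β²)^(-n/2) ≤ (∫ rate γ ^ n)² ≤ (e γ²)^(-n)`, i.e.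
`κ(U1) κ(U2) (θ² γ²/(α β))^n ≤ 1` for all `n`: contradiction.
-/
theorem rate_dirac (κ : Measure ℝ) [IsProbabilityMeasure κ] (h0 : κ (Set.Iio 0) = 0)
    (h : ∀ n : ℕ, ∀ α β : ℝ, 0 < α → 0 < β →
      (∫ q, rate α q ^ n ∂κ) * (∫ q, rate β q ^ n ∂κ) ≤ (∫ q, rate ((α + β) / 2) q ^ n ∂κ) ^ 2) :
    ∃ q0 : ℝ, 0 ≤ q0 ∧ κ = Measure.dirac q0 := by
  have h0' : ∀ᵐ q ∂κ, 0 ≤ q := by
    rw [ae_iff]
    have e : {a : ℝ | ¬ 0 ≤ a} = Set.Iio 0 := by
      ext a
      simp
    rw [e]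
    exact h0
  have hsupp : ∀ d, d ∈ κ.support → 0 ≤ d := by
    intro d hd
    by_contra hneg
    have h1 := Measure.mem_support_iff_forall d |>.1 hd (Set.Iio 0) (Iio_mem_nhds (not_le.1 hneg))
    rw [h0] at h1
    exact lt_irrefl _ h1
  have huniq : ∀ d1 d2, d1 ∈ κ.support → d2 ∈ κ.support → ¬ d1 < d2 := by
    intro d1 d2 hd1 hd2 hlt
    have p1 := hsupp d1 hd1
    have p2 := hsupp d2 hd2
    set α := √(1 + d1) with hα
    set β := √(1 + d2) with hβ
    have a0 : 0 < α := Real.sqrt_pos.2 (by linarith)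
    have b0 : 0 < β := Real.sqrt_pos.2 (by linarith)
    have a1 : 1 + d1 = α ^ 2 := (Real.sq_sqrt (by linarith)).symm
    have b1 : 1 + d2 = β ^ 2 := (Real.sq_sqrt (by linarith)).symm
    have hab : α < β := Real.sqrt_lt_sqrt (by linarith) (by linarith)
    set γ := (α + β) / 2 with hγ
    have g0 : 0 < γ := by positivity
    have hg : α * β < γ ^ 2 := by
      rw [hγ]
      nlinarith [sq_pos_of_pos (sub_pos.2 hab)]
    set r := α * β / γ ^ 2 with hr
    have r0 : 0 < r := by positivity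
    have r1 : r < 1 := by
      rw [hr, div_lt_one (by positivity)]
      exact hg
    set θ := √((1 + r) / 2) with hθ
    have t2 : θ ^ 2 = (1 + r) / 2 := Real.sq_sqrt (by linarith)
    have t0 : 0 < θ := Real.sqrt_pos.2 (by linarith)
    have t1 : θ < 1 := by
      nlinarith
    obtain ⟨c1, hc1, hl1⟩ := N3c_lower κ h0' α d1 a0 p1 a1
      (Measure.mem_support_iff_forall d1 |>.1 hd1) θ t0 t1
    obtain ⟨c2, hc2, hl2⟩ := N3c_lower κ h0' β d2 b0 p2 b1
      (Measure.mem_support_iff_forall d2 |>.1 hd2) θ t0 t1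
    set ρ := θ ^ 2 / r with hρ
    have hρ1 : 1 < ρ := by
      rw [hρ, one_lt_div r0, t2]
      linarith
    obtain ⟨n, hn⟩ := pow_unbounded_of_one_lt (1 / (c1 * c2)) hρ1
    set E := Real.exp (-(1 / 2)) with hE
    have e0 : 0 < E := Real.exp_pos _
    have hmain : (θ * (E / α)) ^ n * c1 * ((θ * (E / β)) ^ n * c2) ≤ ((E / γ) ^ n) ^ 2 := by
      calc (θ * (E / α)) ^ n * c1 * ((θ * (E / β)) ^ n * c2)
          ≤ (∫ q, rate α q ^ n ∂κ) * (∫ q, rate β q ^ n ∂κ) :=
            mul_le_mul (hl1 n) (hl2 n) (by positivity) (le_trans (by positivity) (hl1 n))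
        _ ≤ (∫ q, rate γ q ^ n ∂κ) ^ 2 := h n α β a0 b0
        _ ≤ ((E / γ) ^ n) ^ 2 := by
            refine pow_le_pow_left₀ ?_ (N3c_upper κ h0' γ g0 n) 2
            refine integral_nonneg_of_ae ?_
            filter_upwards [h0'] with q hq using pow_nonneg (N3c_nonneg γ q hq) n
    have hleft : (θ * (E / α)) ^ n * c1 * ((θ * (E / β)) ^ n * c2) =
        (c1 * c2) * ρ ^ n * ((E / γ) ^ n) ^ 2 := by
      have e1 : θ * (E / α) * (θ * (E / β)) = ρ * (E / γ) ^ 2 := by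
        rw [hρ, hr]
        field_simp
      calc (θ * (E / α)) ^ n * c1 * ((θ * (E / β)) ^ n * c2)
          = (c1 * c2) * (θ * (E / α) * (θ * (E / β))) ^ n := by
            rw [mul_pow (θ * (E / α))]
            ring
        _ = (c1 * c2) * ρ ^ n * ((E / γ) ^ n) ^ 2 := by
            rw [e1, mul_pow ρ]
            ring
    rw [hleft] at hmain
    have hG : 0 < ((E / γ) ^ n) ^ 2 := by positivity
    have h3 : 1 < (c1 * c2) * ρ ^ n := by
      rw [div_lt_iff₀ (by positivity)] at hn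
      linarith
    nlinarith
  obtain ⟨q0, hq0⟩ := Measure.nonempty_support (IsProbabilityMeasure.ne_zero κ)
  refine ⟨q0, hsupp q0 hq0, ?_⟩
  have hone : κ.support ⊆ {q0} := by
    intro d hd
    rcases lt_trichotomy d q0 with h1 | h1 | h1
    · exact absurd h1 (huniq d q0 hd hq0)
    · exact h1
    · exact absurd h1 (huniq q0 d hq0 hd)
  have hnull : κ {q0}ᶜ = 0 :=
    measure_mono_null (Set.compl_subset_compl.2 hone) Measure.measure_compl_support
  have hae : ∀ᵐ q ∂κ, q = q0 := by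
    rw [ae_iff]
    exact hnull
  ext t ht
  rw [Measure.dirac_apply' _ ht]
  by_cases hmem : q0 ∈ t
  · rw [Set.indicator_of_mem hmem]
    have h1 : κ t = κ Set.univ := by
      apply measure_congr
      filter_upwards [hae] with q hq
      rw [hq]
      exact propext ⟨fun _ => trivial, fun _ => hmem⟩
    rw [h1, measure_univ]
    rfl
  · rw [Set.indicator_of_notMem hmem]
    refine measure_mono_null (fun q hq => ?_) hnull
    intro hq'
    rw [Set.mem_singleton_iff] at hq'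
    exact hmem (hq' ▸ hq)

end GF
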