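import Mathlib

/-!
N3d.  Prokhorov on the half line.
-/

open MeasureTheory Filter Topology ProbabilityTheory

namespace GF

private noncomputable def tst : BoundedContinuousFunction ℝ ℝ :=
  BoundedContinuousFunction.ofNormedAddCommGroup (fun q : ℝ => min 1 (max 0 (-q)))
    (by fun_prop) 1 (by
      intro q
      have h1 : 0 ≤ min 1 (max 0 (-q)) := le_min zero_le_one (le_max_left _ _)
      rw [Real.norm_of_nonneg h1]
      exact min_le_left _ _)

private lemma tst_apply (q : ℝ) : tst q = min 1 (max 0 (-q)) := rfl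

private lemma n3d_ae {μ : Measure ℝ} (h0 : μ (Set.Iio 0) = 0) : ∀ᵐ q ∂μ, 0 ≤ q := by
  rw [ae_iff]
  have h1 : {q : ℝ | ¬ 0 ≤ q} = Set.Iio 0 := by
    ext q
    simp
  rw [h1]
  exact h0

private lemma n3d_tail {μ : Measure ℝ} [IsProbabilityMeasure μ] (h0 : μ (Set.Iio 0) = 0)
    (hint : Integrable (fun q : ℝ => q) μ) {C e : ℝ} (hC : ∫ q, q ∂μ ≤ C) (he : 0 < e) :
    μ (Set.Icc 0 ((|C| + 1) / e))ᶜ ≤ ENNReal.ofReal e := by
  set M : ℝ := (|C| + 1) / e with hM
  have hMp : 0 < M := by positivity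
  have h1 : (Set.Icc 0 M)ᶜ ⊆ Set.Iio 0 ∪ {q : ℝ | M ≤ q} := by
    intro q hq
    by_contra hcon
    simp only [Set.mem_union, Set.mem_Iio, Set.mem_ofPred_eq, not_or, not_lt, not_le] at hcon
    exact hq ⟨hcon.1, hcon.2.le⟩
  have h2 : M * μ.real {q : ℝ | M ≤ q} ≤ ∫ q, q ∂μ :=
    mul_meas_ge_le_integral_of_nonneg (n3d_ae h0) hint M
  have h3 : μ.real {q : ℝ | M ≤ q} ≤ e := by
    have h4 : M * μ.real {q : ℝ | M ≤ q} ≤ M * e := by
      calc M * μ.real {q : ℝ | M ≤ q} ≤ C := h2.trans hC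
        _ ≤ |C| + 1 := by linarith [le_abs_self C]
        _ = M * e := by rw [hM]; field_simp
    exact le_of_mul_le_mul_left h4 hMp
  calc μ (Set.Icc 0 M)ᶜ ≤ μ (Set.Iio 0 ∪ {q : ℝ | M ≤ q}) := measure_mono h1
    _ ≤ μ (Set.Iio 0) + μ {q : ℝ | M ≤ q} := measure_union_le _ _
    _ = μ {q : ℝ | M ≤ q} := by rw [h0, zero_add]
    _ ≤ ENNReal.ofReal e := by
      rw [← ENNReal.ofReal_toReal (measure_ne_top μ {q : ℝ | M ≤ q})]
      exact ENNReal.ofReal_le_ofReal h3

/-
Laws `μ n` of nonnegative variables with `∫ q dμ n ≤ C`.  `μ n {q > M} ≤ C / M`, so the set of the `μ n` is tight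
(`isCompact_closure_of_isTightMeasureSet`), and an ultrafilter finer than `atTop` mapped into the compact closure converges (`IsCompact.ultrafilter_le_nhds`).
`κ (Iio 0) = 0` in the limit: test with the bounded continuous function `min 1 (max 0 (-q))`.
-/
theorem line_limit (μ : ℕ → Measure ℝ) (hμ : ∀ n, IsProbabilityMeasure (μ n)) (h0 : ∀ n, μ n (Set.Iio 0) = 0)
    (hint : ∀ n, Integrable (fun q : ℝ => q) (μ n)) (C : ℝ) (hC : ∀ n, ∫ q, q ∂(μ n) ≤ C) :
    ∃ (κ : Measure ℝ) (U : Filter ℕ), IsProbabilityMeasure κ ∧ κ (Set.Iio 0) = 0 ∧ U.NeBot ∧ U ≤ atTop ∧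
      ∀ φ : BoundedContinuousFunction ℝ ℝ, Tendsto (fun n => ∫ q, φ q ∂(μ n)) U (𝓝 (∫ q, φ q ∂κ)) := by
  let P : ℕ → ProbabilityMeasure ℝ := fun n => ⟨μ n, hμ n⟩
  have tight : IsTightMeasureSet
      {((m : ProbabilityMeasure ℝ) : Measure ℝ) | m ∈ Set.range P} := by
    rw [isTightMeasureSet_iff_exists_isCompact_measure_compl_le]
    intro ε hε
    have h1 : min ε 1 ≠ ⊤ := ne_top_of_le_ne_top ENNReal.one_ne_top (min_le_right _ _)
    have h2 : 0 < (min ε 1).toReal := ENNReal.toReal_pos (lt_min hε one_pos).ne' h1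
    refine ⟨Set.Icc 0 ((|C| + 1) / (min ε 1).toReal), isCompact_Icc, ?_⟩
    rintro _ ⟨_, ⟨n, rfl⟩, rfl⟩
    have h3 := n3d_tail (μ := μ n) (h0 n) (hint n) (hC n) h2
    rw [ENNReal.ofReal_toReal h1] at h3
    exact h3.trans (min_le_left _ _)
  have hcomp := isCompact_closure_of_isTightMeasureSet tight
  let V : Ultrafilter ℕ := Ultrafilter.of atTop
  obtain ⟨x, -, hle⟩ := hcomp.ultrafilter_le_nhds' (V.map P) (by
    rw [Ultrafilter.mem_map]
    have h4 : P ⁻¹' closure (Set.range P) = Set.univ := by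
      ext n
      simp only [Set.mem_preimage, Set.mem_univ, iff_true]
      exact subset_closure ⟨n, rfl⟩
    rw [h4]
    exact Filter.univ_mem)
  have htend : Tendsto P V (𝓝 x) := hle
  have hlim : ∀ φ : BoundedContinuousFunction ℝ ℝ,
      Tendsto (fun n => ∫ q, φ q ∂(μ n)) V (𝓝 (∫ q, φ q ∂(x : Measure ℝ))) := fun φ =>
    ProbabilityMeasure.tendsto_iff_forall_integral_tendsto.1 htend φ
  refine ⟨x, V, inferInstance, ?_, V.neBot, Ultrafilter.of_le atTop, hlim⟩
  have h5 : ∀ n, ∫ q, tst q ∂(μ n) = 0 := by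
    intro n
    refine integral_eq_zero_of_ae ?_
    filter_upwards [n3d_ae (h0 n)] with q hq
    rw [tst_apply, max_eq_left (by linarith), min_eq_right zero_le_one]
    rfl
  have h6 : ∫ q, tst q ∂(x : Measure ℝ) = 0 := by
    have h7 := hlim tst
    simp only [h5] at h7
    exact (tendsto_nhds_unique h7 tendsto_const_nhds)
  have h8 : (fun q => tst q) =ᵐ[(x : Measure ℝ)] 0 := by
    refine (integral_eq_zero_iff_of_nonneg (fun q => ?_) (tst.integrable _)).1 h6
    show 0 ≤ tst q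
    rw [tst_apply]
    exact le_min zero_le_one (le_max_left _ _)
  have h9 : ∀ᵐ q ∂(x : Measure ℝ), 0 ≤ q := by
    filter_upwards [h8] with q hq
    by_contra hcon
    push Not at hcon
    have h10 : 0 < tst q := by
      rw [tst_apply]
      exact lt_min one_pos (lt_max_of_lt_right (by linarith))
    exact h10.ne' hq
  rw [ae_iff] at h9
  have h11 : {q : ℝ | ¬ 0 ≤ q} = Set.Iio 0 := by
    ext q
    simp
  rw [h11] at h9
  exact h9

end GF
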