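import Pool.Agent.Helper34.GF.N0

/-!
N4a.  Linear combinations.
-/

open MeasureTheory Filter Topology ProbabilityTheory

namespace GF

theorem N4a_cc_zero : Cc (fun _ : Pl => (0 : ℝ)) :=
  ⟨contDiff_const, by
    rw [HasCompactSupport, show (fun _ : Pl => (0 : ℝ)) = 0 from rfl, tsupport_zero]
    exact isCompact_empty⟩

theorem N4a_cc_add {f g : Pl → ℝ} (hf : Cc f) (hg : Cc g) : Cc (fun z => f z + g z) :=
  ⟨hf.smooth.add hg.smooth, hf.supp.add hg.supp⟩

theorem N4a_cc_smul {f : Pl → ℝ} (c : ℝ) (hf : Cc f) : Cc (fun z => c * f z) :=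
  ⟨contDiff_const.mul hf.smooth, hf.supp.mul_left⟩

theorem N4a_ne_zero : Ne (fun _ : Pl => (0 : ℝ)) :=
  ⟨N4a_cc_zero, by simp⟩

theorem N4a_int {f : Pl → ℝ} (hf : Cc f) : Integrable f :=
  hf.smooth.continuous.integrable_of_hasCompactSupport hf.supp

theorem N4a_ne_add {f g : Pl → ℝ} (hf : Ne f) (hg : Ne g) : Ne (fun z => f z + g z) :=
  ⟨N4a_cc_add hf.toCc hg.toCc, by
    rw [integral_add (N4a_int hf.toCc) (N4a_int hg.toCc), hf.zero, hg.zero, add_zero]⟩

theorem N4a_ne_smul {f : Pl → ℝ} (c : ℝ) (hf : Ne f) : Ne (fun z => c * f z) :=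
  ⟨N4a_cc_smul c hf.toCc, by rw [integral_const_mul, hf.zero, mul_zero]⟩

theorem N4a_ne_sum {n : ℕ} (f : Fin n → Pl → ℝ) (hf : ∀ j, Ne (f j)) (t : Fin n → ℝ)
    (s : Finset (Fin n)) : Ne (fun z => ∑ j ∈ s, t j * f j z) := by
  classical
  induction s using Finset.induction_on with
  | empty => simpa using N4a_ne_zero
  | insert a s ha ih =>
    have := N4a_ne_add (N4a_ne_smul (t a) (hf a)) ih
    simpa [Finset.sum_insert ha] using this

theorem N4a_cc_sum {n : ℕ} (f : Fin n → Pl → ℝ) (hf : ∀ j, Cc (f j)) (t : Fin n → ℝ)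
    (s : Finset (Fin n)) : Cc (fun z => ∑ j ∈ s, t j * f j z) := by
  classical
  induction s using Finset.induction_on with
  | empty => simpa using N4a_cc_zero
  | insert a s ha ih =>
    have := N4a_cc_add (N4a_cc_smul (t a) (hf a)) ih
    simpa [Finset.sum_insert ha] using this

theorem N4a_X_sum {I : Type} (M : Fld I) {n : ℕ} (f : Fin n → Pl → ℝ) (hf : ∀ j, Ne (f j))
    (t : Fin n → ℝ) (i : I) (s : Finset (Fin n)) :
    M.X (fun z => ∑ j ∈ s, t j * f j z) i = ∑ j ∈ s, t j * M.X (f j) i := by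
  classical
  induction s using Finset.induction_on with
  | empty =>
    have := M.X_smul 0 (fun _ => 0) N4a_ne_zero i
    simpa using this
  | insert a s ha ih =>
    have h1 := M.X_add _ _ (N4a_ne_smul (t a) (hf a)) (N4a_ne_sum f hf t s) i
    rw [M.X_smul _ _ (hf a), ih] at h1
    rw [Finset.sum_insert ha, ← h1]
    congr 1
    funext z
    rw [Finset.sum_insert ha]

/-- `X (∑ t_j f_j) = ∑ t_j X f_j` for neutral functions (induction on `n` with `X_add`, `X_smul`; `Ne` is stable under sums;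
`X 0 = 0` from `X_smul` with `c = 0`) -/
theorem X_sum {I : Type} (M : Fld I) {n : ℕ} (f : Fin n → Pl → ℝ) (hf : ∀ j, Ne (f j)) (t : Fin n → ℝ) (i : I) :
    M.X (fun z => ∑ j, t j * f j z) i = ∑ j, t j * M.X (f j) i :=
  N4a_X_sum M f hf t i Finset.univ

theorem N4a_lap_sum {n : ℕ} (E : EnergyFacts) (g : Fin n → Pl → ℝ) (hg : ∀ j, Cc (g j))
    (t : Fin n → ℝ) (s : Finset (Fin n)) :
    lap (fun z => ∑ j ∈ s, t j * g j z) = fun z => ∑ j ∈ s, t j * lap (g j) z := by
  classical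
  induction s using Finset.induction_on with
  | empty =>
    have := E.lap_smul 0 (fun _ => 0) N4a_cc_zero
    simpa using this
  | insert a s ha ih =>
    have h1 := E.lap_add _ _ (N4a_cc_smul (t a) (hg a)) (N4a_cc_sum g hg t s)
    rw [ih, E.lap_smul _ _ (hg a)] at h1
    simpa [Finset.sum_insert ha] using h1

theorem N4a_energy_sum {n : ℕ} (E : EnergyFacts) (f : Fin n → Pl → ℝ) (hf : ∀ j, Cc (f j))
    (t : Fin n → ℝ) (F : Pl → ℝ) (hF : Cc F) (s : Finset (Fin n)) :
    energy2 (fun z => ∑ j ∈ s, t j * f j z) F = ∑ j ∈ s, t j * energy2 (f j) F := by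
  classical
  induction s using Finset.induction_on with
  | empty =>
    have := E.smul 0 (fun _ => 0) F N4a_cc_zero hF
    simpa using this
  | insert a s ha ih =>
    have h1 := E.add _ _ F (N4a_cc_smul (t a) (hf a)) (N4a_cc_sum f hf t s) hF
    rw [ih, E.smul _ _ _ (hf a) hF] at h1
    rw [Finset.sum_insert ha, ← h1]
    congr 1
    funext z
    rw [Finset.sum_insert ha]

/-- Laplacian and energy of linear combinations (induction on `n`) -/
theorem comb {n : ℕ} (E : EnergyFacts) (g : Fin n → Pl → ℝ) (hg : ∀ j, Cc (g j))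
    (ho : ∀ i j, energy2 (lap (g i)) (lap (g j)) = if i = j then 1 else 0) (t : Fin n → ℝ) :
    Cc (fun z => ∑ j, t j * g j z) ∧ (lap (fun z => ∑ j, t j * g j z) = fun z => ∑ j, t j * lap (g j) z) ∧
      energy2 (lap (fun z => ∑ j, t j * g j z)) (lap (fun z => ∑ j, t j * g j z)) = ∑ j, t j ^ 2 := by
  have hl : ∀ j, Cc (lap (g j)) := fun j => (E.ne_lap (g j) (hg j)).toCc
  refine ⟨N4a_cc_sum g hg t _, N4a_lap_sum E g hg t _, ?_⟩
  rw [N4a_lap_sum E g hg t Finset.univ]
  have hS : Cc (fun z => ∑ j, t j * lap (g j) z) := N4a_cc_sum (fun j => lap (g j)) hl t _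
  rw [N4a_energy_sum E (fun j => lap (g j)) hl t _ hS Finset.univ]
  refine Finset.sum_congr rfl fun j _ => ?_
  rw [E.symm _ _ (hl j) hS, N4a_energy_sum E (fun j => lap (g j)) hl t _ (hl j) Finset.univ]
  have : ∑ k, t k * energy2 (lap (g k)) (lap (g j)) = t j := by
    simp [ho]
  rw [this, sq]

end GF
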