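import Pool.Agent.Helper34.GF.N4a
import Pool.Agent.Helper34.GF.N1c
import Pool.Agent.Helper34.GF.N2c

/-!
N4b.  The laws of orthonormal families.
-/

open MeasureTheory Filter Topology ProbabilityTheory

namespace GF

private lemma N4b_coord {n : ℕ} (x : EuclideanSpace ℝ (Fin n)) (j : Fin n) : |x j| ≤ ‖x‖ := by
  have h := EuclideanSpace.norm_eq x
  rw [h]
  refine Real.abs_le_sqrt ?_
  have h1 : x j ^ 2 = ‖x j‖ ^ 2 := by rw [Real.norm_eq_abs, sq_abs]
  rw [h1]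
  exact Finset.single_le_sum (f := fun k => ‖x k‖ ^ 2) (fun k _ => sq_nonneg _) (Finset.mem_univ j)

private lemma N4b_cont {n : ℕ} (j : Fin n) : Continuous (fun x : EuclideanSpace ℝ (Fin n) => x j) :=
  (continuous_apply j).comp (PiLp.continuous_ofLp 2 _)

private lemma N4b_growth {n : ℕ} (k : ℕ) (j : Fin n) (x : EuclideanSpace ℝ (Fin n)) :
    |x j ^ k| ≤ 1 * (1 + ‖x‖) ^ k := by
  rw [one_mul, abs_pow]
  refine pow_le_pow_left₀ (abs_nonneg _) ?_ k
  have := N4b_coord x j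
  linarith

/-
`ν` = law of `(X (lap (g j)))_j` (`exists_law`), `g` from `orthonormal_small`.  `cos`: `X_sum`, `comb`, `hχ`; `sin`: `X_sum` and `M.odd`; `two`: `M.two`;
`four`: `M.moment 4` and `nrm (lap (g j)) = 1 + ∫ |lap (g j)| ≤ 2`; with `C` from `M.moment 4`, `C4 = 16 |C|`.
`mid`: `M.mid`, and `∑ (∫ |lap (g j)|)² ≤ n ε²`.
-/
theorem exists_rlaw {I : Type} (M : Fld I) (E : EnergyFacts) (χ : ℝ → ℝ)
    (hχ : ∀ g, Cc g → M.L (fun i => Real.cos (M.X (lap g) i)) = χ (energy2 (lap g) (lap g))) :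
    ∃ C4 : ℝ, ∀ (n : ℕ) (ε : ℝ), 0 < ε → ε ≤ 1 → ∃ ν, RLaw χ M.K C4 n ε ν := by
  obtain ⟨C, hC⟩ := M.moment 4
  refine ⟨16 * |C|, fun n ε hε hε1 => ?_⟩
  obtain ⟨g, hg, ho, hs⟩ := orthonormal_small E n ε hε
  have hne : ∀ j, Ne (lap (g j)) := fun j => E.ne_lap _ (hg j)
  have hY : ∀ j, M.Ok (M.X (lap (g j))) := fun j => M.ok_X _ (hne j)
  obtain ⟨ν, hν, hφ⟩ := exists_law M.toLim (fun j => M.X (lap (g j))) hY
  have hvec : ∀ i j, vec (fun j => M.X (lap (g j))) i j = M.X (lap (g j)) i := fun i j => rfl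
  have hX : ∀ (t : Fin n → ℝ) (i : I), M.X (lap (fun z => ∑ j, t j * g j z)) i =
      ∑ j, t j * M.X (lap (g j)) i := by
    intro t i
    rw [(comb E g hg ho t).2.1]
    exact X_sum M (fun j => lap (g j)) hne t i
  have hlin : ∀ t : Fin n → ℝ, Continuous (fun x : EuclideanSpace ℝ (Fin n) => ∑ j, t j * x j) :=
    fun t => continuous_finsetSum _ fun j _ => continuous_const.mul (N4b_cont j)
  have hcos : ∀ t : Fin n → ℝ, ∫ x, Real.cos (∑ j, t j * x j) ∂ν = χ (∑ j, t j ^ 2) := by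
    intro t
    have h1 := (hφ (fun x => Real.cos (∑ j, t j * x j)) (Real.continuous_cos.comp (hlin t))
      ⟨1, 0, fun x => by simpa using Real.abs_cos_le_one _⟩).2
    rw [← h1]
    simp only [hvec]
    have h2 := hχ _ (comb E g hg ho t).1
    rw [(comb E g hg ho t).2.2] at h2
    rw [← h2]
    congr 1
    funext i
    rw [hX t i]
  have hsin : ∀ t : Fin n → ℝ, ∫ x, Real.sin (∑ j, t j * x j) ∂ν = 0 := by
    intro t
    have h1 := (hφ (fun x => Real.sin (∑ j, t j * x j)) (Real.continuous_sin.comp (hlin t))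
      ⟨1, 0, fun x => by simpa using Real.abs_sin_le_one _⟩).2
    rw [← h1]
    simp only [hvec]
    have h2 := M.odd _ (E.ne_lap _ (comb E g hg ho t).1)
    rw [← h2]
    congr 1
    funext i
    rw [hX t i]
  have h2 : ∀ j, Integrable (fun x : EuclideanSpace ℝ (Fin n) => x j ^ 2) ν ∧
      M.L (fun i => M.X (lap (g j)) i ^ 2) = ∫ x, x j ^ 2 ∂ν := fun j =>
    hφ (fun x => x j ^ 2) ((N4b_cont j).pow 2) ⟨1, 2, N4b_growth 2 j⟩
  have h4 : ∀ j, Integrable (fun x : EuclideanSpace ℝ (Fin n) => x j ^ 4) ν ∧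
      M.L (fun i => M.X (lap (g j)) i ^ 4) = ∫ x, x j ^ 4 ∂ν := fun j =>
    hφ (fun x => x j ^ 4) ((N4b_cont j).pow 4) ⟨1, 4, N4b_growth 4 j⟩
  have hgauss : ∀ a : Fin n → ℝ, M.L (fun i => Real.exp (-(1 / 2) * ∑ j, (M.X (lap (g j)) i - a j) ^ 2)) =
      ∫ x, Real.exp (-(1 / 2) * ∑ j, (x j - a j) ^ 2) ∂ν := by
    intro a
    refine (hφ (fun x => Real.exp (-(1 / 2) * ∑ j, (x j - a j) ^ 2)) ?_ ⟨1, 0, fun x => ?_⟩).2
    · exact Real.continuous_exp.comp (continuous_const.mul (continuous_finsetSum _ fun j _ =>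
        ((N4b_cont j).sub continuous_const).pow 2))
    · rw [abs_of_pos (Real.exp_pos _), pow_zero, mul_one, Real.exp_le_one_iff]
      have : 0 ≤ ∑ j, (x j - a j) ^ 2 := Finset.sum_nonneg fun j _ => sq_nonneg _
      linarith
  refine ⟨ν, ⟨hν, hcos, hsin, fun j => (h2 j).1, fun j => ?_, fun j => (h4 j).1, fun j => ?_, fun a b => ?_⟩⟩
  · rw [← (h2 j).2]
    have h5 := M.two _ _ (hne j) (hne j)
    rw [ho j j, if_pos rfl, mul_one] at h5
    rw [← h5]
    congr 1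
    funext i
    rw [sq]
  · rw [← (h4 j).2]
    have h5 := hC _ (hne j)
    have h6 : (fun i => |M.X (lap (g j)) i| ^ 4) = fun i => M.X (lap (g j)) i ^ 4 := by
      funext i
      exact Even.pow_abs ⟨2, rfl⟩ _
    rw [h6] at h5
    refine h5.trans ?_
    have h7 : nrm (lap (g j)) ≤ 2 := by
      unfold nrm
      rw [ho j j, if_pos rfl, Real.sqrt_one]
      have := hs j
      linarith
    have h8 : 0 ≤ nrm (lap (g j)) := by
      unfold nrm
      have : 0 ≤ ∫ z, |lap (g j) z| := integral_nonneg fun z => abs_nonneg _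
      have := Real.sqrt_nonneg (energy2 (lap (g j)) (lap (g j)))
      linarith
    calc C * nrm (lap (g j)) ^ 4 ≤ |C| * nrm (lap (g j)) ^ 4 :=
          mul_le_mul_of_nonneg_right (le_abs_self C) (by positivity)
      _ ≤ |C| * 2 ^ 4 := mul_le_mul_of_nonneg_left (pow_le_pow_left₀ h8 h7 4) (abs_nonneg C)
      _ = 16 * |C| := by ring
  · rw [← hgauss a, ← hgauss b]
    have h5 := hgauss (fun j => (a j + b j) / 2)
    simp only at h5
    rw [← h5]
    refine (M.mid n (fun j => lap (g j)) a b hne).trans ?_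
    refine mul_le_mul_of_nonneg_right (Real.exp_le_exp.2 ?_) (sq_nonneg _)
    calc ∑ j, (∫ z, |lap (g j) z|) ^ 2 ≤ ∑ _j : Fin n, ε ^ 2 := by
          refine Finset.sum_le_sum fun j _ => ?_
          exact pow_le_pow_left₀ (integral_nonneg fun z => abs_nonneg _) (hs j) 2
      _ = n * ε ^ 2 := by simp

end GF
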