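import Pool.Agent.Helper34.GF.N0
import Pool.Agent.Helper34.GF.N3a
import Pool.Agent.Helper34.GF.N3d

/-!
N4c.  The mixing measure.
-/

open MeasureTheory Filter Topology ProbabilityTheory

namespace GF

/-- the bounded continuous function `exp (-τ² |q| / 2)` -/
private noncomputable def N4c_phi (τ : ℝ) : BoundedContinuousFunction ℝ ℝ :=
  BoundedContinuousFunction.ofNormedAddCommGroup (fun q : ℝ => Real.exp (-(τ ^ 2 * |q| / 2)))
    (by fun_prop) 1 (by
      intro q
      rw [Real.norm_eq_abs, Real.abs_exp, Real.exp_le_one_iff]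
      have h1 : 0 ≤ τ ^ 2 * |q| := by positivity
      linarith)

private theorem N4c_phi_apply (τ q : ℝ) : N4c_phi τ q = Real.exp (-(τ ^ 2 * |q| / 2)) := rfl

private theorem N4c_cos {χ : ℝ → ℝ} {K C4 : ℝ} {n : ℕ} {ν : Measure (EuclideanSpace ℝ (Fin n))}
    (h : RLaw χ K C4 n 1 ν) (hn : 0 < n) (τ : ℝ) :
    ∫ x, ∏ j, Real.cos (τ * x j / Real.sqrt n) ∂ν = χ (τ ^ 2) := by
  have hp := h.prob
  have hn' : (0 : ℝ) < n := Nat.cast_pos.2 hn
  have hsq : Real.sqrt n ^ 2 = n := Real.sq_sqrt hn'.le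
  have key : ∀ s : Fin n → Bool,
      ∫ x : EuclideanSpace ℝ (Fin n),
        Real.cos (∑ j, (if s j then 1 else -1) * (τ * x j / Real.sqrt n)) ∂ν = χ (τ ^ 2) := by
    intro s
    have h1 := h.cos (fun j => (if s j then 1 else -1) * (τ / Real.sqrt n))
    have h2 : ∑ j : Fin n, ((if s j then (1 : ℝ) else -1) * (τ / Real.sqrt n)) ^ 2 = τ ^ 2 := by
      have h3 : ∀ j : Fin n, ((if s j then (1 : ℝ) else -1) * (τ / Real.sqrt n)) ^ 2 = τ ^ 2 / n := by
        intro j
        rw [mul_pow, div_pow, hsq]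
        split_ifs <;> norm_num
      rw [Finset.sum_congr rfl fun j _ => h3 j, Finset.sum_const, Finset.card_univ, Fintype.card_fin,
        nsmul_eq_mul]
      field_simp
    rw [h2] at h1
    rw [← h1]
    refine integral_congr_ae (Eventually.of_forall fun x => ?_)
    simp only
    congr 1
    refine Finset.sum_congr rfl fun j _ => ?_
    ring
  have hmeas : ∀ s : Fin n → Bool, Integrable (fun x : EuclideanSpace ℝ (Fin n) =>
      Real.cos (∑ j, (if s j then 1 else -1) * (τ * x j / Real.sqrt n))) ν := by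
    intro s
    refine Integrable.mono' (integrable_const (1 : ℝ)) ?_ (Eventually.of_forall fun x => ?_)
    · refine Continuous.aestronglyMeasurable ?_
      fun_prop
    · rw [Real.norm_eq_abs]
      exact Real.abs_cos_le_one _
  have hs : ∑ s : Fin n → Bool, ∫ x : EuclideanSpace ℝ (Fin n),
        Real.cos (∑ j, (if s j then 1 else -1) * (τ * x j / Real.sqrt n)) ∂ν =
      2 ^ n * ∫ x, ∏ j, Real.cos (τ * x j / Real.sqrt n) ∂ν := by
    rw [← integral_finsetSum _ fun s _ => hmeas s, ← integral_const_mul]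
    refine integral_congr_ae (Eventually.of_forall fun x => ?_)
    exact sign_sum n (fun j => τ * x j / Real.sqrt n)
  rw [Finset.sum_congr rfl fun s _ => key s, Finset.sum_const, Finset.card_univ, nsmul_eq_mul] at hs
  have hc : Fintype.card (Fin n → Bool) = 2 ^ n := by simp
  rw [hc] at hs
  push_cast at hs
  have h2n : (2 : ℝ) ^ n ≠ 0 := by positivity
  exact (mul_left_cancel₀ h2n hs).symm

private theorem N4c_diff {χ : ℝ → ℝ} {K C4 : ℝ} {n : ℕ} {ν : Measure (EuclideanSpace ℝ (Fin n))}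
    (h : RLaw χ K C4 n 1 ν) (hn : 0 < n) (τ : ℝ) :
    |χ (τ ^ 2) - ∫ x, Real.exp (-(τ ^ 2 * ((∑ j, x j ^ 2) / n) / 2)) ∂ν| ≤ τ ^ 4 * C4 / n := by
  have hp := h.prob
  have hn' : (0 : ℝ) < n := Nat.cast_pos.2 hn
  have hsq : Real.sqrt n ^ 2 = n := Real.sq_sqrt hn'.le
  have hsq4 : Real.sqrt n ^ 4 = n ^ 2 := by
    rw [show (4 : ℕ) = 2 * 2 from rfl, pow_mul, hsq]
  rw [← N4c_cos h hn τ]
  have i1 : Integrable (fun x : EuclideanSpace ℝ (Fin n) =>
      ∏ j, Real.cos (τ * x j / Real.sqrt n)) ν := by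
    refine Integrable.mono' (integrable_const (1 : ℝ)) ?_ (Eventually.of_forall fun x => ?_)
    · refine Continuous.aestronglyMeasurable ?_
      fun_prop
    · rw [Real.norm_eq_abs, Finset.abs_prod]
      exact Finset.prod_le_one (fun j _ => abs_nonneg _) fun j _ => Real.abs_cos_le_one _
  have i2 : Integrable (fun x : EuclideanSpace ℝ (Fin n) =>
      Real.exp (-(τ ^ 2 * ((∑ j, x j ^ 2) / n) / 2))) ν := by
    refine Integrable.mono' (integrable_const (1 : ℝ)) ?_ (Eventually.of_forall fun x => ?_)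
    · refine Continuous.aestronglyMeasurable ?_
      fun_prop
    · rw [Real.norm_eq_abs, Real.abs_exp, Real.exp_le_one_iff]
      have h1 : 0 ≤ τ ^ 2 * ((∑ j, x j ^ 2) / n) := by positivity
      linarith
  rw [← integral_sub i1 i2]
  have i4 : ∀ j : Fin n, Integrable (fun x : EuclideanSpace ℝ (Fin n) => τ ^ 4 / n ^ 2 * x j ^ 4) ν :=
    fun j => (h.int4 j).const_mul _
  calc |∫ x : EuclideanSpace ℝ (Fin n), (∏ j, Real.cos (τ * x j / Real.sqrt n) -
        Real.exp (-(τ ^ 2 * ((∑ j, x j ^ 2) / n) / 2))) ∂ν|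
      ≤ ∫ x : EuclideanSpace ℝ (Fin n), |∏ j, Real.cos (τ * x j / Real.sqrt n) -
        Real.exp (-(τ ^ 2 * ((∑ j, x j ^ 2) / n) / 2))| ∂ν := abs_integral_le_integral_abs
    _ ≤ ∫ x : EuclideanSpace ℝ (Fin n), ∑ j, τ ^ 4 / n ^ 2 * x j ^ 4 ∂ν := by
        refine integral_mono (i1.sub i2).abs (integrable_finsetSum _ fun j _ => i4 j) fun x => ?_
        have h1 := cos_prod n (fun j => τ * x j / Real.sqrt n)
        have h2 : -(1 / 2) * ∑ j : Fin n, (τ * x j / Real.sqrt n) ^ 2 =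
            -(τ ^ 2 * ((∑ j, x j ^ 2) / n) / 2) := by
          have h3 : ∀ j : Fin n, (τ * x j / Real.sqrt n) ^ 2 = τ ^ 2 / n * x j ^ 2 := by
            intro j
            rw [div_pow, hsq, mul_pow]
            ring
          rw [Finset.sum_congr rfl fun j _ => h3 j, ← Finset.mul_sum]
          ring
        rw [h2] at h1
        refine h1.trans (le_of_eq ?_)
        refine Finset.sum_congr rfl fun j _ => ?_
        rw [div_pow, hsq4, mul_pow]
        ring
    _ = ∑ j : Fin n, τ ^ 4 / n ^ 2 * ∫ x : EuclideanSpace ℝ (Fin n), x j ^ 4 ∂ν := by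
        rw [integral_finsetSum _ fun j _ => i4 j]
        exact Finset.sum_congr rfl fun j _ => integral_const_mul _ _
    _ ≤ ∑ j : Fin n, τ ^ 4 / n ^ 2 * C4 :=
        Finset.sum_le_sum fun j _ => mul_le_mul_of_nonneg_left (h.four j) (by positivity)
    _ = τ ^ 4 * C4 / n := by
        rw [Finset.sum_const, Finset.card_univ, Fintype.card_fin, nsmul_eq_mul]
        field_simp

/-
For `n ≥ 1` let `ν n` be an `RLaw` (with `ε = 1`), `μ n` = law of `‖x‖²/n` under `ν n`; `∫ q dμ n = K`.  `line_limit` gives `κ`, `U`.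
`χ (τ²) = 2^(-n) ∑_s ∫ cos (∑ s_j τ x_j/√n) dν n = ∫ ∏ cos (τ x_j/√n) dν n` (`cos` for `t = τ s/√n`, `∑ t_j² = τ²`; `sign_sum`), and
`|∫ ∏ cos (τ x_j/√n) - ∫ exp (-τ² ‖x‖²/(2n))| ≤ ∑ ∫ τ⁴ x_j⁴/n² ≤ τ⁴ C4 / n → 0` (`cos_prod`); `∫ exp (-τ² ‖x‖²/(2n)) dν n = ∫ exp (-τ² q/2) dμ n → ∫ exp (-τ² q/2) dκ`
(bounded continuous function `exp (-τ² |q|/2)`).  (`n = 0` is irrelevant: `U ≤ atTop`; put `μ 0 = dirac 0`.)
-/
theorem exists_mix (χ : ℝ → ℝ) (K C4 : ℝ) (h : ∀ n : ℕ, ∃ ν, RLaw χ K C4 n 1 ν) :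
    ∃ κ : Measure ℝ, IsProbabilityMeasure κ ∧ κ (Set.Iio 0) = 0 ∧
      ∀ τ : ℝ, χ (τ ^ 2) = ∫ q, Real.exp (-(τ ^ 2 * q / 2)) ∂κ := by
  choose ν hν using h
  have hS : ∀ n : ℕ, Continuous (fun x : EuclideanSpace ℝ (Fin n) => (∑ j, x j ^ 2) / (n : ℝ)) := by
    intro n
    fun_prop
  have hS0 : ∀ (n : ℕ) (x : EuclideanSpace ℝ (Fin n)), 0 ≤ (∑ j, x j ^ 2) / (n : ℝ) := by
    intro n x
    positivity
  obtain ⟨κ, U, hκ1, hκ0, hU, hU', hlim⟩ := line_limit
    (fun n => (ν n).map (fun x : EuclideanSpace ℝ (Fin n) => (∑ j, x j ^ 2) / (n : ℝ)))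
    (fun n => by
      have := (hν n).prob
      exact Measure.isProbabilityMeasure_map (hS n).measurable.aemeasurable)
    (fun n => by
      rw [Measure.map_apply (hS n).measurable measurableSet_Iio]
      have he : (fun x : EuclideanSpace ℝ (Fin n) => (∑ j, x j ^ 2) / (n : ℝ)) ⁻¹' (Set.Iio 0) = ∅ := by
        ext x
        simp only [Set.mem_preimage, Set.mem_Iio, Set.mem_empty_iff_false, iff_false, not_lt]
        exact hS0 n x
      rw [he, measure_empty])
    (fun n => by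
      rw [integrable_map_measure (by fun_prop) (hS n).measurable.aemeasurable]
      exact (integrable_finsetSum _ fun j _ => (hν n).int2 j).div_const _)
    |K|
    (fun n => by
      rw [integral_map (hS n).measurable.aemeasurable (by fun_prop), integral_div,
        integral_finsetSum _ fun j _ => (hν n).int2 j, Finset.sum_congr rfl fun j _ => (hν n).two j,
        Finset.sum_const, Finset.card_univ, Fintype.card_fin, nsmul_eq_mul]
      rcases Nat.eq_zero_or_pos n with h0 | h0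
      · subst h0
        simp
      · have hn' : (0 : ℝ) < n := Nat.cast_pos.2 h0
        rw [mul_div_assoc, mul_comm, div_mul_cancel₀ _ hn'.ne']
        exact le_abs_self K)
  refine ⟨κ, hκ1, hκ0, fun τ => ?_⟩
  have h1 : ∫ q, N4c_phi τ q ∂κ = ∫ q, Real.exp (-(τ ^ 2 * q / 2)) ∂κ := by
    refine integral_congr_ae ?_
    have h2 : ∀ᵐ q ∂κ, q ∉ Set.Iio (0 : ℝ) := measure_eq_zero_iff_ae_notMem.1 hκ0
    filter_upwards [h2] with q hq
    rw [N4c_phi_apply, abs_of_nonneg (not_lt.1 hq)]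
  rw [← h1]
  refine tendsto_nhds_unique (f := fun n : ℕ => ∫ q, N4c_phi τ q
    ∂((ν n).map (fun x : EuclideanSpace ℝ (Fin n) => (∑ j, x j ^ 2) / (n : ℝ)))) (l := U) ?_
    (hlim (N4c_phi τ))
  have h3 : Tendsto (fun n : ℕ => τ ^ 4 * C4 / (n : ℝ)) U (𝓝 0) :=
    (tendsto_const_div_atTop_nhds_zero_nat _).mono_left hU'
  have h4 : ∀ᶠ n : ℕ in U, ‖(∫ q, N4c_phi τ q
      ∂((ν n).map (fun x : EuclideanSpace ℝ (Fin n) => (∑ j, x j ^ 2) / (n : ℝ)))) - χ (τ ^ 2)‖ ≤
        τ ^ 4 * C4 / (n : ℝ) := by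
    refine Filter.Eventually.mono (hU' (eventually_gt_atTop 0)) fun n hn => ?_
    rw [integral_map (hS n).measurable.aemeasurable
      (N4c_phi τ).continuous.measurable.aestronglyMeasurable]
    have h5 := N4c_diff (hν n) hn τ
    rw [Real.norm_eq_abs, abs_sub_comm]
    refine le_trans (le_of_eq ?_) h5
    congr 2
    refine integral_congr_ae (Eventually.of_forall fun x => ?_)
    simp only [N4c_phi_apply]
    rw [abs_of_nonneg (hS0 n x)]
  have h6 := squeeze_zero_norm' h4 h3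
  have h7 := h6.add_const (χ (τ ^ 2))
  simpa using h7

end GF
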