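import Pool.Agent.Helper34.GF.N0
import Pool.Agent.Helper34.GF.N3b

/-!
N4d.  Gaussian functions of the mixture.
-/

open MeasureTheory Filter Topology ProbabilityTheory

namespace GF

/-
`exp (-‖x-a‖²/2) = ∫ cos ⟨t, x-a⟩ dγ t` (`gauss_fourier`); Fubini (bounded, probability measures): `∫ cos ⟨t, x - a⟩ dν x = cos ⟨t,a⟩ χ(‖t‖²)` by `cos`, `sin`;
then `χ(‖t‖²) = ∫ exp (-‖t‖² q/2) dκ q`, Fubini again and `gauss_int`.
-/
theorem mix_gauss (χ : ℝ → ℝ) (K C4 : ℝ) (n : ℕ) (ε : ℝ) (ν : Measure (EuclideanSpace ℝ (Fin n)))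
    (h : RLaw χ K C4 n ε ν) (κ : Measure ℝ) [IsProbabilityMeasure κ] (h0 : κ (Set.Iio 0) = 0)
    (hκ : ∀ τ : ℝ, χ (τ ^ 2) = ∫ q, Real.exp (-(τ ^ 2 * q / 2)) ∂κ) (α : ℝ) :
    ∫ x, Real.exp (-(1 / 2) * ∑ j, (x j - α) ^ 2) ∂ν = ∫ q, rate α q ^ n ∂κ := by
  have := h.prob
  have hq : ∀ᵐ q ∂κ, 0 ≤ q := by
    have h1 : {q : ℝ | ¬ 0 ≤ q} = Set.Iio 0 := by
      ext q
      simp
    rw [ae_iff, h1]
    exact h0
  set γ : Measure (EuclideanSpace ℝ (Fin n)) := stdGaussian (EuclideanSpace ℝ (Fin n)) with hγ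
  -- the first exchange
  have hI1 : Integrable (Function.uncurry fun (x t : EuclideanSpace ℝ (Fin n)) =>
      Real.cos (∑ j, t j * (x j - α))) (ν.prod γ) := by
    have hc : Continuous (Function.uncurry fun (x t : EuclideanSpace ℝ (Fin n)) =>
        Real.cos (∑ j, t j * (x j - α))) := by
      unfold Function.uncurry
      fun_prop
    refine Integrable.of_bound hc.aestronglyMeasurable 1 (Eventually.of_forall fun z => ?_)
    rw [Real.norm_eq_abs]
    exact Real.abs_cos_le_one _
  have e1 : ∫ x, Real.exp (-(1 / 2) * ∑ j, (x j - α) ^ 2) ∂ν =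
      ∫ t, ∫ x, Real.cos (∑ j, t j * (x j - α)) ∂ν ∂γ := by
    refine Eq.trans ?_ (integral_integral_swap hI1)
    refine integral_congr_ae (Eventually.of_forall fun x => ?_)
    exact gauss_fourier n fun j => x j - α
  -- the inner integral
  have e2 : ∀ t : EuclideanSpace ℝ (Fin n), ∫ x, Real.cos (∑ j, t j * (x j - α)) ∂ν =
      ∫ q, Real.cos (∑ j, t j * α) * Real.exp (-(max q 0 * ‖t‖ ^ 2 / 2)) ∂κ := by
    intro t
    have hic : Integrable (fun x : EuclideanSpace ℝ (Fin n) => Real.cos (∑ j, t j * x j)) ν := by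
      have hc : Continuous fun x : EuclideanSpace ℝ (Fin n) => Real.cos (∑ j, t j * x j) := by
        fun_prop
      refine Integrable.of_bound hc.aestronglyMeasurable 1 (Eventually.of_forall fun z => ?_)
      rw [Real.norm_eq_abs]
      exact Real.abs_cos_le_one _
    have his : Integrable (fun x : EuclideanSpace ℝ (Fin n) => Real.sin (∑ j, t j * x j)) ν := by
      have hc : Continuous fun x : EuclideanSpace ℝ (Fin n) => Real.sin (∑ j, t j * x j) := by
        fun_prop
      refine Integrable.of_bound hc.aestronglyMeasurable 1 (Eventually.of_forall fun z => ?_)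
      rw [Real.norm_eq_abs]
      exact Real.abs_sin_le_one _
    have h1 : ∀ x : EuclideanSpace ℝ (Fin n), Real.cos (∑ j, t j * (x j - α)) =
        Real.cos (∑ j, t j * α) * Real.cos (∑ j, t j * x j) +
        Real.sin (∑ j, t j * α) * Real.sin (∑ j, t j * x j) := by
      intro x
      have h2 : ∑ j, t j * (x j - α) = ∑ j, t j * x j - ∑ j, t j * α := by
        rw [← Finset.sum_sub_distrib]
        exact Finset.sum_congr rfl fun j _ => by ring
      rw [h2, Real.cos_sub]
      ring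
    simp only [h1]
    rw [integral_add (hic.const_mul _) (his.const_mul _), integral_const_mul, integral_const_mul,
      integral_const_mul, h.cos (fun j => t j), h.sin (fun j => t j), mul_zero, add_zero]
    have h3 : ∑ j, t j ^ 2 = ‖t‖ ^ 2 := by
      rw [EuclideanSpace.real_norm_sq_eq]
    rw [h3, hκ]
    congr 1
    refine integral_congr_ae ?_
    filter_upwards [hq] with q hq0
    rw [max_eq_left hq0, mul_comm q]
  -- the second exchange
  have hI2 : Integrable (Function.uncurry fun (t : EuclideanSpace ℝ (Fin n)) (q : ℝ) =>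
      Real.cos (∑ j, t j * α) * Real.exp (-(max q 0 * ‖t‖ ^ 2 / 2))) (γ.prod κ) := by
    have hc : Continuous (Function.uncurry fun (t : EuclideanSpace ℝ (Fin n)) (q : ℝ) =>
        Real.cos (∑ j, t j * α) * Real.exp (-(max q 0 * ‖t‖ ^ 2 / 2))) := by
      unfold Function.uncurry
      fun_prop
    refine Integrable.of_bound hc.aestronglyMeasurable 1 (Eventually.of_forall fun z => ?_)
    have h1 : |Real.cos (∑ j, z.1 j * α)| ≤ 1 := Real.abs_cos_le_one _
    have h2 : Real.exp (-(max z.2 0 * ‖z.1‖ ^ 2 / 2)) ≤ 1 := by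
      rw [Real.exp_le_one_iff]
      have h3 : 0 ≤ max z.2 0 * ‖z.1‖ ^ 2 := mul_nonneg (le_max_right _ _) (sq_nonneg _)
      linarith
    change ‖Real.cos (∑ j, z.1 j * α) * Real.exp (-(max z.2 0 * ‖z.1‖ ^ 2 / 2))‖ ≤ 1
    rw [Real.norm_eq_abs, abs_mul, abs_of_pos (Real.exp_pos _)]
    exact mul_le_one₀ h1 (Real.exp_pos _).le h2
  rw [e1]
  simp only [e2]
  rw [integral_integral_swap hI2]
  refine integral_congr_ae ?_
  filter_upwards [hq] with q hq0
  rw [max_eq_left hq0]
  exact gauss_int n q α hq0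

end GF
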