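import Pool.Agent.Helper34.GF.N4c
import Pool.Agent.Helper34.GF.N4d
import Pool.Agent.Helper34.GF.N3c

/-!
N4e.  The characteristic function.
-/

open MeasureTheory Filter Topology ProbabilityTheory

namespace GF

private theorem N4e_cos_bound (y : ℝ) : |Real.cos y - 1 + y ^ 2 / 2| ≤ y ^ 4 := by
  have h1 : 0 ≤ Real.cos y - 1 + y ^ 2 / 2 := by
    have := Real.one_sub_sq_div_two_le_cos (x := y)
    linarith
  rw [abs_of_nonneg h1]
  by_cases hy : |y| ≤ 1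
  · have h2 := Real.cos_bound hy
    have h3 : Real.cos y - (1 - y ^ 2 / 2) ≤ |y| ^ 4 * (5 / 96) := (le_abs_self _).trans h2
    have h4 : |y| ^ 4 = y ^ 4 := by
      have : |y| ^ 4 = (|y| ^ 2) ^ 2 := by ring
      rw [this, sq_abs]; ring
    rw [h4] at h3
    have h5 : 0 ≤ y ^ 4 := by positivity
    linarith
  · have hy2 : 1 ≤ y ^ 2 := by
      have h6 : 1 < |y| := not_le.mp hy
      have h7 : (1 : ℝ) ≤ |y| ^ 2 := by nlinarith
      rwa [sq_abs] at h7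
    have h8 := Real.cos_le_one y
    nlinarith

private theorem N4e_eq (q0 K D s0 : ℝ) (hs0 : 0 < s0) (hD : 0 ≤ D)
    (h : ∀ s : ℝ, 0 < s → s ≤ s0 → |K - q0| ≤ s * D) : q0 = K := by
  have h1 : |K - q0| ≤ 0 := by
    refine le_of_forall_pos_le_add fun e he => ?_
    rw [zero_add]
    have hD1 : 0 < D + 1 := by linarith
    have hs : 0 < min s0 (e / (D + 1)) := lt_min hs0 (div_pos he hD1)
    refine (h _ hs (min_le_left _ _)).trans ?_
    calc min s0 (e / (D + 1)) * D ≤ e / (D + 1) * D :=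
          mul_le_mul_of_nonneg_right (min_le_right _ _) hD
      _ ≤ e / (D + 1) * (D + 1) :=
          mul_le_mul_of_nonneg_left (by linarith) (div_pos he hD1).le
      _ = e := by field_simp
  have h2 : K - q0 = 0 := by
    have := le_antisymm h1 (abs_nonneg _)
    exact abs_eq_zero.mp this
  linarith

private theorem N4e_small (χ : ℝ → ℝ) (K C4 : ℝ) (ν : Measure (EuclideanSpace ℝ (Fin 1)))
    (h : RLaw χ K C4 1 1 ν) (τ : ℝ) : |χ (τ ^ 2) - 1 + K * τ ^ 2 / 2| ≤ C4 * τ ^ 4 := by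
  have := h.prob
  have hc := h.cos (fun _ => τ)
  simp only [Finset.univ_unique, Fin.default_eq_zero, Fin.isValue, Finset.sum_const,
    Finset.card_singleton, one_smul, Finset.sum_singleton] at hc
  have hm : Measurable (fun x : EuclideanSpace ℝ (Fin 1) => x 0) := by fun_prop
  have hic : Integrable (fun x : EuclideanSpace ℝ (Fin 1) => Real.cos (τ * x 0)) ν := by
    refine Integrable.of_bound (C := 1) ?_ ?_
    · exact (Real.measurable_cos.comp (hm.const_mul τ)).aestronglyMeasurable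
    · filter_upwards with x
      simpa using Real.abs_cos_le_one (τ * x 0)
  have hi1 : Integrable (fun _ : EuclideanSpace ℝ (Fin 1) => (1 : ℝ)) ν := integrable_const _
  have hi2 : Integrable (fun x : EuclideanSpace ℝ (Fin 1) => τ ^ 2 / 2 * x 0 ^ 2) ν :=
    (h.int2 0).const_mul _
  have hi4 : Integrable (fun x : EuclideanSpace ℝ (Fin 1) => τ ^ 4 * x 0 ^ 4) ν :=
    (h.int4 0).const_mul _
  have hs1 : Integrable (fun x : EuclideanSpace ℝ (Fin 1) => Real.cos (τ * x 0) - 1) ν :=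
    hic.sub hi1
  have he : χ (τ ^ 2) - 1 + K * τ ^ 2 / 2
      = ∫ x, (Real.cos (τ * x 0) - 1 + τ ^ 2 / 2 * x 0 ^ 2) ∂ν := by
    rw [integral_add hs1 hi2, integral_sub hic hi1, integral_const_mul, h.two 0, hc]
    simp
    ring
  rw [he]
  refine (abs_integral_le_integral_abs).trans ?_
  have hle : ∫ x, |Real.cos (τ * x 0) - 1 + τ ^ 2 / 2 * x 0 ^ 2| ∂ν
      ≤ ∫ x, τ ^ 4 * x 0 ^ 4 ∂ν := by
    refine integral_mono (hs1.add hi2).abs hi4 fun x => ?_
    have := N4e_cos_bound (τ * x 0)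
    calc |Real.cos (τ * x 0) - 1 + τ ^ 2 / 2 * x 0 ^ 2|
        = |Real.cos (τ * x 0) - 1 + (τ * x 0) ^ 2 / 2| := by congr 1; ring
      _ ≤ (τ * x 0) ^ 4 := this
      _ = τ ^ 4 * x 0 ^ 4 := by ring
  refine hle.trans ?_
  rw [integral_const_mul]
  have h4 := h.four 0
  have : 0 ≤ τ ^ 4 := by positivity
  nlinarith

private theorem N4e_C4 (χ : ℝ → ℝ) (K C4 : ℝ) (ν : Measure (EuclideanSpace ℝ (Fin 1)))
    (h : RLaw χ K C4 1 1 ν) : 0 ≤ C4 := by
  refine le_trans ?_ (h.four 0)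
  exact integral_nonneg fun x => by positivity

/-
`κ` from `exists_mix`; `RLaw.mid` for constant vectors `a = (α..)`, `b = (β..)` and `mix_gauss` give
`(∫ rate α ^ n)(∫ rate β ^ n) ≤ exp (n ε²) (∫ rate ((α+β)/2) ^ n)²` for all `0 < ε ≤ 1`; `ε → 0`, then `rate_dirac`: `κ = dirac q0`, `χ (τ²) = exp (-τ² q0/2)`.
`q0 = K`: for an `RLaw` with `n = 1`, `|χ (τ²) - 1 + K τ²/2| ≤ C4 τ⁴` (`|cos x - 1 + x²/2| ≤ x⁴`), and the same for `exp (-τ² q0/2)`; divide by `τ²`, `τ → 0`.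
-/
theorem chi_gauss (χ : ℝ → ℝ) (K C4 : ℝ) (h : ∀ (n : ℕ) (ε : ℝ), 0 < ε → ε ≤ 1 → ∃ ν, RLaw χ K C4 n ε ν) (τ : ℝ) :
    χ (τ ^ 2) = Real.exp (-(K * τ ^ 2 / 2)) := by
  obtain ⟨κ, hκp, h0, hκ⟩ := exists_mix χ K C4 (fun n => h n 1 one_pos le_rfl)
  have hrate : ∀ n : ℕ, ∀ α β : ℝ, 0 < α → 0 < β →
      (∫ q, rate α q ^ n ∂κ) * (∫ q, rate β q ^ n ∂κ)
        ≤ (∫ q, rate ((α + β) / 2) q ^ n ∂κ) ^ 2 := by
    intro n α β _ _
    have key : ∀ ε : ℝ, 0 < ε → ε ≤ 1 → (∫ q, rate α q ^ n ∂κ) * (∫ q, rate β q ^ n ∂κ)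
        ≤ Real.exp (n * ε ^ 2) * (∫ q, rate ((α + β) / 2) q ^ n ∂κ) ^ 2 := by
      intro ε he he1
      obtain ⟨ν, hν⟩ := h n ε he he1
      have hm := hν.mid (fun _ => α) (fun _ => β)
      rw [mix_gauss χ K C4 n ε ν hν κ h0 hκ α, mix_gauss χ K C4 n ε ν hν κ h0 hκ β,
        mix_gauss χ K C4 n ε ν hν κ h0 hκ ((α + β) / 2)] at hm
      exact hm
    have ht : Tendsto (fun ε : ℝ => Real.exp (n * ε ^ 2)
        * (∫ q, rate ((α + β) / 2) q ^ n ∂κ) ^ 2) (𝓝[>] 0)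
        (𝓝 ((∫ q, rate ((α + β) / 2) q ^ n ∂κ) ^ 2)) := by
      have hcont : Continuous (fun ε : ℝ => Real.exp (n * ε ^ 2)
        * (∫ q, rate ((α + β) / 2) q ^ n ∂κ) ^ 2) := by fun_prop
      have := (hcont.tendsto 0).mono_left (nhdsWithin_le_nhds (s := Set.Ioi (0 : ℝ)))
      simpa using this
    refine ge_of_tendsto ht ?_
    filter_upwards [Ioc_mem_nhdsGT (zero_lt_one' ℝ)] with ε hε
    exact key ε hε.1 hε.2
  obtain ⟨q0, hq0, hdir⟩ := rate_dirac κ h0 hrate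
  have hχ : ∀ τ : ℝ, χ (τ ^ 2) = Real.exp (-(τ ^ 2 * q0 / 2)) := by
    intro τ
    rw [hκ τ, hdir, integral_dirac]
  obtain ⟨ν, hν⟩ := h 1 1 one_pos le_rfl
  have hC4 := N4e_C4 χ K C4 ν hν
  have hqK : q0 = K := by
    refine N4e_eq q0 K (2 * C4 + q0 ^ 2 / 2) (1 / (q0 + 1)) (by positivity) (by positivity) ?_
    intro s hs hs1
    have hsq : s * (q0 + 1) ≤ 1 := by
      rw [le_div_iff₀ (by linarith)] at hs1
      exact hs1
    have hτ : Real.sqrt s ^ 2 = s := Real.sq_sqrt hs.le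
    have h1 := N4e_small χ K C4 ν hν (Real.sqrt s)
    have h4 : Real.sqrt s ^ 4 = s ^ 2 := by
      have : Real.sqrt s ^ 4 = (Real.sqrt s ^ 2) ^ 2 := by ring
      rw [this, hτ]
    rw [hχ, hτ, h4] at h1
    have hx : |(-(s * q0 / 2))| ≤ 1 := by
      rw [abs_neg, abs_of_nonneg (by positivity)]
      nlinarith
    have h2 := Real.abs_exp_sub_one_sub_id_le hx
    have h3 := abs_le.mp h1
    have h5 := abs_le.mp h2
    have h6 : |s * (K - q0)| ≤ s * (s * (2 * C4 + q0 ^ 2 / 2)) := by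
      rw [abs_le]
      constructor
      · nlinarith [h3.1, h3.2, h5.1, h5.2]
      · nlinarith [h3.1, h3.2, h5.1, h5.2]
    rw [abs_mul, abs_of_pos hs] at h6
    exact le_of_mul_le_mul_left h6 hs
  rw [hχ, hqK]
  congr 1
  ring

end GF
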