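import Pool.Agent.Helper34.GF.N4e
import Pool.Agent.Helper34.GF.N4b

/-!
N5.  Radial implies Gaussian.
-/

open MeasureTheory Filter Topology ProbabilityTheory

namespace GF

theorem radial_gauss {I : Type} (M : Fld I) (E : EnergyFacts) (χ : ℝ → ℝ)
    (hχ : ∀ g, Cc g → M.L (fun i => Real.cos (M.X (lap g) i)) = χ (energy2 (lap g) (lap g)))
    (g : Pl → ℝ) (hg : Cc g) (h0 : 0 ≤ energy2 (lap g) (lap g)) :
    M.L (fun i => Real.cos (M.X (lap g) i)) = Real.exp (-(M.K * energy2 (lap g) (lap g) / 2)) := by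
  obtain ⟨C4, h⟩ := exists_rlaw M E χ hχ
  have h1 := chi_gauss χ M.K C4 h (Real.sqrt (energy2 (lap g) (lap g)))
  rw [Real.sq_sqrt h0] at h1
  rw [hχ g hg, h1]

end GF
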